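import Pool.Agent.Lib.P28b04d.Chain

set_option autoImplicit false

namespace Pool.Agent.P28b04d

open scoped ContDiff
open Set Filter Topology

variable {n : ℕ}

/-- matrix-vector product -/
def act (P : Fin (n + 1) → Fin (n + 1) → ℂ) (v : Fin (n + 1) → ℂ) : Fin (n + 1) → ℂ :=
  fun i => ∑ k, P i k * v k

/-- Hermitian product, conjugate-linear in the first variable -/
def hip (z v : Fin (n + 1) → ℂ) : ℂ := ∑ k, star (z k) * v k

/-- the matrix-vector product as a continuous bilinear map -/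
noncomputable def actL : (Fin (n + 1) → Fin (n + 1) → ℂ) →L[ℝ] (Fin (n + 1) → ℂ) →L[ℝ]
    (Fin (n + 1) → ℂ) :=
  (LinearMap.mk₂ ℝ (act (n := n))
    (by intro a b c; funext i; simp [act, add_mul, Finset.sum_add_distrib])
    (by intro a b c; funext i; simp [act, Finset.mul_sum, mul_assoc])
    (by intro a b c; funext i; simp [act, mul_add, Finset.sum_add_distrib])
    (by intro a b c; funext i; simp [act, Finset.mul_sum, mul_left_comm])).toContinuousBilinearMap

lemma actL_apply (P : Fin (n + 1) → Fin (n + 1) → ℂ) (v : Fin (n + 1) → ℂ) :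
    actL P v = act P v := rfl

lemma act_smul (P : Fin (n + 1) → Fin (n + 1) → ℂ) (c : ℂ) (v : Fin (n + 1) → ℂ) :
    act P (c • v) = c • act P v := by
  funext i; simp [act, Finset.mul_sum, mul_left_comm]

lemma act_zero (P : Fin (n + 1) → Fin (n + 1) → ℂ) : act P 0 = 0 := by
  funext i; simp [act]

lemma act_pt (z v : Fin (n + 1) → ℂ) : act (pt z) v = (hip z v / (nsq z : ℂ)) • z := by
  funext i
  simp only [act, pt, hip, Pi.smul_apply, smul_eq_mul]
  rw [Finset.sum_div, Finset.sum_mul]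
  exact Finset.sum_congr rfl fun k _ => by ring

lemma hip_self (z : Fin (n + 1) → ℂ) : hip z z = (nsq z : ℂ) := (nsq_eq' z).symm

lemma act_pt_self {z : Fin (n + 1) → ℂ} (hz : z ≠ 0) : act (pt z) z = z := by
  rw [act_pt, hip_self, div_self (nsq_ne hz), one_smul]

lemma eq_pt_act {P : Fin (n + 1) → Fin (n + 1) → ℂ} (hP : P ∈ CP n) {v : Fin (n + 1) → ℂ}
    (h : act P v ≠ 0) : P = pt (act P v) := by
  obtain ⟨z, hz, rfl⟩ := exists_pt hP
  rw [act_pt, pt_smul]
  intro h0
  apply h
  rw [act_pt, h0, zero_smul]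

lemma eq_pt_of_act {P : Fin (n + 1) → Fin (n + 1) → ℂ} (hP : P ∈ CP n) {u : Fin (n + 1) → ℂ}
    (hu : u ≠ 0) (h : act P u = u) : P = pt u := by
  have := eq_pt_act hP (v := u) (by rwa [h])
  rwa [h] at this

lemma hip_re_pos {v : Fin (n + 1) → ℂ} (hv : v ≠ 0) : 0 < (hip v v).re := by
  rw [hip_self, Complex.ofReal_re]
  exact nsq_pos hv

/-- derivative of a curve of rank one projections -/
lemma curve_formula {q : ℝ → (Fin (n + 1) → Fin (n + 1) → ℂ)}
    {D : Fin (n + 1) → Fin (n + 1) → ℂ} (hq : HasDerivAt q D 0)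
    (hmem : ∀ᶠ r in 𝓝 (0 : ℝ), q r ∈ CP n) {u : Fin (n + 1) → ℂ} (h0 : q 0 = pt u) (i j) :
    D i j = (act D u i * star (u j) + u i * star (act D u j)) / (nsq u : ℂ) := by
  have hent : ∀ a b, HasDerivAt (fun r => q r a b) (D a b) 0 := by
    intro a b
    exact hasDerivAt_pi.1 (hasDerivAt_pi.1 hq a) b
  have hher : ∀ a b, D b a = star (D a b) := by
    intro a b
    have h1 : HasDerivAt (fun r => star (q r a b)) (star (D a b)) 0 := (hent a b).star
    have h2 : (fun r => q r b a) =ᶠ[𝓝 0] fun r => star (q r a b) := by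
      filter_upwards [hmem] with r hr
      exact hr.1 a b
    exact (hent b a).unique (h1.congr_of_eventuallyEq h2)
  have hid : ∑ k, (D i k * pt u k j + pt u i k * D k j) = D i j := by
    have h1 : HasDerivAt (fun r => ∑ k, q r i k * q r k j)
        (∑ k, (D i k * q 0 k j + q 0 i k * D k j)) 0 :=
      HasDerivAt.fun_sum fun k _ => (hent i k).mul (hent k j)
    have h2 : (fun r => ∑ k, q r i k * q r k j) =ᶠ[𝓝 0] fun r => q r i j := by
      filter_upwards [hmem] with r hr
      exact hr.2.1 i j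
    rw [h0] at h1
    exact h1.unique ((hent i j).congr_of_eventuallyEq h2)
  have e1 : act D u i = ∑ k, D i k * u k := rfl
  have e2 : star (act D u j) = ∑ k, star (u k) * D k j := by
    simp only [act, star_sum, star_mul']
    refine Finset.sum_congr rfl fun k _ => ?_
    rw [← hher j k, mul_comm]
  rw [← hid, Finset.sum_add_distrib, e1, e2, add_div]
  congr 1
  · rw [Finset.sum_mul, Finset.sum_div]
    refine Finset.sum_congr rfl fun k _ => ?_
    simp only [pt]
    ring
  · rw [Finset.mul_sum, Finset.sum_div]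
    refine Finset.sum_congr rfl fun k _ => ?_
    simp only [pt]
    ring

lemma curve_zero {q : ℝ → (Fin (n + 1) → Fin (n + 1) → ℂ)}
    {D : Fin (n + 1) → Fin (n + 1) → ℂ} (hq : HasDerivAt q D 0)
    (hmem : ∀ᶠ r in 𝓝 (0 : ℝ), q r ∈ CP n) {u : Fin (n + 1) → ℂ} (h0 : q 0 = pt u)
    (h : act D u = 0) : D = 0 := by
  funext i j
  rw [curve_formula hq hmem h0, h]
  simp

lemma curve_hip {q : ℝ → (Fin (n + 1) → Fin (n + 1) → ℂ)}
    {D : Fin (n + 1) → Fin (n + 1) → ℂ} (hq : HasDerivAt q D 0)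
    (hmem : ∀ᶠ r in 𝓝 (0 : ℝ), q r ∈ CP n) {u : Fin (n + 1) → ℂ} (hu : u ≠ 0)
    (h0 : q 0 = pt u) : hip u (act D u) = 0 := by
  have hN := nsq_ne hu
  obtain ⟨i, hi⟩ := Function.ne_iff.1 hu
  replace hi : u i ≠ 0 := hi
  have h1 : act D u i = act D u i + u i * (∑ j, star (act D u j) * u j) / (nsq u : ℂ) := by
    have e : act D u i = ∑ j, D i j * u j := rfl
    have e3 : ∀ j, D i j * u j = (act D u i / (nsq u : ℂ)) * (star (u j) * u j)
        + (u i / (nsq u : ℂ)) * (star (act D u j) * u j) := by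
      intro j
      rw [curve_formula hq hmem h0 i j]
      ring
    conv_lhs => rw [e]
    rw [Finset.sum_congr rfl fun j _ => e3 j, Finset.sum_add_distrib, ← Finset.mul_sum,
      ← Finset.mul_sum, ← nsq_eq']
    field_simp
  have h2 : u i * (∑ j, star (act D u j) * u j) / (nsq u : ℂ) = 0 := by
    have := h1
    nth_rewrite 1 [← add_zero (act D u i)] at this
    exact (add_left_cancel this).symm
  rw [div_eq_zero_iff, or_iff_left hN, mul_eq_zero, or_iff_right hi] at h2
  have h3 : hip u (act D u) = star (∑ j, star (act D u j) * u j) := by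
    simp only [hip, star_sum, star_mul', star_star]
    exact Finset.sum_congr rfl fun _ _ => mul_comm _ _
  rw [h3, h2, star_zero]

lemma hasDerivAt_act {q : ℝ → (Fin (n + 1) → Fin (n + 1) → ℂ)}
    {D : Fin (n + 1) → Fin (n + 1) → ℂ} (hq : HasDerivAt q D 0)
    {c : ℝ → (Fin (n + 1) → ℂ)} {v : Fin (n + 1) → ℂ} (hc : HasDerivAt c v 0) :
    HasDerivAt (fun r => act (q r) (c r)) (act D (c 0) + act (q 0) v) 0 := by
  have h1 := (actL (n := n)).hasFDerivAt_of_bilinear hq.hasFDerivAt hc.hasFDerivAt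
  have h2 := h1.hasDerivAt
  have h3 : ((((ContinuousLinearMap.precompR ℝ (actL (n := n))) (q 0))
      (ContinuousLinearMap.toSpanSingleton ℝ v) +
        ((ContinuousLinearMap.precompL ℝ (actL (n := n)))
          (ContinuousLinearMap.toSpanSingleton ℝ D)) (c 0)) 1)
      = act D (c 0) + act (q 0) v := by
    simp [actL_apply, add_comm]
  rw [h3] at h2
  exact h2

lemma contDiffOn_act {f : (Fin (n + 1) → ℂ) → (Fin (n + 1) → Fin (n + 1) → ℂ)}
    {g : (Fin (n + 1) → ℂ) → (Fin (n + 1) → ℂ)} {s : Set (Fin (n + 1) → ℂ)}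
    (hf : ContDiffOn ℝ ∞ f s) (hg : ContDiffOn ℝ ∞ g s) :
    ContDiffOn ℝ ∞ (fun z => act (f z) (g z)) s := by
  have h1 : ContDiffOn ℝ ∞ (fun z => actL (n := n) (f z)) s := (actL (n := n)).contDiff.comp_contDiffOn hf
  exact h1.clm_apply hg

end Pool.Agent.P28b04d
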