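import Pool.Agent.Lib.P28b04d.Crit

set_option autoImplicit false

/-!
# Maps which are close to affine maps on every sphere

If on the sphere of radius `s` around `x` the map `f` is within `(3 π / 16) s σ` of an affine map
whose linear part expands all vectors by at least `σ`, then the mean of `df` over the ball is
injective.
-/

open MeasureTheory Metric Real Filter Topology

namespace Pool.Agent.Lib.P28b04d

/-- Difference of two averages, by a bound on the symmetric difference of the balls. -/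
theorem MM_pert {g : E4 → E4} (hg : Continuous g) {W : ℝ} (hW : 0 ≤ W) {s : ℝ} (hs : 0 < s)
    (x y : E4) (hb : ∀ u, (u ∈ ball x s \ ball y s ∨ u ∈ ball y s \ ball x s) → ‖g u‖ ≤ W) :
    ‖MM g s x - MM g s y‖ ≤ (16 / 3) * W / (π * s) * ‖x - y‖ := by
  have hs0 : s ≠ 0 := hs.ne'
  have hwc : Continuous fun u : E4 => g (s • u) := hg.comp (continuous_const_smul s)
  rw [MM_eq_ball g hs0, MM_eq_ball g hs0, ← smul_sub, norm_smul, integral_ball_sub hwc]
  have hd : dist (s⁻¹ • x) (s⁻¹ • y) = s⁻¹ * ‖x - y‖ := by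
    rw [dist_eq_norm, ← smul_sub, norm_smul, Real.norm_of_nonneg (by positivity)]
  have hmem : ∀ z u : E4, u ∈ ball (s⁻¹ • z) 1 ↔ s • u ∈ ball z s := mem_ball_smul hs
  have hint : ∀ z z' : E4, (∀ u ∈ ball z s \ ball z' s, ‖g u‖ ≤ W) →
      ‖∫ u in ball (s⁻¹ • z) 1 \ ball (s⁻¹ • z') 1, g (s • u)‖ ≤
        W * (dist (s⁻¹ • z) (s⁻¹ • z') * (π * 4 / 3)) := by
    intro z z' hz
    have hfin : volume (ball (s⁻¹ • z) 1 \ ball (s⁻¹ • z') 1) < ⊤ :=
      lt_of_le_of_lt (measure_mono Set.sdiff_subset) measure_ball_lt_top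
    calc ‖∫ u in ball (s⁻¹ • z) 1 \ ball (s⁻¹ • z') 1, g (s • u)‖ ≤
          W * volume.real (ball (s⁻¹ • z) 1 \ ball (s⁻¹ • z') 1) := by
          apply norm_setIntegral_le_of_norm_le_const hfin
          intro u hu
          exact hz _ ⟨(hmem z u).1 hu.1, fun h => hu.2 ((hmem z' u).2 h)⟩
      _ ≤ _ := mul_le_mul_of_nonneg_left (real_vol_diff1 _ _) hW
  have h1 := hint x y fun u hu => hb u (Or.inl hu)
  have h2 := hint y x fun u hu => hb u (Or.inr hu)
  rw [dist_comm (s⁻¹ • y)] at h2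
  rw [hd] at h1 h2
  rw [Real.norm_of_nonneg (by positivity)]
  calc (π ^ 2 / 2)⁻¹ * ‖(∫ u in ball (s⁻¹ • x) 1 \ ball (s⁻¹ • y) 1, g (s • u)) -
        ∫ u in ball (s⁻¹ • y) 1 \ ball (s⁻¹ • x) 1, g (s • u)‖
      ≤ (π ^ 2 / 2)⁻¹ * (W * (s⁻¹ * ‖x - y‖ * (π * 4 / 3)) +
          W * (s⁻¹ * ‖x - y‖ * (π * 4 / 3))) := by
        apply mul_le_mul_of_nonneg_left _ (by positivity)
        exact (norm_sub_le _ _).trans (add_le_add h1 h2)
    _ = _ := by
        field_simp
        ring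

/-- the average of an affine map -/
theorem MM_affine (A : E4 →L[ℝ] E4) (c : E4) (s : ℝ) (x : E4) :
    MM (fun u => A u + c) s x = A x + c := by
  have h0 : ∫ h in ball (0 : E4) 1, h = 0 := by
    have := integral_ball_id 0 0 1
    simpa using this
  unfold MM
  have e : (fun h : E4 => A (x + s • h) + c) = fun h => (A x + c) + s • A h := by
    funext h
    rw [map_add, map_smul]
    abel
  rw [e]
  have hid : IntegrableOn (fun h : E4 => h) (ball (0 : E4) 1) :=
    (continuous_id.continuousOn.integrableOn_compact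
      (isCompact_closedBall (0 : E4) 1)).mono_set ball_subset_closedBall
  have hi1 : IntegrableOn (fun _ : E4 => A x + c) (ball (0 : E4) 1) :=
    integrableOn_const (by exact measure_ball_lt_top.ne)
  have hi2 : IntegrableOn (fun h : E4 => s • A h) (ball (0 : E4) 1) :=
    ((A.continuous.const_smul s).continuousOn.integrableOn_compact
      (isCompact_closedBall (0 : E4) 1)).mono_set ball_subset_closedBall
  rw [integral_add hi1 hi2, integral_smul, A.integral_comp_comm hid, h0, map_zero, smul_zero,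
    add_zero, setIntegral_const, real_vol_ball1, smul_smul, inv_mul_cancel₀ (by positivity),
    one_smul]

theorem MM_sub {f g : E4 → E4} (hf : Continuous f) (hg : Continuous g) (s : ℝ) (x : E4) :
    MM (fun u => f u - g u) s x = MM f s x - MM g s x := by
  unfold MM
  rw [← smul_sub, ← integral_sub]
  · exact ((hf.comp (by fun_prop : Continuous fun h : E4 => x + s • h)).continuousOn.integrableOn_compact
      (isCompact_closedBall _ 1)).mono_set ball_subset_closedBall
  · exact ((hg.comp (by fun_prop : Continuous fun h : E4 => x + s • h)).continuousOn.integrableOn_compact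
      (isCompact_closedBall _ 1)).mono_set ball_subset_closedBall

/-- one point version of `fderiv_lower` -/
lemma fderiv_lower_at {φ : E4 → E4} (hφ : ContDiff ℝ (⊤ : ℕ∞) φ) {c r : ℝ} (hr : 0 < r) (x : E4)
    (hloc : ∀ y, dist y x ≤ r → c * ‖y - x‖ ≤ ‖φ y - φ x‖) (v : E4) :
    c * ‖v‖ ≤ ‖fderiv ℝ φ x v‖ := by
  have hd : HasFDerivAt φ (fderiv ℝ φ x) x :=
    (hφ.differentiable (by simp)).differentiableAt.hasFDerivAt
  have ht : Tendsto (fun n : ℕ => ‖(n : ℝ)‖) atTop atTop := by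
    simpa using tendsto_natCast_atTop_atTop (R := ℝ)
  have hlim := (hd.lim v ht).norm
  refine ge_of_tendsto hlim ?_
  have hsmall : ∀ᶠ n : ℕ in atTop, ‖v‖ / r ≤ n :=
    (tendsto_natCast_atTop_atTop (R := ℝ)).eventually_ge_atTop _
  filter_upwards [hsmall, eventually_gt_atTop 0] with n hn hn0
  have hn0' : (0:ℝ) < n := by exact_mod_cast hn0
  have hdist : dist (x + (n:ℝ)⁻¹ • v) x ≤ r := by
    rw [dist_eq_norm, add_sub_cancel_left, norm_smul, norm_inv, Real.norm_of_nonneg hn0'.le,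
      inv_mul_le_iff₀ hn0']
    rwa [div_le_iff₀ hr] at hn
  have h := hloc _ hdist
  rw [add_sub_cancel_left, norm_smul, norm_inv, Real.norm_of_nonneg hn0'.le] at h
  rw [norm_smul, Real.norm_of_nonneg hn0'.le]
  calc c * ‖v‖ = n * (c * ((n:ℝ)⁻¹ * ‖v‖)) := by field_simp
    _ ≤ _ := mul_le_mul_of_nonneg_left h hn0'.le

/-- `f` is close to an affine map on the sphere of radius `s` around `x`. -/
def AffineOn (f : E4 → E4) (x : E4) (s : ℝ) : Prop :=
  ∃ (A : E4 →L[ℝ] E4) (c : E4) (σ : ℝ), 0 < σ ∧ (∀ v, σ * ‖v‖ ≤ ‖A v‖) ∧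
    ∀ u, ‖u - x‖ = s → ‖f u - (A u + c)‖ < 3 * π / 16 * (s * σ)

/-- `f` has distortion at most `√2` in a thin shell around the sphere of radius `s` around `x`. -/
def ConformalOn (f : E4 → E4) (x : E4) (s : ℝ) : Prop :=
  ∃ a b ε : ℝ, 0 < a ∧ b ^ 2 ≤ 2 * a ^ 2 ∧ 0 < ε ∧
    ∀ u v, |‖u - x‖ - s| < ε → |‖v - x‖ - s| < ε →
      a * ‖u - v‖ ≤ ‖f u - f v‖ ∧ ‖f u - f v‖ ≤ b * ‖u - v‖

lemma near_abs {x y u : E4} {s ε : ℝ} (hxy : dist y x < ε)
    (hu : u ∈ ball y s \ ball x s ∨ u ∈ ball x s \ ball y s) : |‖u - x‖ - s| < ε := by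
  rw [abs_lt]
  rw [dist_eq_norm] at hxy
  rcases hu with ⟨h1, h2⟩ | ⟨h1, h2⟩
  · rw [mem_ball, dist_eq_norm] at h1 h2
    push Not at h2
    have h3 : ‖u - x‖ ≤ ‖u - y‖ + ‖y - x‖ := norm_sub_le_norm_sub_add_norm_sub _ _ _
    constructor <;> linarith [norm_nonneg (y - x)]
  · rw [mem_ball, dist_eq_norm] at h1 h2
    push Not at h2
    have h3 : ‖u - y‖ ≤ ‖u - x‖ + ‖x - y‖ := norm_sub_le_norm_sub_add_norm_sub _ _ _
    rw [norm_sub_rev x y] at h3
    constructor <;> linarith [norm_nonneg (y - x)]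

/-- points of the symmetric difference of two balls are close to the sphere -/
lemma near_sphere {x y u : E4} {s ε : ℝ} (hs : 0 < s) (hxy : dist y x < ε) (hε : ε ≤ s)
    (hu : u ∈ ball y s \ ball x s ∨ u ∈ ball x s \ ball y s) : u ∈ thickening ε (sphere x s) := by
  have h1 := near_abs hxy hu
  have h2 : 0 < ‖u - x‖ := by
    have := (abs_lt.1 h1).1
    linarith
  rw [mem_thickening_iff]
  refine ⟨x + (s / ‖u - x‖) • (u - x), ?_, ?_⟩
  · rw [mem_sphere, dist_eq_norm, add_sub_cancel_left, norm_smul, norm_div,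
      Real.norm_of_nonneg hs.le, norm_norm, div_mul_cancel₀ _ h2.ne']
  · have e : u - (x + (s / ‖u - x‖) • (u - x)) = (1 - s / ‖u - x‖) • (u - x) := by
      rw [sub_smul, one_smul]
      abel
    rw [dist_eq_norm, e, norm_smul]
    have e2 : ‖1 - s / ‖u - x‖‖ * ‖u - x‖ = |‖u - x‖ - s| := by
      rw [Real.norm_eq_abs]
      nth_rewrite 2 [← abs_of_pos h2]
      rw [← abs_mul, sub_mul, one_mul, div_mul_cancel₀ _ h2.ne']
    rw [e2]
    exact h1

/-- a local lower bound of the average at one point -/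
theorem inj_of_lower_at {f : E4 → E4} (hf : ContDiff ℝ (⊤ : ℕ∞) f) {x : E4} {s κ r : ℝ}
    (hs : 0 < s) (hκ0 : 0 < κ) (hr : 0 < r)
    (hloc : ∀ y, dist y x ≤ r → κ * ‖y - x‖ ≤ ‖MM f s y - MM f s x‖) (v : E4)
    (hv : ∫ u in ball x s, fderiv ℝ f u v = 0) : v = 0 := by
  have h4 := fderiv_lower_at (MM_smooth hf s) (c := κ) hr x hloc v
  rw [(fderiv_MM_eq_zero_iff hf hs x v).2 hv, norm_zero] at h4
  have h5 : ‖v‖ ≤ 0 := by
    by_contra hcon
    push Not at hcon
    have := mul_pos hκ0 hcon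
    linarith
  exact norm_le_zero_iff.1 h5

theorem ConformalOn.mean {f : E4 → E4} (hf : ContDiff ℝ (⊤ : ℕ∞) f) {x : E4} {s : ℝ} (hs : 0 < s)
    (h : ConformalOn f x s) (v : E4) (hv : ∫ u in ball x s, fderiv ℝ f u v = 0) : v = 0 := by
  obtain ⟨a, b, ε, ha, hab, hε, hL⟩ := h
  have hm : 0 < min (s / 50) (ε / 2) := lt_min (by linarith) (by linarith)
  refine inj_of_lower_at hf hs (κ := a / π ^ 2) (r := min (s / 50) (ε / 2)) (by positivity) hm
    (fun y hy => ?_) v hv
  have hyε : dist y x < ε := by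
    have := hy.trans (min_le_right _ _)
    linarith
  refine MM_lower hf.continuous ha hab hs (hy.trans (min_le_left _ _)) fun u v hu hv => ?_
  exact hL u v (near_abs hyε hu) (near_abs hyε hv)

theorem AffineOn.mean {f : E4 → E4} (hf : ContDiff ℝ (⊤ : ℕ∞) f) {x : E4} {s : ℝ} (hs : 0 < s)
    (h : AffineOn f x s) (v : E4) (hv : ∫ u in ball x s, fderiv ℝ f u v = 0) : v = 0 := by
  obtain ⟨A, c, σ, hσ, hA, hclose⟩ := h
  obtain ⟨g, hg⟩ : ∃ g : E4 → E4, g = fun u => f u - (A u + c) := ⟨_, rfl⟩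
  have hAc : Continuous fun u => A u + c := A.continuous.add continuous_const
  have hgc : Continuous g := by rw [hg]; exact hf.continuous.sub hAc
  obtain ⟨B'', hB'', hB''2⟩ := (isCompact_sphere x s).exists_forall_le' (f := fun u => -‖g u‖)
    hgc.norm.neg.continuousOn (a := -(3 * π / 16 * (s * σ))) (fun u hu => by
      rw [hg]
      exact neg_lt_neg (hclose u (by rw [← dist_eq_norm]; exact hu)))
  obtain ⟨B', hB', hB'2⟩ : ∃ B', B' < 3 * π / 16 * (s * σ) ∧ ∀ u ∈ sphere x s, ‖g u‖ ≤ B' :=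
    ⟨-B'', by linarith, fun u hu => by linarith [hB''2 u hu]⟩
  obtain ⟨B, hBB', hB⟩ : ∃ B, B' < B ∧ B < 3 * π / 16 * (s * σ) := exists_between hB'
  obtain ⟨W, hW0, hWB, hW⟩ : ∃ W, 0 ≤ W ∧ B ≤ W ∧ W < 3 * π / 16 * (s * σ) :=
    ⟨max B 0, le_max_right _ _, le_max_left _ _, max_lt hB (by positivity)⟩
  have hU : IsOpen {u | ‖g u‖ < B} := isOpen_lt hgc.norm continuous_const
  obtain ⟨ε, hε, hεU⟩ := (isCompact_sphere x s).exists_thickening_subset_open hU
    (fun u hu => lt_of_le_of_lt (hB'2 u hu) hBB')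
  obtain ⟨κ, hκ⟩ : ∃ κ, κ = σ - (16 / 3) * W / (π * s) := ⟨_, rfl⟩
  have hκ0 : 0 < κ := by
    rw [hκ, sub_pos, div_lt_iff₀ (by positivity)]
    have h3 : (16 / 3) * W < (16 / 3) * (3 * π / 16 * (s * σ)) :=
      mul_lt_mul_of_pos_left hW (by norm_num)
    calc (16 / 3) * W < (16 / 3) * (3 * π / 16 * (s * σ)) := h3
      _ = σ * (π * s) := by ring
  have hloc : ∀ y, dist y x ≤ min ε s / 2 → κ * ‖y - x‖ ≤ ‖MM f s y - MM f s x‖ := by
    intro y hy
    have hm : 0 < min ε s := lt_min hε hs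
    have hyε : dist y x < min ε s := lt_of_le_of_lt hy (by linarith)
    have h1 : ‖MM g s y - MM g s x‖ ≤ (16 / 3) * W / (π * s) * ‖y - x‖ := by
      refine MM_pert hgc hW0 hs y x fun u hu => ?_
      have h2 := near_sphere hs hyε (min_le_right _ _) hu
      have h3 : u ∈ thickening ε (sphere x s) := thickening_mono (min_le_left _ _) _ h2
      exact (hεU h3).le.trans hWB
    have e : ∀ z, MM g s z = MM f s z - (A z + c) := by
      intro z
      rw [hg, MM_sub hf.continuous hAc, MM_affine]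
    have e2 : MM g s y - MM g s x = (MM f s y - MM f s x) - A (y - x) := by
      rw [e, e, map_sub]
      abel
    rw [e2] at h1
    have h2 := hA (y - x)
    have h3 : ‖A (y - x)‖ ≤ ‖MM f s y - MM f s x‖ + ‖(MM f s y - MM f s x) - A (y - x)‖ := by
      calc ‖A (y - x)‖ = ‖(MM f s y - MM f s x) - ((MM f s y - MM f s x) - A (y - x))‖ := by
            congr 1; abel
        _ ≤ _ := norm_sub_le _ _
    rw [hκ, sub_mul]
    linarith
  exact inj_of_lower_at hf hs hκ0 (half_pos (lt_min hε hs)) hloc v hv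

/-- **Sufficient condition, sphere by sphere.** -/
theorem mean_of_spheres {f : E4 → E4} (hf : ContDiff ℝ (⊤ : ℕ∞) f)
    (h : ∀ (x : E4) (s : ℝ), 0 < s → ConformalOn f x s ∨ AffineOn f x s) : MeanInjective f := by
  intro x s hs v hv
  rcases h x s hs with h1 | h1
  · exact h1.mean hf hs v hv
  · exact h1.mean hf hs v hv

end Pool.Agent.Lib.P28b04d
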