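import Pool.Agent.Lib.P28b04d.Key

/-!
# Averages over balls
-/

open MeasureTheory Metric Real
open scoped ENNReal Convolution

namespace Pool.Agent.Lib.P28b04d

lemma aux_conv {P : Type*} {F : P × E4 → E4} (χ : ContDiffBump (0 : E4)) (f : E4 → ℝ)
    (g : P → E4 → E4) (hf : f = (ball (0 : E4) 1).indicator fun _ => 1)
    (hg : g = fun p u => χ u • F (p, -u)) (hχ : χ.rIn = 1) (p : P) :
    (f ⋆[ContinuousLinearMap.lsmul ℝ ℝ, volume] g p) 0 = ∫ h in ball (0 : E4) 1, F (p, h) := by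
  rw [convolution_def, ← integral_indicator measurableSet_ball]
  congr 1
  funext h
  rw [hf, hg]
  simp only [ContinuousLinearMap.lsmul_apply]
  by_cases hh : h ∈ ball (0 : E4) 1
  · rw [Set.indicator_of_mem hh, Set.indicator_of_mem hh, one_smul, zero_sub, neg_neg]
    have : χ (-h) = 1 := by
      apply χ.one_of_mem_closedBall
      rw [mem_closedBall, dist_zero_right, norm_neg, hχ]
      rw [mem_ball, dist_zero_right] at hh
      exact hh.le
    rw [this, one_smul]
  · rw [Set.indicator_of_notMem hh, Set.indicator_of_notMem hh, zero_smul]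

/-- Smooth dependence on parameters of the integral over the unit ball. -/
theorem contDiff_ball_integral {P : Type*} [NormedAddCommGroup P] [NormedSpace ℝ P]
    {F : P × E4 → E4} (hF : ContDiff ℝ (⊤ : ℕ∞) F) :
    ContDiff ℝ (⊤ : ℕ∞) (fun p : P => ∫ h in ball (0 : E4) 1, F (p, h)) := by
  let χ : ContDiffBump (0 : E4) := ⟨1, 2, one_pos, one_lt_two⟩
  let f : E4 → ℝ := (ball (0 : E4) 1).indicator fun _ => 1
  let g : P → E4 → E4 := fun p u => χ u • F (p, -u)
  have hf : LocallyIntegrable f volume :=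
    ((locallyIntegrable_const (1:ℝ)).indicator measurableSet_ball)
  have hg : ContDiff ℝ (⊤ : ℕ∞) (fun q : P × E4 => g q.1 q.2) := by
    have h1 : ContDiff ℝ (⊤ : ℕ∞) (fun q : P × E4 => χ q.2) := χ.contDiff.comp contDiff_snd
    have h2 : ContDiff ℝ (⊤ : ℕ∞) (fun q : P × E4 => F (q.1, -q.2)) :=
      hF.comp (contDiff_fst.prodMk contDiff_snd.neg)
    exact h1.smul h2
  have hmain := contDiffOn_convolution_right_with_param_comp (μ := (volume : Measure E4))
    (n := (⊤ : ℕ∞)) (ContinuousLinearMap.lsmul ℝ ℝ : ℝ →L[ℝ] E4 →L[ℝ] E4) (s := Set.univ)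
    (v := fun _ : P => (0 : E4)) contDiffOn_const (f := f) (g := g) (k := closedBall 0 2)
    isOpen_univ (isCompact_closedBall 0 2) (fun p x _ hx => by
      have : χ x = 0 := by
        apply χ.zero_of_le_dist
        rw [mem_closedBall, not_le] at hx
        exact hx.le
      simp only [g]
      rw [this, zero_smul]) hf (by
      rw [Set.univ_prod_univ]
      exact hg.contDiffOn)
  rw [contDiffOn_univ] at hmain
  have e : (fun p : P => ∫ h in ball (0 : E4) 1, F (p, h)) =
      fun p => (f ⋆[ContinuousLinearMap.lsmul ℝ ℝ, volume] g p) 0 := by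
    funext p
    symm
    exact aux_conv χ f g rfl rfl rfl p
  rw [e]
  exact hmain

/-- The average of `f` over the ball of radius `|s|` around `x`. -/
noncomputable def MM (f : E4 → E4) (s : ℝ) (x : E4) : E4 :=
  (π ^ 2 / 2)⁻¹ • ∫ h in ball (0 : E4) 1, f (x + s • h)

theorem MM_contDiff {f : E4 → E4} (hf : ContDiff ℝ (⊤ : ℕ∞) f) :
    ContDiff ℝ (⊤ : ℕ∞) (fun p : ℝ × E4 => MM f p.1 p.2) := by
  have h : ContDiff ℝ (⊤ : ℕ∞) (fun p : ℝ × E4 => ∫ h in ball (0 : E4) 1, f (p.2 + p.1 • h)) := by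
    refine contDiff_ball_integral (P := ℝ × E4) (F := fun q => f (q.1.2 + q.1.1 • q.2)) ?_
    apply hf.comp
    exact (contDiff_snd.comp contDiff_fst).add
      ((contDiff_fst.comp contDiff_fst).smul contDiff_snd)
  exact h.const_smul (π ^ 2 / 2)⁻¹

lemma MM_zero (f : E4 → E4) (x : E4) : MM f 0 x = f x := by
  unfold MM
  simp only [zero_smul, add_zero]
  rw [setIntegral_const, real_vol_ball1, smul_smul, inv_mul_cancel₀ (by positivity), one_smul]

lemma MM_id (s : ℝ) (x : E4) : MM (fun u => u) s x = x := by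
  unfold MM
  have hi1 : IntegrableOn (fun _ : E4 => x) (ball (0 : E4) 1) :=
    integrableOn_const (by exact measure_ball_lt_top.ne)
  have hi2 : IntegrableOn (fun h : E4 => s • h) (ball (0 : E4) 1) :=
    ((continuous_const_smul s).continuousOn.integrableOn_compact
      (isCompact_closedBall (0 : E4) 1)).mono_set ball_subset_closedBall
  have h0 : ∫ h in ball (0 : E4) 1, h = 0 := by
    have := integral_ball_id 0 0 1
    simpa using this
  rw [integral_add hi1 hi2, integral_smul, h0, smul_zero, add_zero, setIntegral_const,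
    real_vol_ball1, smul_smul, inv_mul_cancel₀ (by positivity), one_smul]

lemma MM_far {f : E4 → E4} {R : ℝ} (hR : ∀ x, R ≤ ‖x‖ → f x = x) {s : ℝ} {x : E4}
    (hx : R + |s| ≤ ‖x‖) : MM f s x = x := by
  have hid := MM_id s x
  rw [← hid]
  conv_lhs => rw [hid]
  unfold MM
  congr 1
  · apply setIntegral_congr_fun measurableSet_ball
    intro h hh
    rw [mem_ball, dist_zero_right] at hh
    show f (x + s • h) = x + s • h
    apply hR
    have h1 : ‖x‖ ≤ ‖x + s • h‖ + ‖s • h‖ := by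
      calc ‖x‖ = ‖(x + s • h) - s • h‖ := by congr 1; abel
        _ ≤ _ := norm_sub_le _ _
    have h2 : ‖s • h‖ ≤ |s| := by
      rw [norm_smul, Real.norm_eq_abs]
      calc |s| * ‖h‖ ≤ |s| * 1 := mul_le_mul_of_nonneg_left hh.le (abs_nonneg _)
        _ = |s| := mul_one _
    linarith

/-- The rescaled form of the average. -/
lemma MM_eq_ball (f : E4 → E4) {s : ℝ} (hs : s ≠ 0) (x : E4) :
    MM f s x = (π ^ 2 / 2)⁻¹ • ∫ u in ball (s⁻¹ • x) 1, f (s • u) := by
  unfold MM
  congr 1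
  have h := (measurePreserving_add_right (volume : Measure E4) (s⁻¹ • x)).setIntegral_preimage_emb
      (MeasurableEquiv.addRight (s⁻¹ • x)).measurableEmbedding (fun u : E4 => f (s • u))
      (ball (s⁻¹ • x) 1)
  have hpre : ((fun u => u + s⁻¹ • x) ⁻¹' ball (s⁻¹ • x) 1) = ball (0 : E4) 1 := by
    ext u; simp [dist_eq_norm]
  rw [hpre] at h
  rw [← h]
  apply setIntegral_congr_fun measurableSet_ball
  intro u _
  show f (x + s • u) = f (s • (u + s⁻¹ • x))
  rw [smul_add, smul_smul, mul_inv_cancel₀ hs, one_smul, add_comm]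

lemma mem_ball_smul {s : ℝ} (hs : 0 < s) (z u : E4) :
    u ∈ ball (s⁻¹ • z) 1 ↔ s • u ∈ ball z s := by
  have h1 : s • u - z = s • (u - s⁻¹ • z) := by
    rw [smul_sub, smul_smul, mul_inv_cancel₀ hs.ne', one_smul]
  rw [mem_ball, mem_ball, dist_eq_norm, dist_eq_norm, h1, norm_smul,
    Real.norm_of_nonneg hs.le]
  constructor
  · intro h
    calc s * ‖u - s⁻¹ • z‖ < s * 1 := mul_lt_mul_of_pos_left h hs
      _ = s := mul_one s
  · intro h
    by_contra hc
    push Not at hc
    have := mul_le_mul_of_nonneg_left hc hs.le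
    linarith

/-- **Local lower bound for the averages.** -/
theorem MM_lower {f : E4 → E4} (hf : Continuous f) {a b : ℝ} (ha : 0 < a)
    (hab : b ^ 2 ≤ 2 * a ^ 2) {s : ℝ} (hs : 0 < s) {x y : E4} (hxy : dist x y ≤ s / 50)
    (h : ∀ u v, u ∈ (ball x s \ ball y s) ∪ (ball y s \ ball x s) →
      v ∈ (ball x s \ ball y s) ∪ (ball y s \ ball x s) →
      a * ‖u - v‖ ≤ ‖f u - f v‖ ∧ ‖f u - f v‖ ≤ b * ‖u - v‖) :
    a / π ^ 2 * ‖x - y‖ ≤ ‖MM f s x - MM f s y‖ := by
  have hs0 : s ≠ 0 := hs.ne'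
  rw [MM_eq_ball f hs0, MM_eq_ball f hs0, ← smul_sub, norm_smul]
  have e : ∀ u v : E4, ‖s • u - s • v‖ = s * ‖u - v‖ := by
    intro u v
    rw [← smul_sub, norm_smul, Real.norm_of_nonneg hs.le]
  have hd : ‖s⁻¹ • x - s⁻¹ • y‖ = s⁻¹ * ‖x - y‖ := by
    rw [← smul_sub, norm_smul, Real.norm_of_nonneg (by positivity)]
  have hm : ∀ u : E4, u ∈ (ball (s⁻¹ • x) 1 \ ball (s⁻¹ • y) 1) ∪
      (ball (s⁻¹ • y) 1 \ ball (s⁻¹ • x) 1) →
      s • u ∈ (ball x s \ ball y s) ∪ (ball y s \ ball x s) := by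
    intro u hu
    rcases hu with ⟨h1, h2⟩ | ⟨h1, h2⟩
    · exact Or.inl ⟨(mem_ball_smul hs x u).1 h1, fun h3 => h2 ((mem_ball_smul hs y u).2 h3)⟩
    · exact Or.inr ⟨(mem_ball_smul hs y u).1 h1, fun h3 => h2 ((mem_ball_smul hs x u).2 h3)⟩
  have hkey := ball_estimate (φ := fun u => f (s • u)) (hf.comp (continuous_const_smul s))
    (α := a * s) (β := b * s) (by positivity)
    (by
      have : (b * s) ^ 2 = b ^ 2 * s ^ 2 := by ring
      rw [this, mul_pow]
      nlinarith [sq_nonneg s])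
    (x := s⁻¹ • x) (y := s⁻¹ • y) (by
      rw [dist_eq_norm, hd, ← dist_eq_norm, inv_mul_le_iff₀ hs]
      linarith)
    (fun u v hu hv => by
      obtain ⟨k1, k2⟩ := h (s • u) (s • v) (hm u hu) (hm v hv)
      rw [e] at k1 k2
      constructor
      · calc a * s * ‖u - v‖ = a * (s * ‖u - v‖) := by ring
          _ ≤ _ := k1
      · calc ‖f (s • u) - f (s • v)‖ ≤ b * (s * ‖u - v‖) := k2
          _ = _ := by ring)
  rw [hd] at hkey
  have hp : (0:ℝ) < π ^ 2 := by positivity
  rw [Real.norm_of_nonneg (by positivity)]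
  calc a / π ^ 2 * ‖x - y‖ = (π ^ 2 / 2)⁻¹ * (a * s / 2 * (s⁻¹ * ‖x - y‖)) := by
        field_simp
    _ ≤ _ := mul_le_mul_of_nonneg_left hkey (by positivity)

/-- **Large scales**: the average is a small perturbation of the identity. -/
theorem MM_large {f : E4 → E4} (hf : Continuous f) {W : ℝ} (hW : 0 ≤ W)
    (hb : ∀ x, ‖f x - x‖ ≤ W) {s : ℝ} (hs : 0 < s) (x y : E4) :
    ‖(MM f s x - x) - (MM f s y - y)‖ ≤ (16 / 3) * W / (π * s) * ‖x - y‖ := by
  have hs0 : s ≠ 0 := hs.ne'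
  -- the displacement
  set w : E4 → E4 := fun u => f (s • u) - s • u with hw
  have hwc : Continuous w := (hf.comp (continuous_const_smul s)).sub (continuous_const_smul s)
  have hMw : ∀ z, MM f s z - z = (π ^ 2 / 2)⁻¹ • ∫ u in ball (s⁻¹ • z) 1, w u := by
    intro z
    have h1 := MM_eq_ball f hs0 z
    have h2 := MM_eq_ball (fun u => u) hs0 z
    rw [MM_id] at h2
    nth_rewrite 2 [h2]
    rw [h1, ← smul_sub]
    congr 1
    rw [← integral_sub]
    · exact ((hf.comp (continuous_const_smul s)).continuousOn.integrableOn_compact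
        (isCompact_closedBall _ 1)).mono_set ball_subset_closedBall
    · exact ((continuous_const_smul s).continuousOn.integrableOn_compact
        (isCompact_closedBall _ 1)).mono_set ball_subset_closedBall
  rw [hMw, hMw, ← smul_sub, norm_smul, integral_ball_sub hwc]
  have hd : dist (s⁻¹ • x) (s⁻¹ • y) = s⁻¹ * ‖x - y‖ := by
    rw [dist_eq_norm, ← smul_sub, norm_smul, Real.norm_of_nonneg (by positivity)]
  have hint : ∀ z z' : E4, ‖∫ u in ball z 1 \ ball z' 1, w u‖ ≤ W * (dist z z' * (π * 4 / 3)) := by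
    intro z z'
    have hfin : volume (ball z 1 \ ball z' 1) < ∞ :=
      lt_of_le_of_lt (measure_mono Set.sdiff_subset) measure_ball_lt_top
    calc ‖∫ u in ball z 1 \ ball z' 1, w u‖ ≤ W * volume.real (ball z 1 \ ball z' 1) := by
          apply norm_setIntegral_le_of_norm_le_const hfin
          intro u _
          exact hb _
      _ ≤ _ := mul_le_mul_of_nonneg_left (real_vol_diff1 z z') hW
  have h1 := hint (s⁻¹ • x) (s⁻¹ • y)
  have h2 := hint (s⁻¹ • y) (s⁻¹ • x)
  rw [dist_comm (s⁻¹ • y)] at h2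
  rw [hd] at h1 h2
  rw [Real.norm_of_nonneg (by positivity)]
  calc (π ^ 2 / 2)⁻¹ * ‖(∫ u in ball (s⁻¹ • x) 1 \ ball (s⁻¹ • y) 1, w u) -
        ∫ u in ball (s⁻¹ • y) 1 \ ball (s⁻¹ • x) 1, w u‖
      ≤ (π ^ 2 / 2)⁻¹ * (W * (s⁻¹ * ‖x - y‖ * (π * 4 / 3)) +
          W * (s⁻¹ * ‖x - y‖ * (π * 4 / 3))) := by
        apply mul_le_mul_of_nonneg_left _ (by positivity)
        exact (norm_sub_le _ _).trans (add_le_add h1 h2)
    _ = _ := by
        field_simp
        ring

end Pool.Agent.Lib.P28b04d
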