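import Mathlib

/-!
# The volume of the difference of two balls of the same radius in dimension four
-/

open MeasureTheory Metric Real
open scoped ENNReal

namespace Pool.Agent.Lib.P28b04d

/-- Euclidean four-space. -/
abbrev E4 : Type := EuclideanSpace ℝ (Fin 4)

lemma vol3 {s : ℝ} (hs : 0 ≤ s) : volume {w : Fin 3 → ℝ | ∑ i, w i ^ 2 < s ^ 2} =
    ENNReal.ofReal s ^ 3 * ENNReal.ofReal (π * 4 / 3) := by
  rw [← EuclideanSpace.volume_ball_fin_three (0 : EuclideanSpace ℝ (Fin 3)) s,
    ← (PiLp.volume_preserving_toLp (Fin 3)).measure_preimage measurableSet_ball.nullMeasurableSet,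
    EuclideanSpace.ball_zero_eq s hs]
  rfl

lemma vol_prod_diff {s δ : ℝ} (hδ : 0 ≤ δ) (hs : 0 ≤ s) :
    (volume : Measure (ℝ × (Fin 3 → ℝ)))
      ({p | p.1 ^ 2 + ∑ i, p.2 i ^ 2 < s ^ 2} \ {p | (p.1 - δ) ^ 2 + ∑ i, p.2 i ^ 2 < s ^ 2}) ≤
    ENNReal.ofReal δ * (ENNReal.ofReal s ^ 3 * ENNReal.ofReal (π * 4 / 3)) := by
  set A : Set (ℝ × (Fin 3 → ℝ)) :=
    {p | p.1 ^ 2 + ∑ i, p.2 i ^ 2 < s ^ 2} \ {p | (p.1 - δ) ^ 2 + ∑ i, p.2 i ^ 2 < s ^ 2} with hA
  have hm : MeasurableSet A := by
    have h1 : IsOpen {p : ℝ × (Fin 3 → ℝ) | p.1 ^ 2 + ∑ i, p.2 i ^ 2 < s ^ 2} :=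
      isOpen_lt (by fun_prop) (by fun_prop)
    have h2 : IsOpen {p : ℝ × (Fin 3 → ℝ) | (p.1 - δ) ^ 2 + ∑ i, p.2 i ^ 2 < s ^ 2} :=
      isOpen_lt (by fun_prop) (by fun_prop)
    exact h1.measurableSet.diff h2.measurableSet
  have hm3 : MeasurableSet {w : Fin 3 → ℝ | ∑ i, w i ^ 2 < s ^ 2} := by
    have h1 : IsOpen {w : Fin 3 → ℝ | ∑ i, w i ^ 2 < s ^ 2} :=
      isOpen_lt (by fun_prop) (by fun_prop)
    exact h1.measurableSet
  rw [Measure.volume_eq_prod, Measure.prod_apply_symm hm]
  calc ∫⁻ w : Fin 3 → ℝ, volume ((fun t : ℝ => (t, w)) ⁻¹' A)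
      ≤ ∫⁻ w : Fin 3 → ℝ, ({w : Fin 3 → ℝ | ∑ i, w i ^ 2 < s ^ 2}.indicator
          (fun _ => ENNReal.ofReal δ)) w := by
        apply lintegral_mono
        intro w
        by_cases hw : ∑ i, w i ^ 2 < s ^ 2
        · rw [Set.indicator_of_mem (by exact hw)]
          set ρ := Real.sqrt (s ^ 2 - ∑ i, w i ^ 2) with hρ
          have hρ2 : ρ ^ 2 = s ^ 2 - ∑ i, w i ^ 2 := Real.sq_sqrt (by linarith)
          have hρ0 : 0 ≤ ρ := Real.sqrt_nonneg _
          have hsub : (fun t : ℝ => (t, w)) ⁻¹' A ⊆ Set.Icc (-ρ) (δ - ρ) := by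
            intro t ht
            obtain ⟨h1, h2⟩ := ht
            simp only [Set.mem_ofPred_eq, not_lt] at h1 h2
            have h3 : t ^ 2 < ρ ^ 2 := by linarith
            have h4 : ρ ^ 2 ≤ (t - δ) ^ 2 := by linarith
            have h5 : |t| < ρ := by
              have := abs_lt_of_sq_lt_sq h3 hρ0
              exact this
            have h6 : ρ ≤ |t - δ| := by
              rw [← abs_of_nonneg hρ0]
              exact sq_le_sq.1 h4
            rw [abs_lt] at h5
            rcases le_or_gt 0 (t - δ) with h7 | h7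
            · rw [abs_of_nonneg h7] at h6
              exact absurd h5.2 (by linarith)
            · rw [abs_of_neg h7] at h6
              constructor <;> linarith
          calc volume ((fun t : ℝ => (t, w)) ⁻¹' A) ≤ volume (Set.Icc (-ρ) (δ - ρ)) :=
                measure_mono hsub
            _ = ENNReal.ofReal δ := by rw [Real.volume_Icc]; congr 1; ring
        · rw [Set.indicator_of_notMem (by exact hw)]
          have hsub : (fun t : ℝ => (t, w)) ⁻¹' A ⊆ ∅ := by
            intro t ht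
            obtain ⟨h1, _⟩ := ht
            simp only [Set.mem_ofPred_eq] at h1
            push Not at hw
            nlinarith [sq_nonneg t]
          calc volume ((fun t : ℝ => (t, w)) ⁻¹' A) ≤ volume (∅ : Set ℝ) := measure_mono hsub
            _ = 0 := measure_empty
    _ = ENNReal.ofReal δ * (ENNReal.ofReal s ^ 3 * ENNReal.ofReal (π * 4 / 3)) := by
        rw [lintegral_indicator hm3, setLIntegral_const, vol3 hs]

lemma vol_diff_single {s δ : ℝ} (hδ : 0 ≤ δ) (hs : 0 ≤ s) :
    volume (ball (0 : E4) s \ ball (EuclideanSpace.single 0 δ : E4) s) ≤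
      ENNReal.ofReal δ * (ENNReal.ofReal s ^ 3 * ENNReal.ofReal (π * 4 / 3)) := by
  rw [← (PiLp.volume_preserving_toLp (Fin 4)).measure_preimage
    (measurableSet_ball.diff measurableSet_ball).nullMeasurableSet]
  have h1 := (volume_preserving_piFinSuccAbove (fun _ : Fin 4 => ℝ) 0).symm.measure_preimage_equiv
    ((@WithLp.toLp 2 (Fin 4 → ℝ)) ⁻¹' (ball (0 : E4) s \ ball (EuclideanSpace.single 0 δ : E4) s))
  rw [← h1]
  refine le_trans (measure_mono ?_) (vol_prod_diff hδ hs)
  rintro ⟨t, w⟩ ⟨h2, h3⟩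
  have key : ∀ c : ℝ, dist (WithLp.toLp 2
      ((MeasurableEquiv.piFinSuccAbove (fun _ : Fin 4 => ℝ) 0).symm (t, w)) : E4)
      (EuclideanSpace.single 0 c : E4) < s ↔ (t - c) ^ 2 + ∑ i, w i ^ 2 < s ^ 2 := by
    intro c
    rw [← sq_lt_sq₀ dist_nonneg hs, EuclideanSpace.dist_eq, Real.sq_sqrt
      (Finset.sum_nonneg fun i _ => sq_nonneg _), Fin.sum_univ_succ]
    have e0 : ((WithLp.toLp 2 ((MeasurableEquiv.piFinSuccAbove (fun _ : Fin 4 => ℝ) 0).symm (t, w)) :
        E4)) 0 = t := rfl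
    rw [e0]
    simp only [Real.dist_eq, sq_abs]
    have e2 : ∀ i : Fin 3, (EuclideanSpace.single (0 : Fin 4) c : E4) i.succ = 0 := by
      intro i
      simp
    have e3 : (EuclideanSpace.single (0 : Fin 4) c : E4) 0 = c := by simp
    simp only [e2, e3, sub_zero]
    exact Iff.rfl
  constructor
  · have h4 := (key 0).1 (by
      have : (EuclideanSpace.single 0 (0:ℝ) : E4) = 0 := by ext i; simp
      rw [this]
      exact h2)
    simpa using h4
  · intro h5
    exact h3 ((key δ).2 h5)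

theorem vol_diff {s : ℝ} (hs : 0 ≤ s) (x y : E4) :
    volume (ball x s \ ball y s) ≤
      ENNReal.ofReal (dist x y) * (ENNReal.ofReal s ^ 3 * ENNReal.ofReal (π * 4 / 3)) := by
  have h1 : volume (ball x s \ ball y s) = volume (ball (0 : E4) s \ ball (y - x) s) := by
    rw [← measure_preimage_add_right volume x (ball x s \ ball y s)]
    congr 1
    ext u
    simp only [Set.mem_preimage, Set.mem_sdiff, mem_ball, dist_eq_norm]
    rw [show u + x - x = u - 0 by abel, show u + x - y = u - (y - x) by abel]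
  have hn : ‖y - x‖ = ‖(EuclideanSpace.single 0 (dist x y) : E4)‖ := by
    rw [PiLp.norm_single, Real.norm_of_nonneg dist_nonneg, dist_comm, dist_eq_norm]
  set R := (ℝ ∙ ((y - x) - (EuclideanSpace.single 0 (dist x y) : E4)))ᗮ.reflection with hR
  have hRv : R (y - x) = (EuclideanSpace.single 0 (dist x y) : E4) :=
    Submodule.reflection_sub hn
  have h2 : volume (ball (0 : E4) s \ ball (y - x) s) =
      volume (ball (0 : E4) s \ ball (EuclideanSpace.single 0 (dist x y) : E4) s) := by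
    rw [← R.measurePreserving.measure_preimage (s := ball (0 : E4) s \
      ball (EuclideanSpace.single 0 (dist x y) : E4) s)
      (measurableSet_ball.diff measurableSet_ball).nullMeasurableSet]
    congr 1
    ext u
    simp only [Set.mem_preimage, Set.mem_sdiff, mem_ball]
    have e1 : dist (R u) 0 = dist u 0 := by
      conv_lhs => rw [← R.map_zero]
      exact R.dist_map _ _
    rw [← hRv, R.dist_map, e1]
  rw [h1, h2]
  exact vol_diff_single dist_nonneg hs

theorem vol_ball4 (x : E4) {s : ℝ} :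
    volume (ball x s) = ENNReal.ofReal s ^ 4 * ENNReal.ofReal (π ^ 2 / 2) := by
  have := InnerProductSpace.volume_ball_of_dim_even (E := E4) (k := 2) (by simp) x s
  rw [this]
  simp [Nat.factorial]

end Pool.Agent.Lib.P28b04d
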