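import Pool.Agent.Lib.P28b04d.Inj

set_option autoImplicit false

namespace Pool.Agent.P28b04d

open scoped ContDiff
open Set Filter Topology

variable {n : ℕ}

/-- two maps joined by a smooth family, constant near the ends -/
def Conn (Φ Ψ : (Fin (n + 1) → ℂ) → (Fin (n + 1) → ℂ)) : Prop :=
  ∃ Λ : ℝ × (Fin (n + 1) → ℂ) → (Fin (n + 1) → ℂ), Fam Λ ∧
    (∀ t : ℝ, t ≤ 0 → ∀ z, Λ (t, z) = Φ z) ∧ (∀ t : ℝ, 1 ≤ t → ∀ z, Λ (t, z) = Ψ z)

lemma Lift.contDiffAt {Φ : (Fin (n + 1) → ℂ) → (Fin (n + 1) → ℂ)} (h : Lift Φ)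
    {z : Fin (n + 1) → ℂ} (hz : z ≠ 0) : ContDiffAt ℝ ∞ Φ z :=
  h.smooth.contDiffAt (isOpen_compl_singleton.mem_nhds hz)

lemma Step.conn {Φ Ψ : (Fin (n + 1) → ℂ) → (Fin (n + 1) → ℂ)} (h : Step Φ Ψ) : Conn Φ Ψ := by
  obtain ⟨h1, h2, h3⟩ := h
  refine ⟨fun q => (1 - Real.smoothTransition q.1) • Φ q.2 + Real.smoothTransition q.1 • Ψ q.2,
    ⟨?_, ?_, ?_⟩, ?_, ?_⟩
  · rintro ⟨t, z⟩ ⟨-, hz⟩
    apply ContDiffAt.contDiffWithinAt
    have a1 : ContDiffAt ℝ ∞ (fun q : ℝ × (Fin (n + 1) → ℂ) => Φ q.2) (t, z) :=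
      (h1.contDiffAt hz).comp (t, z) contDiffAt_snd
    have a2 : ContDiffAt ℝ ∞ (fun q : ℝ × (Fin (n + 1) → ℂ) => Ψ q.2) (t, z) :=
      (h2.contDiffAt hz).comp (t, z) contDiffAt_snd
    have a3 : ContDiffAt ℝ ∞ (fun q : ℝ × (Fin (n + 1) → ℂ) => Real.smoothTransition q.1)
        (t, z) := (Real.smoothTransition.contDiff.comp contDiff_fst).contDiffAt
    exact ((contDiffAt_const.sub a3).fun_smul a1).add (a3.fun_smul a2)
  · intro t c z
    simp only [h1.hom, h2.hom, smul_add]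
    rw [smul_comm, smul_comm (Real.smoothTransition t)]
  · intro t z hz v hv
    apply h3 z hz (Real.smoothTransition t) (Real.smoothTransition.nonneg _)
      (Real.smoothTransition.le_one _) v
    have d1 : HasFDerivAt Φ (fderiv ℝ Φ z) z :=
      ((h1.contDiffAt hz).differentiableAt (by simp)).hasFDerivAt
    have d2 : HasFDerivAt Ψ (fderiv ℝ Ψ z) z :=
      ((h2.contDiffAt hz).differentiableAt (by simp)).hasFDerivAt
    have d3 := (d1.const_smul (1 - Real.smoothTransition t)).add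
      (d2.const_smul (Real.smoothTransition t))
    have d4 : HasFDerivAt (fun w => (1 - Real.smoothTransition t) • Φ w
        + Real.smoothTransition t • Ψ w) ((1 - Real.smoothTransition t) • fderiv ℝ Φ z
        + Real.smoothTransition t • fderiv ℝ Ψ z) z := d3
    rw [d4.fderiv] at hv
    simpa using hv
  · intro t ht z
    simp [Real.smoothTransition.zero_of_nonpos ht]
  · intro t ht z
    simp [Real.smoothTransition.one_of_one_le ht]

lemma Conn.refl {Φ : (Fin (n + 1) → ℂ) → (Fin (n + 1) → ℂ)} (h : HLoc Φ) : Conn Φ Φ :=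
  ⟨fun q => Φ q.2, Fam.of_hloc h, fun _ _ _ => rfl, fun _ _ _ => rfl⟩

lemma Conn.trans {Φ Ψ Θ : (Fin (n + 1) → ℂ) → (Fin (n + 1) → ℂ)} (h1 : Conn Φ Ψ)
    (h2 : Conn Ψ Θ) : Conn Φ Θ := by
  obtain ⟨Λ1, f1, s1, e1⟩ := h1
  obtain ⟨Λ2, f2, s2, e2⟩ := h2
  let Λ : ℝ × (Fin (n + 1) → ℂ) → (Fin (n + 1) → ℂ) := fun q =>
    Λ1 (2 * q.1, q.2) + Λ2 (2 * q.1 - 1, q.2) - Λ1 (1, q.2)
  have hlo : ∀ t : ℝ, t ≤ 1 / 2 → ∀ z, Λ (t, z) = Λ1 (2 * t, z) := by
    intro t ht z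
    simp only [Λ]
    rw [s2 _ (by linarith), e1 1 le_rfl]
    simp
  have hhi : ∀ t : ℝ, 1 / 2 ≤ t → ∀ z, Λ (t, z) = Λ2 (2 * t - 1, z) := by
    intro t ht z
    simp only [Λ]
    rw [e1 _ (by linarith), e1 1 le_rfl]
    simp
  refine ⟨Λ, ⟨?_, ?_, ?_⟩, ?_, ?_⟩
  · rintro ⟨t, z⟩ ⟨-, hz⟩
    apply ContDiffAt.contDiffWithinAt
    have a1 : ContDiffAt ℝ ∞ (fun q : ℝ × (Fin (n + 1) → ℂ) => Λ1 (2 * q.1, q.2)) (t, z) := by
      have : ContDiffAt ℝ ∞ (fun q : ℝ × (Fin (n + 1) → ℂ) => (2 * q.1, q.2)) (t, z) := by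
        fun_prop
      exact (f1.contDiffAt (2 * t) hz).comp (t, z) this
    have a2 : ContDiffAt ℝ ∞ (fun q : ℝ × (Fin (n + 1) → ℂ) => Λ2 (2 * q.1 - 1, q.2)) (t, z) := by
      have : ContDiffAt ℝ ∞ (fun q : ℝ × (Fin (n + 1) → ℂ) => (2 * q.1 - 1, q.2)) (t, z) := by
        fun_prop
      exact (f2.contDiffAt (2 * t - 1) hz).comp (t, z) this
    have a3 : ContDiffAt ℝ ∞ (fun q : ℝ × (Fin (n + 1) → ℂ) => Λ1 (1, q.2)) (t, z) := by
      have : ContDiffAt ℝ ∞ (fun q : ℝ × (Fin (n + 1) → ℂ) => ((1 : ℝ), q.2)) (t, z) := by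
        fun_prop
      exact (f1.contDiffAt 1 hz).comp (t, z) this
    exact (a1.add a2).sub a3
  · intro t c z
    simp only [Λ, f1.hom, f2.hom, smul_add, smul_sub]
  · intro t z hz v hv
    rcases le_total t (1 / 2) with ht | ht
    · have : (fun w => Λ (t, w)) = fun w => Λ1 (2 * t, w) := funext fun w => hlo t ht w
      rw [this] at hv
      exact f1.inj _ z hz v hv
    · have : (fun w => Λ (t, w)) = fun w => Λ2 (2 * t - 1, w) := funext fun w => hhi t ht w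
      rw [this] at hv
      exact f2.inj _ z hz v hv
  · intro t ht z
    rw [hlo t (by linarith), s1 _ (by linarith)]
  · intro t ht z
    rw [hhi t (by linarith), e2 _ (by linarith)]

/-- a smooth path in `ℂ` from `0` to `1` avoiding a finite set -/
lemma exists_path (Z : Finset ℂ) (h0 : (0 : ℂ) ∉ Z) (h1 : (1 : ℂ) ∉ Z) :
    ∃ s : ℝ, ∀ t : ℝ, 0 ≤ t → t ≤ 1 →
      ((t : ℂ) + (s * (t * (1 - t)) : ℝ) * Complex.I) ∉ Z := by
  classical
  obtain ⟨s, hs⟩ := Infinite.exists_notMem_finset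
    (Z.image fun c : ℂ => c.im / (c.re * (1 - c.re)))
  refine ⟨s, fun t ht0 ht1 hmem => ?_⟩
  have hre : ((t : ℂ) + (s * (t * (1 - t)) : ℝ) * Complex.I).re = t := by simp
  have him : ((t : ℂ) + (s * (t * (1 - t)) : ℝ) * Complex.I).im = s * (t * (1 - t)) := by
    simp
  by_cases ht : t * (1 - t) = 0
  · rw [ht, mul_zero] at hmem
    rcases mul_eq_zero.1 ht with h | h
    · rw [h] at hmem
      exact h0 (by simpa using hmem)
    · have : t = 1 := by linarith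
      rw [this] at hmem
      exact h1 (by simpa using hmem)
  · apply hs
    rw [Finset.mem_image]
    refine ⟨_, hmem, ?_⟩
    rw [hre, him, mul_div_assoc, div_self ht, mul_one]

lemma conn_linear (A : (Fin (n + 1) → ℂ) ≃ₗ[ℂ] (Fin (n + 1) → ℂ)) :
    Conn (id : (Fin (n + 1) → ℂ) → (Fin (n + 1) → ℂ)) A := by
  classical
  -- the determinant polynomial
  let M : Matrix (Fin (n + 1)) (Fin (n + 1)) ℂ := LinearMap.toMatrix' A.toLinearMap
  have hM : ∀ v, M.mulVec v = A v := fun v => by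
    simp [M]
  let p : Polynomial ℂ := ((1 - Polynomial.X : Polynomial ℂ) • (1 : Matrix (Fin (n + 1)) (Fin (n + 1))
    (Polynomial ℂ)) + (Polynomial.X : Polynomial ℂ) • M.map Polynomial.C).det
  have hp : ∀ c : ℂ, p.eval c = ((1 - c) • (1 : Matrix (Fin (n + 1)) (Fin (n + 1)) ℂ)
      + c • M).det := by
    intro c
    simp only [p]
    rw [← Polynomial.coe_evalRingHom, RingHom.map_det]
    congr 1
    ext i j
    by_cases hij : i = j
    · subst hij
      simp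
      ring
    · simp [hij]
      ring
  have hp0 : p.eval 0 ≠ 0 := by
    rw [hp]; simp
  have hMdet : M.det ≠ 0 := by
    simp only [M]
    rw [LinearMap.det_toMatrix']
    exact (LinearEquiv.isUnit_det' A).ne_zero
  have hp1 : p.eval 1 ≠ 0 := by
    rw [hp]; simpa using hMdet
  have hpne : p ≠ 0 := by
    intro h; rw [h] at hp0; simp at hp0
  obtain ⟨s, hs⟩ := exists_path p.roots.toFinset
    (by simp [Polynomial.IsRoot, hpne, hp0]) (by simp [Polynomial.IsRoot, hpne, hp1])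
  -- the path
  let τ : ℝ → ℝ := Real.smoothTransition
  let c : ℝ → ℂ := fun t => ((τ t : ℂ) + (s * (τ t * (1 - τ t)) : ℝ) * Complex.I)
  have hc : ∀ t, p.eval (c t) ≠ 0 := by
    intro t h0
    apply hs (τ t) (Real.smoothTransition.nonneg _) (Real.smoothTransition.le_one _)
    rw [Multiset.mem_toFinset, Polynomial.mem_roots hpne]
    exact h0
  have hτ : ContDiff ℝ ∞ τ := Real.smoothTransition.contDiff
  have hcs : ContDiff ℝ ∞ c := by
    have h1 : ContDiff ℝ ∞ (fun t => (τ t : ℂ)) := Complex.ofRealCLM.contDiff.comp hτ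
    have h2 : ContDiff ℝ ∞ (fun t => ((s * (τ t * (1 - τ t)) : ℝ) : ℂ)) :=
      Complex.ofRealCLM.contDiff.comp
        (contDiff_const.mul (hτ.mul (contDiff_const.sub hτ)))
    exact h1.add (h2.mul contDiff_const)
  have hA : ContDiff ℝ ∞ (A : (Fin (n + 1) → ℂ) → (Fin (n + 1) → ℂ)) := by
    have : ContDiff ℝ ∞ (fun z => ((A.toLinearMap.restrictScalars ℝ).toContinuousLinearMap) z) :=
      ContinuousLinearMap.contDiff _
    exact this
  have hinjc : ∀ t, ∀ v : Fin (n + 1) → ℂ, (1 - c t) • v + c t • A v = 0 → v = 0 := by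
    intro t v hv
    have hdet : ((1 - c t) • (1 : Matrix (Fin (n + 1)) (Fin (n + 1)) ℂ) + c t • M).det ≠ 0 := by
      rw [← hp]; exact hc t
    by_contra hv0
    apply hdet
    apply Matrix.exists_mulVec_eq_zero_iff.1
    refine ⟨v, hv0, ?_⟩
    rw [Matrix.add_mulVec, Matrix.smul_mulVec, Matrix.smul_mulVec, Matrix.one_mulVec, hM]
    exact hv
  refine ⟨fun q => (1 - c q.1) • q.2 + c q.1 • A q.2, ⟨?_, ?_, ?_⟩, ?_, ?_⟩
  · apply ContDiff.contDiffOn
    have h1 : ContDiff ℝ ∞ (fun q : ℝ × (Fin (n + 1) → ℂ) => c q.1) := hcs.comp contDiff_fst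
    exact ((contDiff_const.sub h1).fun_smul contDiff_snd).add
      (h1.fun_smul (hA.comp contDiff_snd))
  · intro t k z
    simp only [map_smul, smul_add]
    rw [smul_comm, smul_comm (c t)]
  · intro t z hz v hv
    apply hinjc t v
    let B : (Fin (n + 1) → ℂ) →ₗ[ℂ] (Fin (n + 1) → ℂ) :=
      (1 - c t) • LinearMap.id + c t • A.toLinearMap
    have hB : (fun w : Fin (n + 1) → ℂ => (1 - c t) • w + c t • A w)
        = fun w => (B.restrictScalars ℝ).toContinuousLinearMap w := by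
      funext w
      simp [B]
    have hB2 : fderiv ℝ (fun w : Fin (n + 1) → ℂ => (1 - c t) • w + c t • A w) z v
        = (1 - c t) • v + c t • A v := by
      rw [hB]
      rw [ContinuousLinearMap.fderiv]
      simp [B]
    rw [← hB2]
    exact hv
  · intro t ht z
    have : c t = 0 := by
      simp only [c, τ, Real.smoothTransition.zero_of_nonpos ht]
      simp
    simp [this]
  · intro t ht z
    have : c t = 1 := by
      simp only [c, τ, Real.smoothTransition.one_of_one_le ht]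
      simp
    simp [this]

lemma conn_of_chain (A : (Fin (n + 1) → ℂ) ≃ₗ[ℂ] (Fin (n + 1) → ℂ))
    {Φ : (Fin (n + 1) → ℂ) → (Fin (n + 1) → ℂ)}
    (h : Relation.ReflTransGen Step (A : (Fin (n + 1) → ℂ) → (Fin (n + 1) → ℂ)) Φ) :
    Conn (id : (Fin (n + 1) → ℂ) → (Fin (n + 1) → ℂ)) Φ := by
  induction h with
  | refl => exact conn_linear A
  | tail _ hstep ih => exact ih.trans hstep.conn

/-- **Forward direction.** -/
theorem isotopic_of_chain (A : (Fin (n + 1) → ℂ) ≃ₗ[ℂ] (Fin (n + 1) → ℂ))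
    {Φ : (Fin (n + 1) → ℂ) → (Fin (n + 1) → ℂ)}
    (h : Relation.ReflTransGen Step (A : (Fin (n + 1) → ℂ) → (Fin (n + 1) → ℂ)) Φ)
    {F : (Fin (n + 1) → Fin (n + 1) → ℂ) → (Fin (n + 1) → Fin (n + 1) → ℂ)}
    (hF : ∀ z, z ≠ 0 → F (pt z) = pt (Φ z)) : IsotopicToId n F := by
  obtain ⟨Λ, f, s, e⟩ := conn_of_chain A h
  exact f.isotopic (fun z => s 0 le_rfl z) (F := F) fun z hz => by rw [hF z hz, e 1 le_rfl]

end Pool.Agent.P28b04d
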