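import Pool.Agent.Lib.P28b04d.Inj
import Pool.Agent.Lib.P28b04d.Ball

set_option autoImplicit false

/-!
# From compactly supported isotopies of `ℝ⁴` to isotopies of the complex projective plane

`E4` is identified with `ℂ²` and with the affine chart `z₀ ≠ 0`. A family `K : ℝ × E4 → E4` which is the
identity far out gives a homogeneous family `Lam K` of self-maps of `ℂ³`.
-/

namespace Pool.Agent.Lib.P28b04d

open Pool.Agent.P28b04d
open scoped ContDiff
open Set Filter Topology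

/-- First complex coordinate. -/
def c1 (x : E4) : ℂ := ⟨x 0, x 1⟩

/-- Second complex coordinate. -/
def c2 (x : E4) : ℂ := ⟨x 2, x 3⟩

/-- The affine coordinates of the point `[z]`. -/
noncomputable def aff (z : Fin 3 → ℂ) : E4 :=
  !₂[(z 1 / z 0).re, (z 1 / z 0).im, (z 2 / z 0).re, (z 2 / z 0).im]

/-- The homogeneous lift of a family of self-maps of the affine chart. -/
noncomputable def Lam (K : ℝ × E4 → E4) (q : ℝ × (Fin 3 → ℂ)) : Fin 3 → ℂ :=
  if q.2 0 = 0 then q.2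
  else ![q.2 0, q.2 0 * c1 (K (q.1, aff q.2)), q.2 0 * c2 (K (q.1, aff q.2))]

/-- The point of the projective plane with affine coordinates `x`. -/
noncomputable def emb (x : E4) : Fin 3 → Fin 3 → ℂ := pt ![1, c1 x, c2 x]

lemma c1_aff (z : Fin 3 → ℂ) : c1 (aff z) = z 1 / z 0 := by
  apply Complex.ext <;> simp [c1, aff]

lemma c2_aff (z : Fin 3 → ℂ) : c2 (aff z) = z 2 / z 0 := by
  apply Complex.ext <;> simp [c2, aff]

lemma ext_c {x y : E4} (h1 : c1 x = c1 y) (h2 : c2 x = c2 y) : x = y := by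
  have e0 : x 0 = y 0 := congrArg Complex.re h1
  have e1 : x 1 = y 1 := congrArg Complex.im h1
  have e2 : x 2 = y 2 := congrArg Complex.re h2
  have e3 : x 3 = y 3 := congrArg Complex.im h2
  ext i
  fin_cases i
  · exact e0
  · exact e1
  · exact e2
  · exact e3

lemma aff_mk {a : ℂ} (ha : a ≠ 0) (x : E4) : aff ![a, a * c1 x, a * c2 x] = x := by
  apply ext_c
  · rw [c1_aff]
    simp [ha]
  · rw [c2_aff]
    simp [ha]

lemma aff_smul {c : ℂ} (hc : c ≠ 0) (z : Fin 3 → ℂ) : aff (c • z) = aff z := by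
  apply ext_c
  · rw [c1_aff, c1_aff]
    simp only [Pi.smul_apply, smul_eq_mul]
    rw [mul_div_mul_left _ _ hc]
  · rw [c2_aff, c2_aff]
    simp only [Pi.smul_apply, smul_eq_mul]
    rw [mul_div_mul_left _ _ hc]

lemma norm_sq_c (x : E4) : ‖x‖ ^ 2 = Complex.normSq (c1 x) + Complex.normSq (c2 x) := by
  rw [EuclideanSpace.norm_eq, Real.sq_sqrt (by positivity), Fin.sum_univ_four]
  simp only [Real.norm_eq_abs, sq_abs, c1, c2, Complex.normSq_mk]
  ring

lemma mk_aff {z : Fin 3 → ℂ} (hz : z 0 ≠ 0) :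
    ![z 0, z 0 * c1 (aff z), z 0 * c2 (aff z)] = z := by
  rw [c1_aff, c2_aff, mul_div_cancel₀ _ hz, mul_div_cancel₀ _ hz]
  ext i
  fin_cases i <;> rfl

lemma Lam_zero (K : ℝ × E4 → E4) (t : ℝ) {z : Fin 3 → ℂ} (hz : z 0 = 0) : Lam K (t, z) = z :=
  if_pos hz

lemma Lam_ne_zero (K : ℝ × E4 → E4) (t : ℝ) {z : Fin 3 → ℂ} (hz : z 0 ≠ 0) :
    Lam K (t, z) = ![z 0, z 0 * c1 (K (t, aff z)), z 0 * c2 (K (t, aff z))] := if_neg hz

lemma Lam_apply_zero (K : ℝ × E4 → E4) (t : ℝ) (z : Fin 3 → ℂ) : Lam K (t, z) 0 = z 0 := by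
  by_cases hz : z 0 = 0
  · rw [Lam_zero K t hz]
  · rw [Lam_ne_zero K t hz]
    rfl

lemma Lam_hom (K : ℝ × E4 → E4) (t : ℝ) (c : ℂ) (z : Fin 3 → ℂ) :
    Lam K (t, c • z) = c • Lam K (t, z) := by
  by_cases hc : c = 0
  · subst hc
    rw [zero_smul, zero_smul, Lam_zero K t rfl]
  by_cases hz : z 0 = 0
  · rw [Lam_zero K t hz, Lam_zero]
    simp [hz]
  · have hz' : (c • z) 0 ≠ 0 := by
      simp [hz, hc]
    rw [Lam_ne_zero K t hz, Lam_ne_zero K t hz', aff_smul hc]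
    ext i
    fin_cases i
    · simp
    · simp [mul_assoc]
    · simp [mul_assoc]

lemma Lam_nonzero (K : ℝ × E4 → E4) (t : ℝ) {z : Fin 3 → ℂ} (hz : z ≠ 0) : Lam K (t, z) ≠ 0 := by
  by_cases h0 : z 0 = 0
  · rwa [Lam_zero K t h0]
  · intro h
    apply h0
    rw [← Lam_apply_zero K t z, h]
    rfl

lemma Lam_id {K : ℝ × E4 → E4} {t : ℝ} {z : Fin 3 → ℂ} (h : z 0 ≠ 0 → K (t, aff z) = aff z) :
    Lam K (t, z) = z := by
  by_cases hz : z 0 = 0
  · exact Lam_zero K t hz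
  · rw [Lam_ne_zero K t hz, h hz, mk_aff hz]

lemma Lam_far {K : ℝ × E4 → E4} {R : ℝ} (hfar : ∀ t x, R ≤ ‖x‖ → K (t, x) = x)
    (t : ℝ) {z : Fin 3 → ℂ}
    (hz : R ^ 2 * Complex.normSq (z 0) ≤ Complex.normSq (z 1) + Complex.normSq (z 2)) :
    Lam K (t, z) = z := by
  apply Lam_id
  intro h0
  apply hfar
  have h1 : 0 < Complex.normSq (z 0) := Complex.normSq_pos.2 h0
  have h2 : R ^ 2 ≤ ‖aff z‖ ^ 2 := by
    rw [norm_sq_c, c1_aff, c2_aff, map_div₀, map_div₀, ← add_div, le_div_iff₀ h1]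
    exact hz
  exact le_of_sq_le_sq h2 (norm_nonneg _)

lemma Lam_comp {K K' : ℝ × E4 → E4} {t t' : ℝ} (h : ∀ x, K' (t', K (t, x)) = x)
    (z : Fin 3 → ℂ) : Lam K' (t', Lam K (t, z)) = z := by
  by_cases hz : z 0 = 0
  · rw [Lam_zero K t hz, Lam_zero K' t' hz]
  · have h0 : Lam K (t, z) 0 ≠ 0 := by rwa [Lam_apply_zero]
    rw [Lam_ne_zero K' t' h0, Lam_apply_zero]
    have h1 : aff (Lam K (t, z)) = K (t, aff z) := by
      rw [Lam_ne_zero K t hz, aff_mk hz]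
    rw [h1, h, mk_aff hz]

lemma contDiff_c1 : ContDiff ℝ ∞ c1 := by
  have h1 : c1 = fun x : E4 => (x 0 : ℂ) + (x 1 : ℂ) * Complex.I := by
    funext x
    apply Complex.ext <;> simp [c1]
  rw [h1]
  have h2 : ∀ i : Fin 4, ContDiff ℝ ∞ fun x : E4 => ((x i : ℝ) : ℂ) := fun i =>
    Complex.ofRealCLM.contDiff.comp (EuclideanSpace.proj (𝕜 := ℝ) i).contDiff
  exact (h2 0).add ((h2 1).mul contDiff_const)

lemma contDiff_c2 : ContDiff ℝ ∞ c2 := by
  have h1 : c2 = fun x : E4 => (x 2 : ℂ) + (x 3 : ℂ) * Complex.I := by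
    funext x
    apply Complex.ext <;> simp [c2]
  rw [h1]
  have h2 : ∀ i : Fin 4, ContDiff ℝ ∞ fun x : E4 => ((x i : ℝ) : ℂ) := fun i =>
    Complex.ofRealCLM.contDiff.comp (EuclideanSpace.proj (𝕜 := ℝ) i).contDiff
  exact (h2 2).add ((h2 3).mul contDiff_const)

lemma contDiffAt_aff {z : Fin 3 → ℂ} (hz : z 0 ≠ 0) : ContDiffAt ℝ ∞ aff z := by
  have hc : ∀ i : Fin 3, ContDiffAt ℝ ∞ (fun z : Fin 3 → ℂ => z i) z := fun i =>
    (contDiff_apply ℝ ℂ i).contDiffAt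
  have h1 : ContDiffAt ℝ ∞ (fun z : Fin 3 → ℂ => z 1 / z 0) z := by
    simp only [div_eq_mul_inv]
    exact (hc 1).mul ((hc 0).inv hz)
  have h2 : ContDiffAt ℝ ∞ (fun z : Fin 3 → ℂ => z 2 / z 0) z := by
    simp only [div_eq_mul_inv]
    exact (hc 2).mul ((hc 0).inv hz)
  rw [contDiffAt_piLp]
  intro i
  fin_cases i
  · exact Complex.reCLM.contDiff.contDiffAt.comp z h1
  · exact Complex.imCLM.contDiff.contDiffAt.comp z h1
  · exact Complex.reCLM.contDiff.contDiffAt.comp z h2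
  · exact Complex.imCLM.contDiff.contDiffAt.comp z h2

theorem contDiffOn_Lam {K : ℝ × E4 → E4} (hK : ContDiff ℝ ∞ K) {R : ℝ}
    (hfar : ∀ t x, R ≤ ‖x‖ → K (t, x) = x) : ContDiffOn ℝ ∞ (Lam K) (univ ×ˢ {0}ᶜ) := by
  rintro ⟨t, z⟩ ⟨-, hz⟩
  apply ContDiffAt.contDiffWithinAt
  by_cases h0 : z 0 = 0
  · -- near infinity
    have hc : ∀ i : Fin 3, Continuous fun q : ℝ × (Fin 3 → ℂ) => Complex.normSq (q.2 i) := fun i =>
      Complex.continuous_normSq.comp ((continuous_apply i).comp continuous_snd)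
    have hlt : R ^ 2 * Complex.normSq (z 0) < Complex.normSq (z 1) + Complex.normSq (z 2) := by
      rw [h0, map_zero, mul_zero]
      have h1 : z 1 ≠ 0 ∨ z 2 ≠ 0 := by
        by_contra hcon
        push Not at hcon
        apply hz
        ext i
        fin_cases i
        · exact h0
        · exact hcon.1
        · exact hcon.2
      rcases h1 with h1 | h1
      · have := Complex.normSq_pos.2 h1
        have := Complex.normSq_nonneg (z 2)
        linarith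
      · have := Complex.normSq_pos.2 h1
        have := Complex.normSq_nonneg (z 1)
        linarith
    have hev : ∀ᶠ q : ℝ × (Fin 3 → ℂ) in 𝓝 (t, z), R ^ 2 * Complex.normSq (q.2 0) <
        Complex.normSq (q.2 1) + Complex.normSq (q.2 2) :=
      ((continuous_const.mul (hc 0)).continuousAt).eventually_lt
        ((hc 1).add (hc 2)).continuousAt hlt
    have heq : Lam K =ᶠ[𝓝 (t, z)] fun q => q.2 := by
      filter_upwards [hev] with q hq
      exact Lam_far hfar q.1 hq.le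
    exact contDiffAt_snd.congr_of_eventuallyEq heq
  · have hc : ∀ i : Fin 3, ContDiff ℝ ∞ (fun q : ℝ × (Fin 3 → ℂ) => q.2 i) := fun i =>
      (contDiff_apply ℝ ℂ i).comp contDiff_snd
    have hev : ∀ᶠ q : ℝ × (Fin 3 → ℂ) in 𝓝 (t, z), q.2 0 ≠ 0 :=
      ((hc 0).continuous.continuousAt).eventually_ne h0
    have haff : ContDiffAt ℝ ∞ (fun q : ℝ × (Fin 3 → ℂ) => K (q.1, aff q.2)) (t, z) := by
      refine hK.contDiffAt.comp (t, z) (contDiffAt_fst.prodMk ?_)
      exact ContDiffAt.comp (g := aff) (f := fun q : ℝ × (Fin 3 → ℂ) => q.2) (t, z)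
        (contDiffAt_aff h0) contDiffAt_snd
    have heq : Lam K =ᶠ[𝓝 (t, z)] fun q =>
        ![q.2 0, q.2 0 * c1 (K (q.1, aff q.2)), q.2 0 * c2 (K (q.1, aff q.2))] := by
      filter_upwards [hev] with q hq
      exact Lam_ne_zero K q.1 hq
    refine ContDiffAt.congr_of_eventuallyEq ?_ heq
    rw [contDiffAt_pi]
    intro i
    fin_cases i
    · exact (hc 0).contDiffAt
    · exact (hc 0).contDiffAt.mul (contDiff_c1.contDiffAt.comp (t, z) haff)
    · exact (hc 0).contDiffAt.mul (contDiff_c2.contDiffAt.comp (t, z) haff)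

/-- The isotopy of the projective plane. -/
theorem isotopic_of_E4 {K : ℝ × E4 → E4} (hK : ContDiff ℝ ∞ K) {R : ℝ}
    (hfar : ∀ t x, R ≤ ‖x‖ → K (t, x) = x) (h0 : ∀ x, K (0, x) = x)
    (hinv : ∀ t, ∃ ψ : E4 → E4, ContDiff ℝ ∞ ψ ∧ (∀ x, ψ (K (t, x)) = x) ∧ ∀ y, K (t, ψ y) = y)
    {F : (Fin 3 → Fin 3 → ℂ) → (Fin 3 → Fin 3 → ℂ)}
    (h1 : ∀ z, z ≠ 0 → F (pt z) = pt (Lam K (1, z))) : IsotopicToId 2 F := by
  have hsm := contDiffOn_Lam hK hfar
  refine ⟨ext (Lam K), contDiff_ext hsm (fun t z hz => Lam_nonzero K t hz), ?_, ?_, ?_, ?_⟩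
  · intro t P hP
    obtain ⟨z, hz, rfl⟩ := exists_pt hP
    rw [ext_pt (Lam_hom K) t hz]
    exact pt_mem (Lam_nonzero K t hz)
  · intro P hP
    obtain ⟨z, hz, rfl⟩ := exists_pt hP
    rw [ext_pt (Lam_hom K) 0 hz, Lam_id]
    intro _
    exact h0 _
  · intro P hP
    obtain ⟨z, hz, rfl⟩ := exists_pt hP
    rw [ext_pt (Lam_hom K) 1 hz, h1 z hz]
  · intro t
    obtain ⟨ψ, hψ1, hψ2, hψ3⟩ := hinv t
    set K' : ℝ × E4 → E4 := fun q => ψ q.2 with hK'
    have hfar' : ∀ s x, R ≤ ‖x‖ → K' (s, x) = x := by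
      intro s x hx
      have := hψ2 x
      rwa [hfar t x hx] at this
    have hK's : ContDiff ℝ ∞ K' := hψ1.comp contDiff_snd
    have hL := contDiff_ext (contDiffOn_Lam hK's hfar') (fun s z hz => Lam_nonzero K' s hz)
    refine ⟨fun P => ext (Lam K') (0, P), hL.comp (contDiff_prodMk_right 0), ?_⟩
    intro P hP
    obtain ⟨z, hz, rfl⟩ := exists_pt hP
    have e1 : ∀ w : Fin 3 → ℂ, w ≠ 0 → ext (Lam K') (0, pt w) = pt (Lam K' (0, w)) := fun w hw =>
      ext_pt (Lam_hom K') 0 hw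
    simp only
    refine ⟨?_, ?_, ?_⟩
    · rw [e1 z hz]
      exact pt_mem (Lam_nonzero K' 0 hz)
    · rw [ext_pt (Lam_hom K) t hz, e1 _ (Lam_nonzero K t hz),
        Lam_comp (K := K) (K' := K') (t := t) (t' := 0) hψ2]
    · rw [e1 z hz, ext_pt (Lam_hom K) t (Lam_nonzero K' 0 hz),
        Lam_comp (K := K') (K' := K) (t := 0) (t' := t) hψ3]

/-- `F` is induced by `f` on the affine chart and is the identity at infinity. -/
lemma induced_of {f : E4 → E4} {K : ℝ × E4 → E4} (hf : ∀ x, K (1, x) = f x)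
    {F : (Fin 3 → Fin 3 → ℂ) → (Fin 3 → Fin 3 → ℂ)} (h1 : ∀ x, F (emb x) = emb (f x))
    (h2 : ∀ P ∈ CP 2, P 0 0 = 0 → F P = P) (z : Fin 3 → ℂ) (hz : z ≠ 0) :
    F (pt z) = pt (Lam K (1, z)) := by
  by_cases h0 : z 0 = 0
  · rw [Lam_zero K 1 h0]
    apply h2 _ (pt_mem hz)
    rw [pt_diag, h0]
    simp
  · have e1 : pt z = emb (aff z) := by
      unfold emb
      rw [← pt_smul h0 ![1, c1 (aff z), c2 (aff z)]]
      congr 1
      rw [c1_aff, c2_aff]
      ext i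
      fin_cases i
      · simp
      · simp only [Pi.smul_apply, smul_eq_mul]
        exact (mul_div_cancel₀ _ h0).symm
      · simp only [Pi.smul_apply, smul_eq_mul]
        exact (mul_div_cancel₀ _ h0).symm
    rw [e1, h1, Lam_ne_zero K 1 h0, hf]
    unfold emb
    rw [← pt_smul h0 ![1, c1 (f (aff z)), c2 (f (aff z))]]
    congr 1
    ext i
    fin_cases i
    · simp
    · simp
    · simp

end Pool.Agent.Lib.P28b04d
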