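import Pool.Agent.Lib.P28b04d.Aff
import Pool.Agent.Lib.P28b04d.Chart

set_option autoImplicit false

/-!
# Conjugation, and the criterion for the projective plane
-/

open MeasureTheory Metric Real Filter Topology

namespace Pool.Agent.Lib.P28b04d

open Pool.Agent.P28b04d

/-- `Φ` and `Φ'` restrict to mutually inverse diffeomorphisms of the projective plane. -/
structure Frame (Φ Φ' : (Fin 3 → Fin 3 → ℂ) → (Fin 3 → Fin 3 → ℂ)) : Prop where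
  smooth : ContDiff ℝ (⊤ : ℕ∞) Φ
  smooth' : ContDiff ℝ (⊤ : ℕ∞) Φ'
  maps : ∀ P ∈ CP 2, Φ P ∈ CP 2
  maps' : ∀ P ∈ CP 2, Φ' P ∈ CP 2
  left : ∀ P ∈ CP 2, Φ' (Φ P) = P
  right : ∀ P ∈ CP 2, Φ (Φ' P) = P

theorem IsotopicToId.conj {Φ Φ' : (Fin 3 → Fin 3 → ℂ) → (Fin 3 → Fin 3 → ℂ)} (h : Frame Φ Φ')
    {F F₀ : (Fin 3 → Fin 3 → ℂ) → (Fin 3 → Fin 3 → ℂ)} (h0 : IsotopicToId 2 F₀)
    (hF : ∀ P ∈ CP 2, F (Φ P) = Φ (F₀ P)) : IsotopicToId 2 F := by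
  obtain ⟨K, hK, hKX, hK0, hK1, hL⟩ := h0
  refine ⟨fun p => Φ (K (p.1, Φ' p.2)), ?_, ?_, ?_, ?_, ?_⟩
  · exact h.smooth.comp (hK.comp (contDiff_fst.prodMk (h.smooth'.comp contDiff_snd)))
  · intro t P hP
    exact h.maps _ (hKX t _ (h.maps' P hP))
  · intro P hP
    simp only
    rw [hK0 _ (h.maps' P hP), h.right P hP]
  · intro P hP
    simp only
    rw [hK1 _ (h.maps' P hP), ← hF _ (h.maps' P hP), h.right P hP]
  · intro t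
    obtain ⟨L, hLs, hLX⟩ := hL t
    refine ⟨fun P => Φ (L (Φ' P)), h.smooth.comp (hLs.comp h.smooth'), fun P hP => ?_⟩
    obtain ⟨h1, h2, h3⟩ := hLX _ (h.maps' P hP)
    simp only
    refine ⟨h.maps _ h1, ?_, ?_⟩
    · rw [h.left _ (hKX t _ (h.maps' P hP)), h2, h.right P hP]
    · rw [h.left _ h1, h3, h.right P hP]

theorem pt_eq_emb {z : Fin 3 → ℂ} (h0 : z 0 ≠ 0) : pt z = emb (aff z) := by
  unfold emb
  rw [← pt_smul h0 ![1, c1 (aff z), c2 (aff z)]]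
  congr 1
  rw [c1_aff, c2_aff]
  ext i
  fin_cases i
  · simp
  · simp only [Pi.smul_apply, smul_eq_mul]
    exact (mul_div_cancel₀ _ h0).symm
  · simp only [Pi.smul_apply, smul_eq_mul]
    exact (mul_div_cancel₀ _ h0).symm

/-- **The criterion.** -/
theorem criterion {f : E4 → E4} (hf : ContDiff ℝ (⊤ : ℕ∞) f) {R : ℝ}
    (hR : ∀ x, R ≤ ‖x‖ → f x = x) (himm : ∀ x v, fderiv ℝ f x v = 0 → v = 0)
    (hmean : MeanInjective f) :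
    (∃ (K : ℝ × E4 → E4) (R' : ℝ), ContDiff ℝ (⊤ : ℕ∞) K ∧
      (∀ t x, R' ≤ ‖x‖ → K (t, x) = x) ∧ (∀ x, K (0, x) = x) ∧ (∀ x, K (1, x) = f x) ∧
      ∀ t, ∃ ψ : E4 → E4, ContDiff ℝ (⊤ : ℕ∞) ψ ∧ (∀ x, ψ (K (t, x)) = x) ∧
        ∀ y, K (t, ψ y) = y) ∧
    ∀ Φ Φ' F : (Fin 3 → Fin 3 → ℂ) → (Fin 3 → Fin 3 → ℂ), Frame Φ Φ' →
      (∀ x, F (Φ (emb x)) = Φ (emb (f x))) → (∀ P ∈ CP 2, P 0 0 = 0 → F (Φ P) = Φ P) →
      IsotopicToId 2 F := by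
  obtain ⟨K, R', hR', hKs, hfar, hK0, hK1, hinv⟩ :=
    isotopy_of_inj hf hR himm ((meanInjective_iff hf).1 hmean)
  refine ⟨⟨K, R', hKs, hfar, hK0, hK1, hinv⟩, fun Φ Φ' F hΦ h1 h2 => ?_⟩
  have hemb : ∀ x, emb x ∈ CP 2 := fun x => pt_mem (by
    intro h
    have := congrFun h 0
    simp at this)
  have hF0 : IsotopicToId 2 (fun P => Φ' (F (Φ P))) := by
    refine isotopic_of_E4 hKs hfar hK0 hinv fun z hz => ?_
    refine induced_of (F := fun P => Φ' (F (Φ P))) hK1 (fun x => ?_) (fun P hP hP0 => ?_) z hz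
    · rw [h1, hΦ.left _ (hemb _)]
    · rw [h2 P hP hP0, hΦ.left _ hP]
  refine IsotopicToId.conj hΦ hF0 fun P hP => ?_
  by_cases h0 : P 0 0 = 0
  · rw [h2 P hP h0, hΦ.left _ hP]
  · obtain ⟨z, hz, rfl⟩ := exists_pt hP
    have hz0 : z 0 ≠ 0 := by
      intro h
      apply h0
      rw [pt_diag, h]
      simp
    rw [pt_eq_emb hz0, h1, hΦ.left _ (hemb _)]

end Pool.Agent.Lib.P28b04d
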