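import Pool.Agent.Lib.P28b04d.Act

set_option autoImplicit false

namespace Pool.Agent.P28b04d

open scoped ContDiff
open Set Filter Topology

variable {n : ℕ}

lemma PosLift.hloc {Θ : (Fin (n + 1) → ℂ) → (Fin (n + 1) → ℂ)} (h : PosLift Θ) : HLoc Θ where
  smooth := h.1.smooth
  hom := h.1.hom
  inj := by
    intro z hz v hv
    by_contra hne
    have := h.2 z hz v hne
    rw [hv] at this
    simp at this

section K

variable {K : ℝ × (Fin (n + 1) → Fin (n + 1) → ℂ) → (Fin (n + 1) → Fin (n + 1) → ℂ)}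

/-- the pulled back family -/
noncomputable def Hf (K : ℝ × (Fin (n + 1) → Fin (n + 1) → ℂ) → (Fin (n + 1) → Fin (n + 1) → ℂ))
    (q : ℝ × (Fin (n + 1) → ℂ)) : Fin (n + 1) → Fin (n + 1) → ℂ := K (q.1, pt q.2)

/-- its partial derivative -/
noncomputable def dH (K : ℝ × (Fin (n + 1) → Fin (n + 1) → ℂ) → (Fin (n + 1) → Fin (n + 1) → ℂ))
    (t : ℝ) (z v : Fin (n + 1) → ℂ) : Fin (n + 1) → Fin (n + 1) → ℂ :=
  fderiv ℝ (Hf K) (t, z) (0, v)

lemma contDiffAt_Hf (hK : ContDiff ℝ ∞ K) (t : ℝ) {z : Fin (n + 1) → ℂ} (hz : z ≠ 0) :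
    ContDiffAt ℝ ∞ (Hf K) (t, z) := by
  have h1 : ContDiffAt ℝ ∞ (fun q : ℝ × (Fin (n + 1) → ℂ) => pt q.2) (t, z) :=
    (contDiffAt_pt hz).comp (t, z) contDiffAt_snd
  exact hK.contDiffAt.comp (t, z) (contDiffAt_fst.prodMk h1)

lemma contDiffOn_Hf (hK : ContDiff ℝ ∞ K) : ContDiffOn ℝ ∞ (Hf K) (univ ×ˢ {0}ᶜ) := by
  rintro ⟨t, z⟩ ⟨-, hz⟩
  exact (contDiffAt_Hf hK t hz).contDiffWithinAt

lemma hasDerivAt_Hf (hK : ContDiff ℝ ∞ K) (t : ℝ) {c : ℝ → (Fin (n + 1) → ℂ)}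
    {v : Fin (n + 1) → ℂ} (hc : HasDerivAt c v 0) (hz : c 0 ≠ 0) :
    HasDerivAt (fun r => K (t, pt (c r))) (dH K t (c 0) v) 0 := by
  have h1 : HasFDerivAt (Hf K) (fderiv ℝ (Hf K) (t, c 0)) (t, c 0) :=
    ((contDiffAt_Hf hK t hz).differentiableAt (by simp)).hasFDerivAt
  have h2 : HasDerivAt (fun r : ℝ => (t, c r)) ((0 : ℝ), v) 0 :=
    (hasDerivAt_const (0 : ℝ) t).prodMk hc
  exact h1.comp_hasDerivAt (0 : ℝ) h2

lemma dH_zero (K : ℝ × (Fin (n + 1) → Fin (n + 1) → ℂ) → (Fin (n + 1) → Fin (n + 1) → ℂ))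
    (t : ℝ) (z : Fin (n + 1) → ℂ) : dH K t z 0 = 0 := by
  unfold dH
  exact map_zero _

lemma dH_smul (K : ℝ × (Fin (n + 1) → Fin (n + 1) → ℂ) → (Fin (n + 1) → Fin (n + 1) → ℂ))
    (t : ℝ) (z : Fin (n + 1) → ℂ) (a : ℝ) (v : Fin (n + 1) → ℂ) :
    dH K t z (a • v) = a • dH K t z v := by
  unfold dH
  rw [← map_smul]
  simp

lemma continuousOn_dH (hK : ContDiff ℝ ∞ K) :
    ContinuousOn (fun x : (ℝ × (Fin (n + 1) → ℂ)) × (Fin (n + 1) → ℂ) => dH K x.1.1 x.1.2 x.2)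
      ((univ ×ˢ {0}ᶜ) ×ˢ univ) := by
  have h1 : ContinuousOn (fderiv ℝ (Hf K)) (univ ×ˢ {0}ᶜ) :=
    (contDiffOn_Hf hK).continuousOn_fderiv_of_isOpen (isOpen_univ.prod isOpen_compl_singleton)
      (by simp)
  have h2 : ContinuousOn (fun x : (ℝ × (Fin (n + 1) → ℂ)) × (Fin (n + 1) → ℂ) =>
      fderiv ℝ (Hf K) x.1) ((univ ×ˢ {0}ᶜ) ×ˢ univ) :=
    h1.comp continuousOn_fst fun x hx => hx.1
  have h3 : ContinuousOn (fun x : (ℝ × (Fin (n + 1) → ℂ)) × (Fin (n + 1) → ℂ) =>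
      ((0 : ℝ), x.2)) ((univ ×ˢ {0}ᶜ) ×ˢ univ) := by fun_prop
  exact h2.clm_apply h3

/-- the conjunction of all properties of an isotopy that we use -/
structure Iso (K : ℝ × (Fin (n + 1) → Fin (n + 1) → ℂ) → (Fin (n + 1) → Fin (n + 1) → ℂ)) :
    Prop where
  smooth : ContDiff ℝ ∞ K
  mem : ∀ t : ℝ, ∀ P ∈ CP n, K (t, P) ∈ CP n
  zero : ∀ P ∈ CP n, K (0, P) = P
  inv : ∀ t : ℝ, ∃ L : (Fin (n + 1) → Fin (n + 1) → ℂ) → (Fin (n + 1) → Fin (n + 1) → ℂ),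
      ContDiff ℝ ∞ L ∧ ∀ P ∈ CP n, L P ∈ CP n ∧ L (K (t, P)) = P ∧ K (t, L P) = P

lemma eventually_ne {c : ℝ → (Fin (n + 1) → ℂ)} (hc : ContinuousAt c 0) (hz : c 0 ≠ 0) :
    ∀ᶠ r in 𝓝 (0 : ℝ), c r ≠ 0 :=
  hc.eventually_ne hz

/-- nondegeneracy of the derivative -/
lemma Iso.nondeg (h : Iso K) (t : ℝ) {z w v : Fin (n + 1) → ℂ} (hz : z ≠ 0) (hw : w ≠ 0)
    (hzw : K (t, pt z) = pt w) (hv : hip z v = 0) :
    hip w (act (dH K t z v) w) = 0 ∧ (act (dH K t z v) w = 0 → v = 0) := by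
  have hc : HasDerivAt (fun r : ℝ => z + r • v) v 0 := by
    simpa using ((hasDerivAt_id (0 : ℝ)).smul_const v).const_add z
  have hc0 : z + (0 : ℝ) • v = z := by simp
  have hq := hasDerivAt_Hf h.smooth t hc (by rw [hc0]; exact hz)
  rw [hc0] at hq
  have hne : ∀ᶠ r in 𝓝 (0 : ℝ), z + r • v ≠ 0 :=
    eventually_ne hc.continuousAt (by simpa using hz)
  have hmem : ∀ᶠ r in 𝓝 (0 : ℝ), K (t, pt (z + r • v)) ∈ CP n := by
    filter_upwards [hne] with r hr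
    exact h.mem t _ (pt_mem hr)
  have h0 : (fun r : ℝ => K (t, pt (z + r • v))) 0 = pt w := by
    simpa using hzw
  refine ⟨curve_hip hq hmem hw h0, fun hact => ?_⟩
  have hD := curve_zero hq hmem h0 hact
  rw [hD] at hq
  obtain ⟨L, hL, hL2⟩ := h.inv t
  have h1 : HasDerivAt (fun r : ℝ => L (K (t, pt (z + r • v)))) 0 0 := by
    have h2 : HasFDerivAt L (fderiv ℝ L (K (t, pt (z + (0 : ℝ) • v))))
        (K (t, pt (z + (0 : ℝ) • v))) :=
      (hL.contDiffAt.differentiableAt (by simp)).hasFDerivAt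
    have h3 := h2.comp_hasDerivAt (0 : ℝ) hq
    rw [map_zero] at h3
    exact h3
  have h2 : HasDerivAt (fun r : ℝ => pt (z + r • v)) 0 0 := by
    apply h1.congr_of_eventuallyEq
    filter_upwards [hne] with r hr
    exact ((hL2 _ (pt_mem hr)).2.1).symm
  have h3 := hasDerivAt_act h2 hc
  have h4 : HasDerivAt (fun r : ℝ => z + r • v)
      (act 0 ((fun r : ℝ => z + r • v) 0) + act ((fun r : ℝ => pt (z + r • v)) 0) v) 0 := by
    apply h3.congr_of_eventuallyEq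
    filter_upwards [hne] with r hr
    exact (act_pt_self hr).symm
  have h5 := hc.unique h4
  rw [h5]
  have h6 : (fun r : ℝ => pt (z + r • v)) 0 = pt z := by simp
  rw [h6, act_pt, hv, zero_div, zero_smul, add_zero]
  funext i
  simp [act]

/-- the vector built from the parameters -/
noncomputable def vec (K : ℝ × (Fin (n + 1) → Fin (n + 1) → ℂ) → (Fin (n + 1) → Fin (n + 1) → ℂ))
    (t : ℝ) (z w : Fin (n + 1) → ℂ) (γ : ℂ) (v : Fin (n + 1) → ℂ) : Fin (n + 1) → ℂ :=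
  γ • w + act (dH K t z v) w

/-- the quadratic expression controlling positivity -/
noncomputable def quad (K : ℝ × (Fin (n + 1) → Fin (n + 1) → ℂ) → (Fin (n + 1) → Fin (n + 1) → ℂ))
    (t t' : ℝ) (z w : Fin (n + 1) → ℂ) (γ : ℂ) (v : Fin (n + 1) → ℂ) : ℝ :=
  (hip (vec K t z w γ v) (act (dH K t' z v) w + act (K (t', pt z)) (vec K t z w γ v))).re

lemma act_smul_real (P : Fin (n + 1) → Fin (n + 1) → ℂ) (c : ℝ) (v : Fin (n + 1) → ℂ) :
    act P (c • v) = c • act P v := by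
  funext i; simp [act, Finset.mul_sum, mul_left_comm]

lemma act_smul_left (P : Fin (n + 1) → Fin (n + 1) → ℂ) (c : ℝ) (v : Fin (n + 1) → ℂ) :
    act (c • P) v = c • act P v := by
  funext i; simp [act, Finset.mul_sum, mul_assoc]

lemma hip_smul_smul (c : ℝ) (a b : Fin (n + 1) → ℂ) :
    (hip (c • a) (c • b)).re = c ^ 2 * (hip a b).re := by
  have : hip (c • a) (c • b) = ((c ^ 2 : ℝ) : ℂ) * hip a b := by
    simp only [hip, Finset.mul_sum]
    refine Finset.sum_congr rfl fun k _ => ?_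
    simp
    ring
  rw [this, Complex.re_ofReal_mul]

lemma vec_scale (t : ℝ) (z w : Fin (n + 1) → ℂ) (γ : ℂ) (v : Fin (n + 1) → ℂ) (a b : ℝ) :
    vec K t z (a • w) (b • γ) (b • v) = (a * b) • vec K t z w γ v := by
  unfold vec
  rw [dH_smul, act_smul_left, act_smul_real, smul_add, smul_smul b a, mul_comm b a]
  congr 1
  funext i
  simp
  ring

lemma quad_scale (t t' : ℝ) (z w : Fin (n + 1) → ℂ) (γ : ℂ) (v : Fin (n + 1) → ℂ) (a b : ℝ) :
    quad K t t' z (a • w) (b • γ) (b • v) = (a * b) ^ 2 * quad K t t' z w γ v := by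
  unfold quad
  rw [vec_scale, dH_smul, act_smul_left, act_smul_real, act_smul_real, smul_smul b a,
    mul_comm b a, ← smul_add, hip_smul_smul]

/-- positivity on the diagonal -/
lemma Iso.quad_diag (h : Iso K) (t : ℝ) {z w v : Fin (n + 1) → ℂ} {γ : ℂ} (hz : z ≠ 0)
    (hw : w ≠ 0) (hzw : K (t, pt z) = pt w) (hv : hip z v = 0) (hne : (γ, v) ≠ 0) :
    0 < quad K t t z w γ v := by
  obtain ⟨h1, h2⟩ := h.nondeg t hz hw hzw hv
  have h3 : act (K (t, pt z)) (vec K t z w γ v) = γ • w := by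
    rw [hzw]
    unfold vec
    rw [act_pt]
    have : hip w (γ • w + act (dH K t z v) w) = γ * (nsq w : ℂ) := by
      have h4 : hip w (γ • w + act (dH K t z v) w) = γ * hip w w + hip w (act (dH K t z v) w) := by
        simp only [hip, Finset.mul_sum, ← Finset.sum_add_distrib]
        refine Finset.sum_congr rfl fun k _ => ?_
        simp
        ring
      rw [h4, h1, add_zero, hip_self]
    rw [this, mul_div_cancel_right₀ _ (nsq_ne hw)]
  unfold quad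
  rw [h3]
  have h4 : act (dH K t z v) w + γ • w = vec K t z w γ v := add_comm _ _
  rw [h4]
  apply hip_re_pos
  intro h0
  have h5 : γ • w = 0 := by rw [← h3, h0, act_zero]
  have hγ : γ = 0 := (smul_eq_zero.1 h5).resolve_right hw
  unfold vec at h0
  rw [hγ, zero_smul, zero_add] at h0
  apply hne
  rw [hγ, h2 h0]
  rfl

/-- **The uniform step.** -/
lemma Iso.exists_delta (h : Iso K) : ∃ δ : ℝ, 0 < δ ∧ ∀ t t' : ℝ, 0 ≤ t → t ≤ 1 → 0 ≤ t' →
    t' ≤ 1 → |t - t'| < δ → ∀ (z w v : Fin (n + 1) → ℂ) (γ : ℂ), ‖z‖ = 1 → w ≠ 0 →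
    K (t, pt z) = pt w → hip z v = 0 → (γ, v) ≠ 0 → 0 < quad K t t' z w γ v := by
  let X := (ℝ × ℝ) × ((Fin (n + 1) → ℂ) × (Fin (n + 1) → ℂ)) × (ℂ × (Fin (n + 1) → ℂ))
  let C : Set X := (Icc (0 : ℝ) 1 ×ˢ Icc (0 : ℝ) 1) ×ˢ
    (Metric.sphere (0 : Fin (n + 1) → ℂ) 1 ×ˢ Metric.sphere (0 : Fin (n + 1) → ℂ) 1) ×ˢ
    Metric.sphere (0 : ℂ × (Fin (n + 1) → ℂ)) 1
  have hC : IsCompact C := (isCompact_Icc.prod isCompact_Icc).prod
    (((isCompact_sphere _ _).prod (isCompact_sphere _ _)).prod (isCompact_sphere _ _))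
  have hzne : ∀ x ∈ C, x.2.1.1 ≠ 0 := by
    rintro x ⟨-, ⟨hz, -⟩, -⟩ h0
    rw [h0] at hz
    simp at hz
  have hwne : ∀ x ∈ C, x.2.1.2 ≠ 0 := by
    rintro x ⟨-, ⟨-, hw⟩, -⟩ h0
    rw [h0] at hw
    simp at hw
  have hgne : ∀ x ∈ C, x.2.2 ≠ 0 := by
    rintro x ⟨-, -, hg⟩ h0
    rw [h0] at hg
    simp at hg
  -- continuity
  have k1 : ContinuousOn (fun x : X => K (x.1.1, pt x.2.1.1)) C := by
    have : ContinuousOn (fun x : X => (x.1.1, x.2.1.1)) C := by fun_prop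
    exact (contDiffOn_Hf h.smooth).continuousOn.comp this fun x hx => ⟨mem_univ _, hzne x hx⟩
  have k2 : ContinuousOn (fun x : X => K (x.1.2, pt x.2.1.1)) C := by
    have : ContinuousOn (fun x : X => (x.1.2, x.2.1.1)) C := by fun_prop
    exact (contDiffOn_Hf h.smooth).continuousOn.comp this fun x hx => ⟨mem_univ _, hzne x hx⟩
  have d1 : ContinuousOn (fun x : X => dH K x.1.1 x.2.1.1 x.2.2.2) C := by
    have : ContinuousOn (fun x : X => ((x.1.1, x.2.1.1), x.2.2.2)) C := by fun_prop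
    exact (continuousOn_dH h.smooth).comp this fun x hx => ⟨⟨mem_univ _, hzne x hx⟩, mem_univ _⟩
  have d2 : ContinuousOn (fun x : X => dH K x.1.2 x.2.1.1 x.2.2.2) C := by
    have : ContinuousOn (fun x : X => ((x.1.2, x.2.1.1), x.2.2.2)) C := by fun_prop
    exact (continuousOn_dH h.smooth).comp this fun x hx => ⟨⟨mem_univ _, hzne x hx⟩, mem_univ _⟩
  have ca : ∀ {f : X → (Fin (n + 1) → Fin (n + 1) → ℂ)} {g : X → (Fin (n + 1) → ℂ)},
      ContinuousOn f C → ContinuousOn g C → ContinuousOn (fun x => act (f x) (g x)) C := by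
    intro f g hf hg
    have h1 : ContinuousOn (fun x => actL (n := n) (f x)) C :=
      (actL (n := n)).continuous.comp_continuousOn hf
    exact h1.clm_apply hg
  have ch : ∀ {f g : X → (Fin (n + 1) → ℂ)},
      ContinuousOn f C → ContinuousOn g C → ContinuousOn (fun x => hip (f x) (g x)) C := by
    intro f g hf hg
    unfold hip
    refine continuousOn_finsetSum _ fun k _ => ?_
    exact (((continuous_apply k).comp_continuousOn hf).star).mul
      ((continuous_apply k).comp_continuousOn hg)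
  have cz : ContinuousOn (fun x : X => x.2.1.1) C := by fun_prop
  have cw : ContinuousOn (fun x : X => x.2.1.2) C := by fun_prop
  have cg : ContinuousOn (fun x : X => x.2.2.1) C := by fun_prop
  have cv : ContinuousOn (fun x : X => x.2.2.2) C := by fun_prop
  have cvec : ContinuousOn (fun x : X => vec K x.1.1 x.2.1.1 x.2.1.2 x.2.2.1 x.2.2.2) C := by
    unfold vec
    exact (cg.smul cw).add (ca d1 cw)
  have cquad : ContinuousOn
      (fun x : X => quad K x.1.1 x.1.2 x.2.1.1 x.2.1.2 x.2.2.1 x.2.2.2) C := by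
    unfold quad
    exact Complex.continuous_re.comp_continuousOn (ch cvec ((ca d2 cw).add (ca k2 cvec)))
  have c1 : ContinuousOn (fun x : X => act (K (x.1.1, pt x.2.1.1)) x.2.1.2 - x.2.1.2) C :=
    (ca k1 cw).sub cw
  have c2 : ContinuousOn (fun x : X => hip x.2.1.1 x.2.2.2) C := ch cz cv
  let f : X → (Fin (n + 1) → ℂ) × ℂ × ℝ := fun x =>
    (act (K (x.1.1, pt x.2.1.1)) x.2.1.2 - x.2.1.2, hip x.2.1.1 x.2.2.2,
      quad K x.1.1 x.1.2 x.2.1.1 x.2.1.2 x.2.2.1 x.2.2.2)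
  have cf : ContinuousOn f C := c1.prodMk (c2.prodMk cquad)
  let T : Set ((Fin (n + 1) → ℂ) × ℂ × ℝ) := {0} ×ˢ {0} ×ˢ Iic 0
  have hT : IsClosed T := isClosed_singleton.prod (isClosed_singleton.prod isClosed_Iic)
  have hB : IsCompact (C ∩ f ⁻¹' T) :=
    hC.of_isClosed_subset (cf.preimage_isClosed_of_isClosed hC.isClosed hT) inter_subset_left
  -- facts on the bad set
  have hbad : ∀ x ∈ C ∩ f ⁻¹' T, x.1.1 ≠ x.1.2 := by
    rintro x ⟨hx, hfx⟩ heq
    obtain ⟨h1, h2, h3⟩ := hfx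
    simp only [f, mem_singleton_iff, mem_Iic] at h1 h2 h3
    rw [← heq] at h3
    have hw := hwne x hx
    have hz := hzne x hx
    have hKz : K (x.1.1, pt x.2.1.1) = pt x.2.1.2 :=
      eq_pt_of_act (h.mem _ _ (pt_mem hz)) hw (sub_eq_zero.1 h1)
    have := h.quad_diag x.1.1 (γ := x.2.2.1) (v := x.2.2.2) hz hw hKz h2 (hgne x hx)
    linarith
  have hδ : ∃ δ : ℝ, 0 < δ ∧ ∀ x ∈ C ∩ f ⁻¹' T, δ ≤ |x.1.1 - x.1.2| := by
    rcases (C ∩ f ⁻¹' T).eq_empty_or_nonempty with he | hne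
    · exact ⟨1, one_pos, fun x hx => by rw [he] at hx; exact absurd hx (notMem_empty _)⟩
    · have hcont : ContinuousOn (fun x : X => |x.1.1 - x.1.2|) (C ∩ f ⁻¹' T) := by fun_prop
      obtain ⟨x, hx, hmin⟩ := hB.exists_isMinOn hne hcont
      exact ⟨|x.1.1 - x.1.2|, abs_pos.2 (sub_ne_zero.2 (hbad x hx)), fun y hy => hmin hy⟩
  obtain ⟨δ, hδ0, hδ⟩ := hδ
  refine ⟨δ, hδ0, ?_⟩
  intro t t' h0 h1 h0' h1' htt z w v γ hz hw hzw hv hne
  by_contra hneg
  push Not at hneg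
  have hwn : ‖w‖ ≠ 0 := norm_ne_zero_iff.2 hw
  have hgn : ‖(γ, v)‖ ≠ 0 := norm_ne_zero_iff.2 hne
  have hw' : w = ‖w‖ • (‖w‖⁻¹ • w) := by rw [smul_smul, mul_inv_cancel₀ hwn, one_smul]
  let x : X := ((t, t'), (z, ‖w‖⁻¹ • w), (‖(γ, v)‖⁻¹ • γ, ‖(γ, v)‖⁻¹ • v))
  have hxC : x ∈ C := by
    refine ⟨⟨⟨h0, h1⟩, ⟨h0', h1'⟩⟩, ⟨by simpa [x] using hz, ?_⟩, ?_⟩
    · simp only [x, mem_sphere_iff_norm, sub_zero]
      rw [norm_smul, norm_inv, norm_norm, inv_mul_cancel₀ hwn]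
    · simp only [x, mem_sphere_iff_norm, sub_zero]
      rw [← Prod.smul_mk, norm_smul, norm_inv, norm_norm, inv_mul_cancel₀ hgn]
  have hxT : x ∈ f ⁻¹' T := by
    refine ⟨?_, ?_, ?_⟩
    · simp only [f, x, mem_singleton_iff]
      rw [hzw, act_smul_real, act_pt_self hw, sub_self]
    · simp only [f, x, mem_singleton_iff]
      have : hip z (‖(γ, v)‖⁻¹ • v) = ((‖(γ, v)‖⁻¹ : ℝ) : ℂ) * hip z v := by
        simp only [hip, Finset.mul_sum]
        refine Finset.sum_congr rfl fun k _ => ?_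
        simp
        ring
      rw [this, hv, mul_zero]
    · simp only [f, x, mem_Iic]
      rw [quad_scale]
      exact mul_nonpos_of_nonneg_of_nonpos (sq_nonneg _) hneg
  have := hδ x ⟨hxC, hxT⟩
  simp only [x] at this
  linarith

end K

end Pool.Agent.P28b04d
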