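import Pool.Agent.Lib.P28b04d.Iso

set_option autoImplicit false

/-!
# The mean value criterion

A compactly supported diffeomorphism `f` of `ℝ⁴` such that all the means of `df` over balls are
invertible is isotopic to the identity.
-/

open MeasureTheory Metric Real Filter Topology

open scoped Pointwise

namespace Pool.Agent.Lib.P28b04d

/-- A smooth immersion of `ℝ⁴` in itself which is the identity near infinity is a diffeomorphism. -/
theorem global_inverse_imm {φ : E4 → E4} (hφ : ContDiff ℝ (⊤ : ℕ∞) φ) {R : ℝ}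
    (hR : ∀ x, R ≤ ‖x‖ → φ x = x) (himm : ∀ x v, fderiv ℝ φ x v = 0 → v = 0) :
    ∃ ψ : E4 → E4, ContDiff ℝ (⊤ : ℕ∞) ψ ∧ (∀ x, ψ (φ x) = x) ∧ ∀ y, φ (ψ y) = y := by
  have hcont : Continuous φ := hφ.continuous
  -- the derivatives are isomorphisms
  have hinj : ∀ x, Function.Injective (fderiv ℝ φ x : E4 →ₗ[ℝ] E4) := by
    intro x
    rw [← LinearMap.ker_eq_bot, LinearMap.ker_eq_bot']
    intro v hv
    exact himm x v hv
  let e : E4 → (E4 ≃L[ℝ] E4) := fun x =>
    (LinearEquiv.ofInjectiveEndo (fderiv ℝ φ x : E4 →ₗ[ℝ] E4) (hinj x)).toContinuousLinearEquiv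
  have he : ∀ x, ((e x : E4 ≃L[ℝ] E4) : E4 →L[ℝ] E4) = fderiv ℝ φ x := by
    intro x
    ext v
    rfl
  have hstrict : ∀ x, HasStrictFDerivAt φ ((e x : E4 ≃L[ℝ] E4) : E4 →L[ℝ] E4) x := by
    intro x
    rw [he]
    exact hφ.contDiffAt.hasStrictFDerivAt (by simp)
  have hopen : IsOpenMap φ := isOpenMap_of_hasStrictFDerivAt_equiv hstrict
  -- surjectivity
  have hsurj : Function.Surjective φ := by
    rw [← Set.range_eq_univ]
    apply IsClopen.eq_univ _ (Set.range_nonempty φ)
    refine ⟨?_, hopen.isOpen_range⟩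
    have hrange : Set.range φ = φ '' closedBall 0 R ∪ {x | R ≤ ‖x‖} := by
      ext y
      constructor
      · rintro ⟨x, rfl⟩
        rcases le_total ‖x‖ R with h | h
        · left
          exact ⟨x, by simpa using h, rfl⟩
        · right
          rw [Set.mem_ofPred_eq, hR x h]
          exact h
      · rintro (⟨x, _, rfl⟩ | h)
        · exact ⟨x, rfl⟩
        · exact ⟨y, hR y h⟩
    rw [hrange]
    exact ((isCompact_closedBall 0 R).image hcont).isClosed.union
      (isClosed_le continuous_const continuous_norm)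
  -- injectivity
  have hinj' : Function.Injective φ := by
    set N : Set E4 := {x | ∃ y, y ≠ x ∧ φ y = φ x} with hN
    have hNopen : IsOpen N := by
      rw [isOpen_iff_mem_nhds]
      rintro x ⟨y, hyx, hy⟩
      obtain ⟨U, W, hU, hW, hxU, hyW, hdisj⟩ := t2_separation hyx.symm
      have h1 : φ '' W ∈ 𝓝 (φ x) := by
        rw [← hy]
        exact hopen.image_mem_nhds (hW.mem_nhds hyW)
      filter_upwards [hcont.continuousAt h1, hU.mem_nhds hxU] with x' hx' hx'U
      obtain ⟨y', hy'W, hy'⟩ := hx'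
      refine ⟨y', ?_, hy'⟩
      rintro rfl
      exact Set.disjoint_left.1 hdisj hx'U hy'W
    have hNclosed : IsClosed N := by
      apply IsSeqClosed.isClosed
      intro x a hx hxa
      choose y hyx hy using hx
      have hφa : Tendsto (fun n => ‖φ (x n)‖) atTop (𝓝 ‖φ a‖) :=
        ((hcont.tendsto a).comp hxa).norm
      obtain ⟨K, hK⟩ := hφa.bddAbove_range
      have hyb : ∀ n, y n ∈ closedBall (0 : E4) (max R K) := by
        intro n
        rw [mem_closedBall, dist_zero_right]
        rcases le_total ‖y n‖ R with h | h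
        · exact h.trans (le_max_left _ _)
        · have h2 := hR _ h
          rw [hy n] at h2
          rw [← h2]
          exact (hK ⟨n, rfl⟩).trans (le_max_right _ _)
      obtain ⟨b, _, k, hk, hkb⟩ := (isCompact_closedBall (0 : E4) (max R K)).tendsto_subseq hyb
      have hxa' : Tendsto (x ∘ k) atTop (𝓝 a) := hxa.comp hk.tendsto_atTop
      refine ⟨b, ?_, ?_⟩
      · rintro rfl
        set P := (hstrict b).toOpenPartialHomeomorph φ with hP
        have hPs : P.source ∈ 𝓝 b :=
          P.open_source.mem_nhds (hstrict b).mem_toOpenPartialHomeomorph_source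
        have h1 := hxa'.eventually hPs
        have h2 := hkb.eventually hPs
        obtain ⟨n, hn1, hn2⟩ := (h1.and h2).exists
        have h3 : φ (y (k n)) = φ (x (k n)) := hy (k n)
        exact hyx (k n) (P.injOn hn2 hn1 h3)
      · have h1 : Tendsto (fun n => φ (y (k n))) atTop (𝓝 (φ b)) := (hcont.tendsto b).comp hkb
        have h2 : Tendsto (fun n => φ (x (k n))) atTop (𝓝 (φ a)) := (hcont.tendsto a).comp hxa'
        have h3 : (fun n => φ (y (k n))) = fun n => φ (x (k n)) := by
          funext n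
          exact hy _
        rw [h3] at h1
        exact tendsto_nhds_unique h1 h2
    have hNne : N ≠ Set.univ := by
      intro huniv
      obtain ⟨K, hK⟩ := ((isCompact_closedBall (0 : E4) R).image hcont).isBounded.exists_norm_le
      set x : E4 := EuclideanSpace.single 0 (|R| + |K| + 1) with hx
      have hxn : ‖x‖ = |R| + |K| + 1 := by
        rw [hx, PiLp.norm_single, Real.norm_of_nonneg (by positivity)]
      have hxN : x ∈ N := by rw [huniv]; trivial
      obtain ⟨y, hyx, hy⟩ := hxN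
      have hφx : φ x = x := hR x (by rw [hxn]; linarith [le_abs_self R, abs_nonneg K])
      rw [hφx] at hy
      rcases le_total ‖y‖ R with h | h
      · have := hK (φ y) ⟨y, by simpa using h, rfl⟩
        rw [hy, hxn] at this
        linarith [le_abs_self K, abs_nonneg R]
      · rw [hR y h] at hy
        exact hyx hy
    have hNempty : N = ∅ := by
      rcases isClopen_iff.1 ⟨hNclosed, hNopen⟩ with h | h
      · exact h
      · exact absurd h hNne
    intro x y hxy
    by_contra hne
    have : y ∈ N := ⟨x, hne, hxy⟩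
    rw [hNempty] at this
    exact this
  -- conclusion
  let H : E4 ≃ₜ E4 := (Equiv.ofBijective φ ⟨hinj', hsurj⟩).toHomeomorphOfContinuousOpen hcont hopen
  have hH : ∀ x, H x = φ x := fun x => rfl
  refine ⟨H.symm, ?_, fun x => ?_, fun y => ?_⟩
  · refine H.contDiff_symm (f₀' := e) (fun a => ?_) ?_
    · exact (hstrict a).hasFDerivAt
    · exact hφ
  · rw [← hH, H.symm_apply_apply]
  · rw [← hH, H.apply_symm_apply]

/-- The derivative of the average is the average of the derivative. -/
theorem fderiv_MM {f : E4 → E4} (hf : ContDiff ℝ (⊤ : ℕ∞) f) (s : ℝ) (x v : E4) :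
    fderiv ℝ (MM f s) x v = (π ^ 2 / 2)⁻¹ • ∫ h in ball (0 : E4) 1, fderiv ℝ f (x + s • h) v := by
  have hfc := hf.continuous
  have hdc : Continuous (fderiv ℝ f) := hf.continuous_fderiv (by simp)
  have hc : Continuous fun p : E4 × E4 => fderiv ℝ f (p.1 + s • p.2) :=
    hdc.comp (by fun_prop)
  obtain ⟨B, hB⟩ := (((isCompact_closedBall x 1).prod (isCompact_closedBall (0 : E4) 1)).image
    hc).isBounded.exists_norm_le
  have hint : ∀ z : E4, Integrable (fun h => f (z + s • h)) (volume.restrict (ball (0 : E4) 1)) :=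
    fun z => ((hfc.comp (by fun_prop : Continuous fun h : E4 => z + s • h)).continuousOn.integrableOn_compact
      (isCompact_closedBall (0 : E4) 1)).mono_set ball_subset_closedBall
  have hint' : Integrable (fun h => fderiv ℝ f (x + s • h)) (volume.restrict (ball (0 : E4) 1)) :=
    ((hdc.comp (by fun_prop : Continuous fun h : E4 => x + s • h)).continuousOn.integrableOn_compact
      (isCompact_closedBall (0 : E4) 1)).mono_set ball_subset_closedBall
  have h1 := hasFDerivAt_integral_of_dominated_of_fderiv_le (𝕜 := ℝ)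
    (μ := volume.restrict (ball (0 : E4) 1)) (F := fun z h => f (z + s • h))
    (F' := fun z h => fderiv ℝ f (z + s • h)) (x₀ := x) (bound := fun _ => B)
    (s := ball x 1) (ball_mem_nhds x one_pos)
    (Eventually.of_forall fun z => (hint z).aestronglyMeasurable) (hint x)
    hint'.aestronglyMeasurable
    ((ae_restrict_iff' measurableSet_ball).2 (Eventually.of_forall fun h hh z hz =>
      hB _ ⟨(z, h), ⟨ball_subset_closedBall hz, ball_subset_closedBall hh⟩, rfl⟩))
    (integrableOn_const (by exact measure_ball_lt_top.ne))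
    (Eventually.of_forall fun h z _ => by
      have h2 : HasFDerivAt (fun z : E4 => z + s • h) (ContinuousLinearMap.id ℝ E4) z :=
        (hasFDerivAt_id z).add_const _
      have h3 : HasFDerivAt f (fderiv ℝ f (z + s • h)) (z + s • h) :=
        ((hf.differentiable (by simp)) _).hasFDerivAt
      have h4 := h3.comp z h2
      rw [ContinuousLinearMap.comp_id] at h4
      exact h4)
  have h5 : HasFDerivAt (MM f s)
      ((π ^ 2 / 2)⁻¹ • ∫ h in ball (0 : E4) 1, fderiv ℝ f (x + s • h)) x :=
    h1.const_smul ((π ^ 2 / 2)⁻¹)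
  rw [h5.fderiv, _root_.smul_apply, ← ContinuousLinearMap.integral_apply hint']

/-- change of variables -/
theorem integral_ball_scale (g : E4 → E4) {s : ℝ} (hs : 0 < s) (x : E4) :
    ∫ h in ball (0 : E4) 1, g (x + s • h) = (s ^ 4)⁻¹ • ∫ u in ball x s, g u := by
  have h1 := Measure.setIntegral_comp_smul_of_pos (volume : Measure E4) (fun w => g (x + w))
    (ball (0 : E4) 1) hs
  rw [h1]
  have hfin : Module.finrank ℝ E4 = 4 := by simp
  rw [hfin]
  congr 1
  have h2 : s • ball (0 : E4) 1 = ball (0 : E4) s := by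
    rw [smul_unitBall_of_pos hs]
  rw [h2]
  have h := (measurePreserving_add_left (volume : Measure E4) x).setIntegral_preimage_emb
      (MeasurableEquiv.addLeft x).measurableEmbedding (fun u : E4 => g u) (ball x s)
  have hpre : ((fun u => x + u) ⁻¹' ball x s) = ball (0 : E4) s := by
    ext u; simp [dist_eq_norm]
  rw [hpre] at h
  exact h

/-- **Isotopy**, from the invertibility of the derivatives of the averages. -/
theorem isotopy_of_inj {f : E4 → E4} (hf : ContDiff ℝ (⊤ : ℕ∞) f) {R : ℝ}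
    (hR : ∀ x, R ≤ ‖x‖ → f x = x) (h0 : ∀ x v, fderiv ℝ f x v = 0 → v = 0)
    (hM : ∀ s : ℝ, 0 < s → ∀ x v, fderiv ℝ (MM f s) x v = 0 → v = 0) :
    ∃ (K : ℝ × E4 → E4) (R' : ℝ), 0 < R' ∧ ContDiff ℝ (⊤ : ℕ∞) K ∧
      (∀ t x, R' ≤ ‖x‖ → K (t, x) = x) ∧ (∀ x, K (0, x) = x) ∧ (∀ x, K (1, x) = f x) ∧
      ∀ t, ∃ ψ : E4 → E4, ContDiff ℝ (⊤ : ℕ∞) ψ ∧ (∀ x, ψ (K (t, x)) = x) ∧
        ∀ y, K (t, ψ y) = y := by
  have hfc : Continuous f := hf.continuous
  obtain ⟨W, hW0, hW⟩ := exists_displacement_bound hfc hR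
  set s1 : ℝ := 4 * W + 1 with hs1
  have hs1pos : 0 < s1 := by positivity
  let τ : ℝ → ℝ := fun t => Real.smoothTransition (2 * t)
  let σ : ℝ → ℝ := fun t => s1 * (1 - Real.smoothTransition (2 * t - 1))
  have hτ : ContDiff ℝ (⊤ : ℕ∞) τ :=
    Real.smoothTransition.contDiff.comp (contDiff_const.mul contDiff_id)
  have hσ : ContDiff ℝ (⊤ : ℕ∞) σ :=
    contDiff_const.mul (contDiff_const.sub
      (Real.smoothTransition.contDiff.comp ((contDiff_const.mul contDiff_id).sub contDiff_const)))
  have hσ0 : ∀ t, 0 ≤ σ t := by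
    intro t
    have := Real.smoothTransition.le_one (2 * t - 1)
    exact mul_nonneg hs1pos.le (by linarith)
  have hσ1 : ∀ t, σ t ≤ s1 := by
    intro t
    have := Real.smoothTransition.nonneg (2 * t - 1)
    calc σ t = s1 * (1 - Real.smoothTransition (2 * t - 1)) := rfl
      _ ≤ s1 * 1 := mul_le_mul_of_nonneg_left (by linarith) hs1pos.le
      _ = s1 := mul_one _
  let K : ℝ × E4 → E4 := fun p => p.2 + τ p.1 • (MM f (σ p.1) p.2 - p.2)
  have hKsmooth : ContDiff ℝ (⊤ : ℕ∞) K := by
    have hM : ContDiff ℝ (⊤ : ℕ∞) (fun p : ℝ × E4 => MM f (σ p.1) p.2) :=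
      (MM_contDiff hf).comp ((hσ.comp contDiff_fst).prodMk contDiff_snd)
    exact contDiff_snd.add ((hτ.comp contDiff_fst).smul (hM.sub contDiff_snd))
  have hfar : ∀ t x, |R| + s1 + 1 ≤ ‖x‖ → K (t, x) = x := by
    intro t x hx
    have : MM f (σ t) x = x := by
      apply MM_far hR
      rw [abs_of_nonneg (hσ0 t)]
      linarith [hσ1 t, le_abs_self R]
    show x + τ t • (MM f (σ t) x - x) = x
    rw [this, sub_self, smul_zero, add_zero]
  have hK_le : ∀ t, t ≤ 1 / 2 → ∀ x, K (t, x) = x + τ t • (MM f s1 x - x) := by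
    intro t ht x
    have : σ t = s1 := by
      show s1 * (1 - Real.smoothTransition (2 * t - 1)) = s1
      rw [Real.smoothTransition.zero_of_nonpos (by linarith)]
      ring
    show x + τ t • (MM f (σ t) x - x) = _
    rw [this]
  have hK_ge : ∀ t, 1 / 2 ≤ t → ∀ x, K (t, x) = MM f (σ t) x := by
    intro t ht x
    have : τ t = 1 := Real.smoothTransition.one_of_one_le (by linarith)
    show x + τ t • (MM f (σ t) x - x) = _
    rw [this, one_smul]
    abel
  refine ⟨K, |R| + s1 + 1, by positivity, hKsmooth, hfar, ?_, ?_, ?_⟩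
  · intro x
    rw [hK_le 0 (by norm_num)]
    have : τ 0 = 0 := Real.smoothTransition.zero_of_nonpos (by norm_num)
    rw [this, zero_smul, add_zero]
  · intro x
    rw [hK_ge 1 (by norm_num)]
    have : σ 1 = 0 := by
      show s1 * (1 - Real.smoothTransition (2 * 1 - 1)) = 0
      rw [Real.smoothTransition.one_of_one_le (by norm_num)]
      ring
    rw [this, MM_zero]
  · intro t
    have hsm : ContDiff ℝ (⊤ : ℕ∞) (fun x => K (t, x)) :=
      hKsmooth.comp (contDiff_const.prodMk contDiff_id)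
    rcases le_total t (1/2) with ht | ht
    · refine global_inverse (φ := fun x => K (t, x)) hsm (c := 1/2) (r := 1) (hfar t)
        (by norm_num) one_pos (fun x y _ => ?_)
      simp only [hK_le t ht]
      have hlarge := MM_large hfc hW0 hW hs1pos x y
      have hpi : 3 < π := Real.pi_gt_three
      have hcoef : (16 / 3) * W / (π * s1) ≤ 1 / 2 := by
        rw [div_le_iff₀ (by positivity)]
        have : 3 * s1 ≤ π * s1 := mul_le_mul_of_nonneg_right hpi.le hs1pos.le
        rw [hs1] at this ⊢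
        linarith
      have hh : ‖(MM f s1 x - x) - (MM f s1 y - y)‖ ≤ 1 / 2 * ‖x - y‖ :=
        hlarge.trans (mul_le_mul_of_nonneg_right hcoef (norm_nonneg _))
      have hτ0 : 0 ≤ τ t := Real.smoothTransition.nonneg _
      have hτ1 : τ t ≤ 1 := Real.smoothTransition.le_one _
      have e : (x + τ t • (MM f s1 x - x)) - (y + τ t • (MM f s1 y - y)) =
          (x - y) + τ t • ((MM f s1 x - x) - (MM f s1 y - y)) := by
        rw [smul_sub (τ t) (MM f s1 x - x)]
        abel
      rw [e]
      have h3 : ‖τ t • ((MM f s1 x - x) - (MM f s1 y - y))‖ ≤ 1 / 2 * ‖x - y‖ := by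
        rw [norm_smul, Real.norm_of_nonneg hτ0]
        calc τ t * ‖(MM f s1 x - x) - (MM f s1 y - y)‖
            ≤ 1 * (1 / 2 * ‖x - y‖) := mul_le_mul hτ1 hh (norm_nonneg _) zero_le_one
          _ = _ := one_mul _
      have h4 : ‖x - y‖ ≤ ‖(x - y) + τ t • ((MM f s1 x - x) - (MM f s1 y - y))‖ +
          ‖τ t • ((MM f s1 x - x) - (MM f s1 y - y))‖ := by
        calc ‖x - y‖ = ‖((x - y) + τ t • ((MM f s1 x - x) - (MM f s1 y - y))) -
              τ t • ((MM f s1 x - x) - (MM f s1 y - y))‖ := by congr 1; abel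
          _ ≤ _ := norm_sub_le _ _
      linarith
    · refine global_inverse_imm (φ := fun x => K (t, x)) hsm (hfar t) ?_
      have e : (fun x => K (t, x)) = MM f (σ t) := by
        funext x
        exact hK_ge t ht x
      rw [e]
      rcases eq_or_lt_of_le (hσ0 t) with h1 | h1
      · have e2 : MM f (σ t) = f := by
          funext x
          rw [← h1, MM_zero]
        rw [e2]
        exact h0
      · exact hM _ h1

/-- The means of the derivative over all balls are injective. -/
def MeanInjective (f : E4 → E4) : Prop :=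
  ∀ (x : E4) (s : ℝ), 0 < s → ∀ v : E4, ∫ u in ball x s, fderiv ℝ f u v = 0 → v = 0

theorem fderiv_MM_eq_zero_iff {f : E4 → E4} (hf : ContDiff ℝ (⊤ : ℕ∞) f) {s : ℝ} (hs : 0 < s)
    (x v : E4) : fderiv ℝ (MM f s) x v = 0 ↔ ∫ u in ball x s, fderiv ℝ f u v = 0 := by
  rw [fderiv_MM hf, integral_ball_scale (fun u => fderiv ℝ f u v) hs x, smul_smul,
    smul_eq_zero]
  have : (π ^ 2 / 2)⁻¹ * (s ^ 4)⁻¹ ≠ 0 := by positivity
  exact ⟨fun h => h.resolve_left this, Or.inr⟩

theorem meanInjective_iff {f : E4 → E4} (hf : ContDiff ℝ (⊤ : ℕ∞) f) :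
    MeanInjective f ↔ ∀ s : ℝ, 0 < s → ∀ x v, fderiv ℝ (MM f s) x v = 0 → v = 0 := by
  have key : ∀ s : ℝ, 0 < s → ∀ x v, (fderiv ℝ (MM f s) x v = 0 ↔
      ∫ u in ball x s, fderiv ℝ f u v = 0) := by
    intro s hs x v
    exact fderiv_MM_eq_zero_iff hf hs x v
  constructor
  · intro h s hs x v hv
    exact h x s hs v ((key s hs x v).1 hv)
  · intro h x s hs v hv
    exact h s hs x v ((key s hs x v).2 hv)

/-- Bi-Lipschitz maps of distortion at most `√2`. -/
def SmallDistortion (f : E4 → E4) : Prop :=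
  ∃ a b : ℝ, 0 < a ∧ b ^ 2 ≤ 2 * a ^ 2 ∧
    ∀ u v, a * ‖u - v‖ ≤ ‖f u - f v‖ ∧ ‖f u - f v‖ ≤ b * ‖u - v‖

lemma inj_of_lower {φ : E4 → E4} (hφ : ContDiff ℝ (⊤ : ℕ∞) φ) {c r : ℝ} (hr : 0 < r) (hc : 0 < c)
    (hloc : ∀ x y, dist x y ≤ r → c * ‖x - y‖ ≤ ‖φ x - φ y‖) (x v : E4)
    (hv : fderiv ℝ φ x v = 0) : v = 0 := by
  have h := fderiv_lower hφ hr hloc x v
  rw [hv, norm_zero] at h
  have h2 : ‖v‖ ≤ 0 := by
    by_contra hcon
    push Not at hcon
    have := mul_pos hc hcon
    linarith
  exact norm_le_zero_iff.1 h2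

theorem MM_smooth {f : E4 → E4} (hf : ContDiff ℝ (⊤ : ℕ∞) f) (s : ℝ) :
    ContDiff ℝ (⊤ : ℕ∞) (MM f s) :=
  (MM_contDiff hf).comp (contDiff_const.prodMk contDiff_id)

theorem SmallDistortion.mean {f : E4 → E4} (hf : ContDiff ℝ (⊤ : ℕ∞) f) (h : SmallDistortion f) :
    MeanInjective f := by
  obtain ⟨a, b, ha, hab, hL⟩ := h
  rw [meanInjective_iff hf]
  intro s hs x v hv
  exact inj_of_lower (MM_smooth hf s) (c := a / π ^ 2) (r := s / 50) (by positivity)
    (by positivity) (fun x y hxy => MM_lower hf.continuous ha hab hs hxy fun u v _ _ => hL u v) x v hv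

theorem SmallDistortion.imm {f : E4 → E4} (hf : ContDiff ℝ (⊤ : ℕ∞) f) (h : SmallDistortion f)
    (x v : E4) (hv : fderiv ℝ f x v = 0) : v = 0 := by
  obtain ⟨a, b, ha, hab, hL⟩ := h
  exact inj_of_lower hf (c := a) (r := 1) one_pos ha (fun x y _ => (hL x y).1) x v hv

end Pool.Agent.Lib.P28b04d
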