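import Mathlib

set_option autoImplicit false

/-!
Definitions for the isotopy problem for diffeomorphisms of complex projective space,
in the model of the frozen statement S12917 (rank-one Hermitian projections).
-/

namespace Pool.Agent.P28b04d

/-- `CP^n` as the set of Hermitian idempotent `(n+1) × (n+1)` complex matrices of trace one
(for `n = 2` literally the set `X` of the frozen statement). -/
def CP (n : ℕ) : Set (Fin (n + 1) → Fin (n + 1) → ℂ) :=
  {P | (∀ i j, P j i = star (P i j)) ∧ (∀ i j, ∑ k, P i k * P k j = P i j) ∧ ∑ i, P i i = 1}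

/-- Squared Hermitian length. -/
noncomputable def nsq {n : ℕ} (z : Fin (n + 1) → ℂ) : ℝ := ∑ k, Complex.normSq (z k)

/-- The point `[z]` of `CP^n`: the orthogonal projection onto the line spanned by `z`. -/
noncomputable def pt {n : ℕ} (z : Fin (n + 1) → ℂ) : Fin (n + 1) → Fin (n + 1) → ℂ :=
  fun i j => z i * star (z j) / (nsq z : ℂ)

/-- `F` restricts to a self-map of `CP^n` that is smoothly isotopic to the identity through
diffeomorphisms: literally the conclusion of the frozen statement, for all `n`. -/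
def IsotopicToId (n : ℕ)
    (F : (Fin (n + 1) → Fin (n + 1) → ℂ) → (Fin (n + 1) → Fin (n + 1) → ℂ)) : Prop :=
  ∃ K : ℝ × (Fin (n + 1) → Fin (n + 1) → ℂ) → (Fin (n + 1) → Fin (n + 1) → ℂ),
    ContDiff ℝ (⊤ : ℕ∞) K ∧
    (∀ t : ℝ, ∀ P ∈ CP n, K (t, P) ∈ CP n) ∧
    (∀ P ∈ CP n, K (0, P) = P) ∧
    (∀ P ∈ CP n, K (1, P) = F P) ∧
    ∀ t : ℝ, ∃ L : (Fin (n + 1) → Fin (n + 1) → ℂ) → (Fin (n + 1) → Fin (n + 1) → ℂ),
      ContDiff ℝ (⊤ : ℕ∞) L ∧
      ∀ P ∈ CP n, L P ∈ CP n ∧ L (K (t, P)) = P ∧ K (t, L P) = P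

/-- A homogeneous lift: a map of `ℂ^(n+1)`, smooth (over `ℝ`) away from the origin and
homogeneous of degree one under complex scalars. -/
structure Lift {n : ℕ} (Φ : (Fin (n + 1) → ℂ) → (Fin (n + 1) → ℂ)) : Prop where
  smooth : ContDiffOn ℝ (⊤ : ℕ∞) Φ {0}ᶜ
  hom : ∀ (c : ℂ) (z : Fin (n + 1) → ℂ), Φ (c • z) = c • Φ z

/-- Two lifts are adjacent when no convex combination of their real derivatives at a nonzero
point is singular. -/
def Step {n : ℕ} (Φ Ψ : (Fin (n + 1) → ℂ) → (Fin (n + 1) → ℂ)) : Prop :=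
  Lift Φ ∧ Lift Ψ ∧ ∀ z : Fin (n + 1) → ℂ, z ≠ 0 → ∀ t : ℝ, 0 ≤ t → t ≤ 1 →
    ∀ v : Fin (n + 1) → ℂ, (1 - t) • fderiv ℝ Φ z v + t • fderiv ℝ Ψ z v = 0 → v = 0

/-- A lift whose real derivative is positive definite at every nonzero point. -/
def PosLift {n : ℕ} (Θ : (Fin (n + 1) → ℂ) → (Fin (n + 1) → ℂ)) : Prop :=
  Lift Θ ∧ ∀ w : Fin (n + 1) → ℂ, w ≠ 0 → ∀ v : Fin (n + 1) → ℂ, v ≠ 0 →
    0 < (∑ k, star (v k) * fderiv ℝ Θ w v k).re

end Pool.Agent.P28b04d
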