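import Pool.Agent.Lib.P28b04d.Proj

set_option autoImplicit false

namespace Pool.Agent.P28b04d

open scoped ContDiff
open Set Filter Topology

variable {n : ℕ}

/-- cut-off: `0` for `x ≤ 1/(2(n+1))`, `1` for `x ≥ 1/(n+1)` -/
noncomputable def chi (n : ℕ) (x : ℝ) : ℝ := Real.smoothTransition (2 * (n + 1) * x - 1)

lemma chi_nonneg (x : ℝ) : 0 ≤ chi n x := Real.smoothTransition.nonneg _

lemma contDiff_chi : ContDiff ℝ ∞ (chi n) := by
  unfold chi
  exact Real.smoothTransition.contDiff.comp (by fun_prop)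

lemma chi_one {x : ℝ} (hx : 1 / ((n : ℝ) + 1) ≤ x) : chi n x = 1 := by
  apply Real.smoothTransition.one_of_one_le
  have hn : (0 : ℝ) < n + 1 := by positivity
  rw [div_le_iff₀ hn] at hx
  nlinarith

lemma chi_zero {x : ℝ} (hx : x ≤ 1 / (2 * ((n : ℝ) + 1))) : chi n x = 0 := by
  apply Real.smoothTransition.zero_of_nonpos
  have hn : (0 : ℝ) < n + 1 := by positivity
  rw [le_div_iff₀ (by positivity)] at hx
  nlinarith

/-- sum of the cut-offs of the diagonal entries -/
noncomputable def Ssum (P : Fin (n + 1) → Fin (n + 1) → ℂ) : ℝ := ∑ j, chi n (P j j).re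

lemma Ssum_nonneg (P : Fin (n + 1) → Fin (n + 1) → ℂ) : 0 ≤ Ssum P :=
  Finset.sum_nonneg fun _ _ => chi_nonneg _

lemma contDiff_diag (j : Fin (n + 1)) :
    ContDiff ℝ ∞ (fun P : Fin (n + 1) → Fin (n + 1) → ℂ => (P j j).re) := by
  have h1 : ContDiff ℝ ∞ (fun P : Fin (n + 1) → Fin (n + 1) → ℂ => P j) := contDiff_apply _ _ j
  have h2 : ContDiff ℝ ∞ (fun z : Fin (n + 1) → ℂ => z j) := contDiff_apply _ _ j
  exact Complex.reCLM.contDiff.comp (h2.comp h1)

lemma contDiff_col (j : Fin (n + 1)) :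
    ContDiff ℝ ∞ (fun P : Fin (n + 1) → Fin (n + 1) → ℂ => col P j) := by
  rw [contDiff_pi]
  intro i
  have h1 : ContDiff ℝ ∞ (fun P : Fin (n + 1) → Fin (n + 1) → ℂ => P i) := contDiff_apply _ _ i
  have h2 : ContDiff ℝ ∞ (fun z : Fin (n + 1) → ℂ => z j) := contDiff_apply _ _ j
  exact h2.comp h1

lemma contDiff_Ssum : ContDiff ℝ ∞ (fun P : Fin (n + 1) → Fin (n + 1) → ℂ => Ssum P) :=
  ContDiff.sum fun j _ => contDiff_chi.comp (contDiff_diag j)

/-- positive denominator, equal to `Ssum` where `Ssum ≥ 1` -/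
noncomputable def Sden (P : Fin (n + 1) → Fin (n + 1) → ℂ) : ℝ :=
  Ssum P + (1 - Real.smoothTransition (Ssum P))

lemma Sden_pos (P : Fin (n + 1) → Fin (n + 1) → ℂ) : 0 < Sden P := by
  unfold Sden
  rcases lt_or_ge (Ssum P) 1 with h | h
  · have := Real.smoothTransition.lt_one_of_lt_one h
    have := Ssum_nonneg P
    linarith
  · rw [Real.smoothTransition.one_of_one_le h]; linarith

lemma contDiff_Sden : ContDiff ℝ ∞ (fun P : Fin (n + 1) → Fin (n + 1) → ℂ => Sden P) := by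
  unfold Sden
  exact contDiff_Ssum.add (contDiff_const.sub (Real.smoothTransition.contDiff.comp contDiff_Ssum))

lemma one_le_Ssum {z : Fin (n + 1) → ℂ} (hz : z ≠ 0) : 1 ≤ Ssum (pt z) := by
  have h1 := sum_diag_pt hz
  obtain ⟨j, -, hj⟩ : ∃ j ∈ (Finset.univ : Finset (Fin (n + 1))),
      1 / ((n : ℝ) + 1) ≤ (pt z j j).re := by
    apply Finset.exists_le_of_sum_le (s := Finset.univ) ⟨0, Finset.mem_univ _⟩
    rw [h1]
    simp
    field_simp
    exact le_rfl
  calc (1 : ℝ) = chi n (pt z j j).re := (chi_one hj).symm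
    _ ≤ Ssum (pt z) := Finset.single_le_sum (f := fun j => chi n (pt z j j).re)
        (fun _ _ => chi_nonneg _) (Finset.mem_univ j)

lemma Sden_pt {z : Fin (n + 1) → ℂ} (hz : z ≠ 0) : Sden (pt z) = Ssum (pt z) := by
  unfold Sden
  rw [Real.smoothTransition.one_of_one_le (one_le_Ssum hz)]
  ring

/-- the smooth ambient extension of the family of maps of `CP^n` induced by a homogeneous family -/
noncomputable def ext (Λ : ℝ × (Fin (n + 1) → ℂ) → (Fin (n + 1) → ℂ))
    (q : ℝ × (Fin (n + 1) → Fin (n + 1) → ℂ)) : Fin (n + 1) → Fin (n + 1) → ℂ :=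
  (Sden q.2)⁻¹ • ∑ j, chi n (q.2 j j).re • pt (Λ (q.1, col q.2 j))

lemma ext_pt {Λ : ℝ × (Fin (n + 1) → ℂ) → (Fin (n + 1) → ℂ)}
    (hh : ∀ (t : ℝ) (c : ℂ) (z : Fin (n + 1) → ℂ), Λ (t, c • z) = c • Λ (t, z))
    (t : ℝ) {z : Fin (n + 1) → ℂ} (hz : z ≠ 0) : ext Λ (t, pt z) = pt (Λ (t, z)) := by
  unfold ext
  simp only
  have h1 : ∀ j, chi n (pt z j j).re • pt (Λ (t, col (pt z) j))
      = chi n (pt z j j).re • pt (Λ (t, z)) := by
    intro j
    by_cases hj : z j = 0
    · have : chi n (pt z j j).re = 0 := by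
        apply chi_zero
        rw [pt_diag, hj]
        simp
        positivity
      rw [this, zero_smul, zero_smul]
    · rw [col_pt, hh, pt_smul]
      exact div_ne_zero (by simpa using hj) (nsq_ne hz)
  rw [Finset.sum_congr rfl fun j _ => h1 j, ← Finset.sum_smul, Sden_pt hz, smul_smul]
  have : (Ssum (pt z))⁻¹ * ∑ j, chi n (pt z j j).re = 1 :=
    inv_mul_cancel₀ (lt_of_lt_of_le one_pos (one_le_Ssum hz)).ne'
  rw [this, one_smul]

lemma contDiff_ext {Λ : ℝ × (Fin (n + 1) → ℂ) → (Fin (n + 1) → ℂ)}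
    (hs : ContDiffOn ℝ ∞ Λ (univ ×ˢ {0}ᶜ))
    (hne : ∀ (t : ℝ) (z : Fin (n + 1) → ℂ), z ≠ 0 → Λ (t, z) ≠ 0) :
    ContDiff ℝ ∞ (ext Λ) := by
  unfold ext
  apply ContDiff.fun_smul
  · exact (contDiff_Sden.comp contDiff_snd).inv fun q => (Sden_pos q.2).ne'
  · refine ContDiff.sum fun j _ => ?_
    rw [contDiff_iff_contDiffAt]
    intro q
    rcases lt_or_ge 0 (q.2 j j).re with hq | hq
    · have hcol : col q.2 j ≠ 0 := by
        intro h
        have := congrFun h j
        simp only [col, Pi.zero_apply] at this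
        rw [this] at hq
        simp at hq
      have h1 : ContDiffAt ℝ ∞ (fun q : ℝ × (Fin (n + 1) → Fin (n + 1) → ℂ) =>
          chi n (q.2 j j).re) q :=
        ((contDiff_chi.comp (contDiff_diag j)).comp contDiff_snd).contDiffAt
      refine h1.fun_smul ?_
      have h2 : ContDiffAt ℝ ∞ (fun q : ℝ × (Fin (n + 1) → Fin (n + 1) → ℂ) =>
          (q.1, col q.2 j)) q :=
        (contDiff_fst.prodMk ((contDiff_col j).comp contDiff_snd)).contDiffAt
      have h3 : ContDiffAt ℝ ∞ Λ (q.1, col q.2 j) :=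
        hs.contDiffAt ((isOpen_univ.prod isOpen_compl_singleton).mem_nhds ⟨mem_univ _, hcol⟩)
      exact (contDiffAt_pt (hne _ _ hcol)).comp q (h3.comp q h2)
    · have h1 : ∀ᶠ q' : ℝ × (Fin (n + 1) → Fin (n + 1) → ℂ) in 𝓝 q,
          chi n (q'.2 j j).re • pt (Λ (q'.1, col q'.2 j)) = 0 := by
        have hc : ContinuousAt (fun q : ℝ × (Fin (n + 1) → Fin (n + 1) → ℂ) => (q.2 j j).re) q :=
          ((contDiff_diag j).continuous.comp continuous_snd).continuousAt
        have : (q.2 j j).re < 1 / (2 * ((n : ℝ) + 1)) := lt_of_le_of_lt hq (by positivity)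
        filter_upwards [hc.eventually_lt continuousAt_const this] with q' hq'
        rw [chi_zero hq'.le, zero_smul]
      exact (contDiffAt_const (c := 0)).congr_of_eventuallyEq h1

end Pool.Agent.P28b04d
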