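import Pool.Agent.Lib.P28b04d.Ext

set_option autoImplicit false

namespace Pool.Agent.P28b04d

open scoped ContDiff
open Set Filter Topology

variable {n : ℕ}

/-- a smooth complex-homogeneous map with injective derivative away from the origin -/
structure HLoc (f : (Fin (n + 1) → ℂ) → (Fin (n + 1) → ℂ)) : Prop where
  smooth : ContDiffOn ℝ ∞ f {0}ᶜ
  hom : ∀ (c : ℂ) (z : Fin (n + 1) → ℂ), f (c • z) = c • f z
  inj : ∀ z : Fin (n + 1) → ℂ, z ≠ 0 → ∀ v, fderiv ℝ f z v = 0 → v = 0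

/-- a smooth family of such maps -/
structure Fam (Λ : ℝ × (Fin (n + 1) → ℂ) → (Fin (n + 1) → ℂ)) : Prop where
  smooth : ContDiffOn ℝ ∞ Λ (univ ×ˢ {0}ᶜ)
  hom : ∀ (t : ℝ) (c : ℂ) (z : Fin (n + 1) → ℂ), Λ (t, c • z) = c • Λ (t, z)
  inj : ∀ (t : ℝ) (z : Fin (n + 1) → ℂ), z ≠ 0 → ∀ v, fderiv ℝ (fun w => Λ (t, w)) z v = 0 → v = 0

/-- an injective endomorphism of a finite-dimensional real space as a continuous equivalence -/
lemma exists_equiv {V : Type*} [NormedAddCommGroup V] [NormedSpace ℝ V] [FiniteDimensional ℝ V]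
    (D : V →L[ℝ] V) (h : ∀ v, D v = 0 → v = 0) : ∃ D' : V ≃L[ℝ] V, (D' : V →L[ℝ] V) = D := by
  have hinj : Function.Injective (D : V →ₗ[ℝ] V) := by
    intro a b hab
    have : D (a - b) = 0 := by
      rw [map_sub]; exact sub_eq_zero.2 hab
    exact sub_eq_zero.1 (h _ this)
  refine ⟨(LinearEquiv.ofInjectiveEndo (D : V →ₗ[ℝ] V) hinj).toContinuousLinearEquiv, ?_⟩
  ext v
  rfl

namespace Fam

variable {Λ : ℝ × (Fin (n + 1) → ℂ) → (Fin (n + 1) → ℂ)}

lemma contDiffAt (h : Fam Λ) (t : ℝ) {z : Fin (n + 1) → ℂ} (hz : z ≠ 0) :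
    ContDiffAt ℝ ∞ Λ (t, z) :=
  h.smooth.contDiffAt ((isOpen_univ.prod isOpen_compl_singleton).mem_nhds ⟨mem_univ _, hz⟩)

lemma zero (h : Fam Λ) (t : ℝ) : Λ (t, 0) = 0 := by
  have := h.hom t 0 0
  simpa using this

lemma hloc (h : Fam Λ) (t : ℝ) : HLoc (fun z => Λ (t, z)) where
  smooth := by
    intro z hz
    have h1 : ContDiffAt ℝ ∞ (fun z : Fin (n + 1) → ℂ => (t, z)) z := by fun_prop
    exact ((h.contDiffAt t hz).comp z h1).contDiffWithinAt
  hom := h.hom t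
  inj := h.inj t

end Fam

namespace HLoc

variable {f : (Fin (n + 1) → ℂ) → (Fin (n + 1) → ℂ)}

lemma contDiffAt (h : HLoc f) {z : Fin (n + 1) → ℂ} (hz : z ≠ 0) : ContDiffAt ℝ ∞ f z :=
  h.smooth.contDiffAt (isOpen_compl_singleton.mem_nhds hz)

lemma zero (h : HLoc f) : f 0 = 0 := by
  have := h.hom 0 0
  simpa using this

lemma ne (h : HLoc f) {z : Fin (n + 1) → ℂ} (hz : z ≠ 0) : f z ≠ 0 := by
  intro h0
  apply hz
  apply h.inj z hz z
  have hd : HasFDerivAt f (fderiv ℝ f z) z :=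
    ((h.contDiffAt hz).differentiableAt (by simp)).hasFDerivAt
  -- along the ray
  have h1 : HasDerivAt (fun s : ℝ => z + s • z) z 0 := by
    simpa using ((hasDerivAt_id (0 : ℝ)).smul_const z).const_add z
  have hd' : HasFDerivAt f (fderiv ℝ f z) (z + (0 : ℝ) • z) := by simpa using hd
  have h2 : HasDerivAt (fun s : ℝ => f (z + s • z)) (fderiv ℝ f z z) 0 :=
    hd'.comp_hasDerivAt (0 : ℝ) h1
  have h3 : (fun s : ℝ => f (z + s • z)) = fun _ => 0 := by
    funext s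
    have : z + s • z = ((1 + s : ℝ) : ℂ) • z := by
      ext i
      simp
      ring
    rw [this, h.hom, h0, smul_zero]
  rw [h3] at h2
  exact h2.unique (hasDerivAt_const _ _)

lemma ne_iff (h : HLoc f) (z : Fin (n + 1) → ℂ) : f z = 0 ↔ z = 0 :=
  ⟨fun h0 => by
    by_contra hz
    exact h.ne hz h0, fun h0 => by rw [h0, h.zero]⟩

end HLoc

lemma norm_hom {f : (Fin (n + 1) → ℂ) → (Fin (n + 1) → ℂ)}
    (hom : ∀ (c : ℂ) (z : Fin (n + 1) → ℂ), f (c • z) = c • f z)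
    {z : Fin (n + 1) → ℂ} (hz : z ≠ 0) :
    ∃ u : Fin (n + 1) → ℂ, ‖u‖ = 1 ∧ z = (‖z‖ : ℂ) • u ∧ ‖f z‖ = ‖z‖ * ‖f u‖ := by
  have hz' : ‖z‖ ≠ 0 := norm_ne_zero_iff.2 hz
  have hz'' : (‖z‖ : ℂ) ≠ 0 := by exact_mod_cast hz'
  have h1 : z = (‖z‖ : ℂ) • ((‖z‖ : ℂ)⁻¹ • z) := by
    rw [smul_smul, mul_inv_cancel₀ hz'', one_smul]
  refine ⟨(‖z‖ : ℂ)⁻¹ • z, ?_, h1, ?_⟩
  · rw [norm_smul, norm_inv, Complex.norm_real, norm_norm, inv_mul_cancel₀ hz']
  · conv_lhs => rw [h1]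
    rw [hom, norm_smul, Complex.norm_real, norm_norm]

lemma Fam.continuous {Λ : ℝ × (Fin (n + 1) → ℂ) → (Fin (n + 1) → ℂ)} (h : Fam Λ) :
    Continuous Λ := by
  rw [continuous_iff_continuousAt]
  rintro ⟨t, z⟩
  by_cases hz : z = 0
  · subst hz
    -- bound on a compact set
    have hK : IsCompact (Icc (t - 1) (t + 1) ×ˢ Metric.sphere (0 : Fin (n + 1) → ℂ) 1) :=
      isCompact_Icc.prod (isCompact_sphere _ _)
    have hc : ContinuousOn Λ (Icc (t - 1) (t + 1) ×ˢ Metric.sphere (0 : Fin (n + 1) → ℂ) 1) := by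
      apply h.smooth.continuousOn.mono
      rintro ⟨s, w⟩ ⟨-, hw⟩
      refine ⟨mem_univ _, ?_⟩
      simp only [mem_sphere_iff_norm, sub_zero] at hw
      intro h0
      rw [show w = 0 from h0] at hw
      simp at hw
    obtain ⟨M, hM⟩ := hK.exists_bound_of_continuousOn hc
    rw [Metric.continuousAt_iff]
    intro ε hε
    refine ⟨min 1 (ε / (|M| + 1)), lt_min one_pos (by positivity), ?_⟩
    rintro ⟨s, w⟩ hsw
    rw [h.zero t, dist_zero_right]
    rw [Prod.dist_eq, max_lt_iff] at hsw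
    obtain ⟨h1, h2⟩ := hsw
    simp only at h1 h2
    rw [dist_zero_right] at h2
    by_cases hw : w = 0
    · rw [hw, h.zero, norm_zero]; exact hε
    · obtain ⟨u, hu, hwu, hn⟩ := norm_hom (f := fun z => Λ (s, z)) (h.hom s) hw
      rw [hn]
      have h3 : ‖Λ (s, u)‖ ≤ M := by
        apply hM
        refine ⟨?_, by simpa using hu⟩
        have := lt_of_lt_of_le h1 (min_le_left _ _)
        rw [Real.dist_eq, abs_lt] at this
        constructor <;> linarith
      have h4 : ‖w‖ < ε / (|M| + 1) := lt_of_lt_of_le h2 (min_le_right _ _)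
      calc ‖w‖ * ‖Λ (s, u)‖ ≤ ‖w‖ * (|M| + 1) := by
            apply mul_le_mul_of_nonneg_left _ (norm_nonneg _)
            linarith [le_abs_self M]
        _ < ε / (|M| + 1) * (|M| + 1) := by
            apply mul_lt_mul_of_pos_right h4 (by positivity)
        _ = ε := by field_simp
  · exact (h.contDiffAt t hz).continuousAt

lemma Fam.of_hloc {f : (Fin (n + 1) → ℂ) → (Fin (n + 1) → ℂ)} (h : HLoc f) :
    Fam (fun q : ℝ × (Fin (n + 1) → ℂ) => f q.2) where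
  smooth := by
    rintro ⟨t, z⟩ ⟨-, hz⟩
    exact ((h.contDiffAt hz).comp (t, z) contDiffAt_snd).contDiffWithinAt
  hom := fun _ => h.hom
  inj := fun _ => h.inj

lemma HLoc.continuous {f : (Fin (n + 1) → ℂ) → (Fin (n + 1) → ℂ)} (h : HLoc f) :
    Continuous f := by
  have h1 := (Fam.of_hloc h).continuous
  exact h1.comp (by fun_prop : Continuous fun z : Fin (n + 1) → ℂ => ((0 : ℝ), z))

lemma HLoc.lower {f : (Fin (n + 1) → ℂ) → (Fin (n + 1) → ℂ)} (h : HLoc f) :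
    ∃ m : ℝ, 0 < m ∧ ∀ z, m * ‖z‖ ≤ ‖f z‖ := by
  have hne : (Metric.sphere (0 : Fin (n + 1) → ℂ) 1).Nonempty :=
    NormedSpace.sphere_nonempty.2 zero_le_one
  obtain ⟨u, hu, hmin⟩ := (isCompact_sphere (0 : Fin (n + 1) → ℂ) 1).exists_isMinOn hne
    (h.continuous.norm.continuousOn)
  have hu0 : u ≠ 0 := by
    intro h0
    simp [h0] at hu
  refine ⟨‖f u‖, norm_pos_iff.2 (h.ne hu0), fun z => ?_⟩
  by_cases hz : z = 0
  · simp [hz]
  · obtain ⟨w, hw, -, hn⟩ := norm_hom h.hom hz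
    rw [hn, mul_comm]
    apply mul_le_mul_of_nonneg_left _ (norm_nonneg _)
    exact hmin (by simpa using hw)

lemma HLoc.hasStrict {f : (Fin (n + 1) → ℂ) → (Fin (n + 1) → ℂ)} (h : HLoc f)
    {z : Fin (n + 1) → ℂ} (hz : z ≠ 0) :
    ∃ D : (Fin (n + 1) → ℂ) ≃L[ℝ] (Fin (n + 1) → ℂ),
      HasStrictFDerivAt f (D : (Fin (n + 1) → ℂ) →L[ℝ] (Fin (n + 1) → ℂ)) z := by
  obtain ⟨D, hD⟩ := exists_equiv (fderiv ℝ f z) (h.inj z hz)
  refine ⟨D, ?_⟩
  rw [hD]
  exact (h.contDiffAt hz).hasStrictFDerivAt (by simp)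

lemma HLoc.isProper {f : (Fin (n + 1) → ℂ) → (Fin (n + 1) → ℂ)} (h : HLoc f) :
    IsProperMap f := by
  rw [isProperMap_iff_tendsto_cocompact]
  refine ⟨h.continuous, ?_⟩
  obtain ⟨m, hm, hle⟩ := h.lower
  have h1 : Tendsto (fun z => m * ‖z‖) (cocompact (Fin (n + 1) → ℂ)) atTop :=
    (tendsto_norm_cocompact_atTop).const_mul_atTop hm
  have h2 : Tendsto (fun z => ‖f z‖) (cocompact (Fin (n + 1) → ℂ)) atTop :=
    tendsto_atTop_mono hle h1
  exact tendsto_cocompact_of_tendsto_dist_comp_atTop (0 : Fin (n + 1) → ℂ)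
    (by simpa [dist_zero_right] using h2)

lemma one_lt_rank' : 1 < Module.rank ℝ (Fin (n + 1) → ℂ) := by
  have h : Module.finrank ℝ (Fin (n + 1) → ℂ) = (n + 1) * 2 := by
    rw [Module.finrank_pi_fintype]
    simp
  have h2 : (1 : ℕ) < Module.finrank ℝ (Fin (n + 1) → ℂ) := by rw [h]; omega
  rw [← Module.finrank_eq_rank]
  exact_mod_cast h2

lemma HLoc.surjective {f : (Fin (n + 1) → ℂ) → (Fin (n + 1) → ℂ)} (h : HLoc f) :
    Function.Surjective f := by
  have hclosed : IsClosed (range f) := h.isProper.isClosedMap.isClosed_range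
  have hopen : IsOpen (f '' {0}ᶜ) := by
    rw [isOpen_iff_mem_nhds]
    rintro y ⟨z, hz, rfl⟩
    obtain ⟨D, hD⟩ := h.hasStrict hz
    rw [← hD.map_nhds_eq_of_equiv]
    exact image_mem_map (isOpen_compl_singleton.mem_nhds hz)
  have hconn : IsPreconnected ({0}ᶜ : Set (Fin (n + 1) → ℂ)) :=
    (isConnected_compl_singleton_of_one_lt_rank one_lt_rank' 0).isPreconnected
  have hsub : ({0}ᶜ : Set (Fin (n + 1) → ℂ)) ⊆ f '' {0}ᶜ := by
    apply IsPreconnected.subset_left_of_subset_union hopen hclosed.isOpen_compl _ _ _ hconn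
    · rw [disjoint_compl_right_iff_subset]
      exact image_subset_range _ _
    · intro y hy
      by_cases hr : y ∈ range f
      · left
        obtain ⟨z, rfl⟩ := hr
        refine ⟨z, ?_, rfl⟩
        intro h0
        apply hy
        rw [show z = 0 from h0]
        exact h.zero
      · exact Or.inr hr
    · obtain ⟨z, hz⟩ := exists_ne (0 : Fin (n + 1) → ℂ)
      exact ⟨f z, h.ne hz, z, hz, rfl⟩
  intro y
  by_cases hy : y = 0
  · exact ⟨0, by rw [h.zero, hy]⟩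
  · obtain ⟨z, -, hz⟩ := hsub hy
    exact ⟨z, hz⟩

/-- an injective `HLoc` map has an inverse of the same kind -/
lemma HLoc.exists_inverse {f : (Fin (n + 1) → ℂ) → (Fin (n + 1) → ℂ)} (h : HLoc f)
    (hinj : Function.Injective f) :
    ∃ g : (Fin (n + 1) → ℂ) → (Fin (n + 1) → ℂ), ContDiffOn ℝ ∞ g {0}ᶜ ∧
      (∀ (c : ℂ) (z : Fin (n + 1) → ℂ), g (c • z) = c • g z) ∧
      (∀ z, z ≠ 0 → g z ≠ 0) ∧ (∀ z, g (f z) = z) ∧ (∀ z, f (g z) = z) := by
  let e : (Fin (n + 1) → ℂ) ≃ (Fin (n + 1) → ℂ) := Equiv.ofBijective f ⟨hinj, h.surjective⟩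
  have he : ∀ z, e z = f z := fun _ => rfl
  have hl : ∀ z, e.symm (f z) = z := fun z => e.symm_apply_apply z
  have hr : ∀ z, f (e.symm z) = z := fun z => e.apply_symm_apply z
  have hne : ∀ z, z ≠ 0 → e.symm z ≠ 0 := by
    intro z hz h0
    apply hz
    rw [← hr z, h0, h.zero]
  refine ⟨e.symm, ?_, ?_, hne, hl, hr⟩
  · intro y hy
    apply ContDiffAt.contDiffWithinAt
    obtain ⟨D, hD⟩ := h.hasStrict (hne y hy)
    have hsm := h.contDiffAt (hne y hy)
    have h1 := hsm.to_localInverse hD.hasFDerivAt (by simp)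
    rw [hr y] at h1
    apply h1.congr_of_eventuallyEq
    -- the local inverse agrees with `e.symm` near `y`
    let φ := ContDiffAt.toOpenPartialHomeomorph f hsm hD.hasFDerivAt (by simp : (∞ : WithTop ℕ∞) ≠ 0)
    have hφ : ∀ z, φ z = f z := fun z => rfl
    have hmem : y ∈ φ.target := by
      have := φ.map_source (ContDiffAt.mem_toOpenPartialHomeomorph_source hsm hD.hasFDerivAt
        (by simp : (∞ : WithTop ℕ∞) ≠ 0))
      rw [hφ, hr y] at this
      exact this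
    filter_upwards [φ.open_target.mem_nhds hmem] with x hx
    apply hinj
    rw [hr x]
    exact (φ.right_inv hx).symm
  · intro c z
    apply hinj
    rw [hr, h.hom, hr]

end Pool.Agent.P28b04d
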