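import Pool.Agent.Lib.P28b04d.Conv

set_option autoImplicit false

namespace Pool.Agent.P28b04d

open scoped ContDiff
open Set Filter Topology

variable {n : ℕ}
  {K : ℝ × (Fin (n + 1) → Fin (n + 1) → ℂ) → (Fin (n + 1) → Fin (n + 1) → ℂ)}

lemma Iso.exists_step (h : Iso K) {t t' : ℝ}
    (hq : ∀ (z w v : Fin (n + 1) → ℂ) (γ : ℂ), ‖z‖ = 1 → w ≠ 0 →
      K (t, pt z) = pt w → hip z v = 0 → (γ, v) ≠ 0 → 0 < quad K t t' z w γ v) :
    ∃ Θ : (Fin (n + 1) → ℂ) → (Fin (n + 1) → ℂ), PosLift Θ ∧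
      ∀ z w : Fin (n + 1) → ℂ, z ≠ 0 → w ≠ 0 → K (t, pt z) = pt w →
        K (t', pt z) = pt (Θ w) := by
  obtain ⟨L, hL, hL2⟩ := h.inv t
  let Θ : (Fin (n + 1) → ℂ) → (Fin (n + 1) → ℂ) := fun w => act (K (t', L (pt w))) w
  have hf : ContDiffOn ℝ ∞ (fun w : Fin (n + 1) → ℂ => K (t', L (pt w))) {0}ᶜ := by
    intro w hw
    have h1 : ContDiffAt ℝ ∞ (fun w : Fin (n + 1) → ℂ => L (pt w)) w :=
      hL.contDiffAt.comp w (contDiffAt_pt hw)
    exact (h.smooth.contDiffAt.comp w (contDiffAt_const.prodMk h1)).contDiffWithinAt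
  have hlift : Lift Θ := by
    refine ⟨contDiffOn_act hf contDiffOn_id, ?_⟩
    intro c z
    by_cases hc : c = 0
    · subst hc
      simp only [Θ, zero_smul, act_zero]
    · simp only [Θ]
      rw [pt_smul hc, act_smul]
  have hpos : PosLift Θ := by
    refine ⟨hlift, ?_⟩
    intro w hw v hv
    -- the curve through `w`
    have hc : HasDerivAt (fun r : ℝ => w + r • v) v 0 := by
      simpa using ((hasDerivAt_id (0 : ℝ)).smul_const v).const_add w
    have hc0 : w + (0 : ℝ) • v = w := by simp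
    have hne : ∀ᶠ r in 𝓝 (0 : ℝ), w + r • v ≠ 0 :=
      eventually_ne hc.continuousAt (by simpa using hw)
    -- the source curve
    have hLpt : ContDiffAt ℝ ∞ (fun w : Fin (n + 1) → ℂ => L (pt w)) w :=
      hL.contDiffAt.comp w (contDiffAt_pt hw)
    have hR : HasDerivAt (fun r : ℝ => L (pt (w + r • v)))
        (fderiv ℝ (fun w : Fin (n + 1) → ℂ => L (pt w)) w v) 0 := by
      have h1 : HasFDerivAt (fun w : Fin (n + 1) → ℂ => L (pt w))
          (fderiv ℝ (fun w : Fin (n + 1) → ℂ => L (pt w)) w) (w + (0 : ℝ) • v) := by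
        rw [hc0]
        exact (hLpt.differentiableAt (by simp)).hasFDerivAt
      exact h1.comp_hasDerivAt (0 : ℝ) hc
    set y := fderiv ℝ (fun w : Fin (n + 1) → ℂ => L (pt w)) w v with hy
    have hmemR : ∀ᶠ r in 𝓝 (0 : ℝ), L (pt (w + r • v)) ∈ CP n := by
      filter_upwards [hne] with r hr
      exact (hL2 _ (pt_mem hr)).1
    obtain ⟨z0, hz0, hz0'⟩ := exists_pt (hL2 _ (pt_mem hw)).1
    obtain ⟨z, hz1, hzpt⟩ : ∃ z : Fin (n + 1) → ℂ, ‖z‖ = 1 ∧ L (pt w) = pt z := by
      have hn : ‖z0‖ ≠ 0 := norm_ne_zero_iff.2 hz0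
      have hn' : (‖z0‖ : ℂ)⁻¹ ≠ 0 := inv_ne_zero (by exact_mod_cast hn)
      refine ⟨(‖z0‖ : ℂ)⁻¹ • z0, ?_, ?_⟩
      · rw [norm_smul, norm_inv, Complex.norm_real, norm_norm, inv_mul_cancel₀ hn]
      · rw [pt_smul hn']; exact hz0'
    have hz : z ≠ 0 := by
      intro h0
      rw [h0] at hz1
      simp at hz1
    have hR0 : (fun r : ℝ => L (pt (w + r • v))) 0 = pt z := by simpa using hzpt
    have hvp : hip z (act y z) = 0 := curve_hip hR hmemR hz hR0
    have hζ : HasDerivAt (fun r : ℝ => act (L (pt (w + r • v))) z) (act y z) 0 := by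
      have h1 := hasDerivAt_act hR (hasDerivAt_const (0 : ℝ) z)
      rw [act_zero, add_zero] at h1
      exact h1
    have hζ0 : act (L (pt (w + (0 : ℝ) • v))) z = z := by
      rw [hc0, hzpt, act_pt_self hz]
    have hζne : ∀ᶠ r in 𝓝 (0 : ℝ), act (L (pt (w + r • v))) z ≠ 0 :=
      eventually_ne hζ.continuousAt (by rw [hζ0]; exact hz)
    have hKd : ∀ s : ℝ, HasDerivAt (fun r : ℝ => K (s, L (pt (w + r • v))))
        (dH K s z (act y z)) 0 := by
      intro s
      have h1 := hasDerivAt_Hf h.smooth s hζ (by rw [hζ0]; exact hz)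
      rw [hζ0] at h1
      apply h1.congr_of_eventuallyEq
      filter_upwards [hmemR, hζne] with r hr1 hr2
      rw [← eq_pt_act hr1 hr2]
    have hptd : HasDerivAt (fun r : ℝ => pt (w + r • v)) (dH K t z (act y z)) 0 := by
      apply (hKd t).congr_of_eventuallyEq
      filter_upwards [hne] with r hr
      exact ((hL2 _ (pt_mem hr)).2.2).symm
    have hvv : v = (hip w v / (nsq w : ℂ)) • w + act (dH K t z (act y z)) w := by
      have h3 := hasDerivAt_act hptd hc
      have h4 : HasDerivAt (fun r : ℝ => w + r • v)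
          (act (dH K t z (act y z)) ((fun r : ℝ => w + r • v) 0)
            + act ((fun r : ℝ => pt (w + r • v)) 0) v) 0 := by
        apply h3.congr_of_eventuallyEq
        filter_upwards [hne] with r hr
        exact (act_pt_self hr).symm
      have h5 := hc.unique h4
      simp only [hc0] at h5
      rw [act_pt] at h5
      exact h5.trans (add_comm _ _)
    have hΘd : fderiv ℝ Θ w v = act (dH K t' z (act y z)) w + act (K (t', pt z)) v := by
      have h1 : HasDerivAt (fun r : ℝ => Θ (w + r • v)) (fderiv ℝ Θ w v) 0 := by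
        have h2 : HasFDerivAt Θ (fderiv ℝ Θ w) (w + (0 : ℝ) • v) := by
          rw [hc0]
          exact ((hlift.contDiffAt hw).differentiableAt (by simp)).hasFDerivAt
        exact h2.comp_hasDerivAt (0 : ℝ) hc
      have h3 := hasDerivAt_act (hKd t') hc
      simp only [hc0, hzpt] at h3
      exact h1.unique h3
    have hquad := hq z w (act y z) (hip w v / (nsq w : ℂ)) hz1 hw (by
        rw [← hzpt]; exact (hL2 _ (pt_mem hw)).2.2) hvp (by
        intro h0
        rw [Prod.mk_eq_zero] at h0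
        apply hv
        rw [hvv, h0.1, h0.2, dH_zero, zero_smul, zero_add]
        funext i
        simp [act])
    have hvec : vec K t z w (hip w v / (nsq w : ℂ)) (act y z) = v := by
      unfold vec
      exact hvv.symm
    unfold quad at hquad
    rw [hvec, ← hΘd] at hquad
    exact hquad
  refine ⟨Θ, hpos, ?_⟩
  intro z w hz hw hzw
  have h1 : L (pt w) = pt z := by
    rw [← hzw]
    exact (hL2 _ (pt_mem hz)).2.1
  have h2 : Θ w ≠ 0 := hpos.hloc.ne hw
  have h3 : act (K (t', pt z)) w = Θ w := by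
    simp only [Θ]; rw [h1]
  have h4 := eq_pt_act (h.mem t' _ (pt_mem hz)) (v := w) (by rw [h3]; exact h2)
  rw [h3] at h4
  exact h4

/-- composition of a list of maps -/
def comp (l : List ((Fin (n + 1) → ℂ) → (Fin (n + 1) → ℂ))) :
    (Fin (n + 1) → ℂ) → (Fin (n + 1) → ℂ) := l.foldr (fun f g => f ∘ g) id

lemma HLoc.comp {f g : (Fin (n + 1) → ℂ) → (Fin (n + 1) → ℂ)} (hf : HLoc f) (hg : HLoc g) :
    HLoc (f ∘ g) where
  smooth := by
    intro z hz
    exact ((hf.contDiffAt (hg.ne hz)).comp z (hg.contDiffAt hz)).contDiffWithinAt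
  hom := by
    intro c z
    simp only [Function.comp_apply]
    rw [hg.hom, hf.hom]
  inj := by
    intro z hz v hv
    have h1 : fderiv ℝ (f ∘ g) z = (fderiv ℝ f (g z)).comp (fderiv ℝ g z) :=
      fderiv_comp z ((hf.contDiffAt (hg.ne hz)).differentiableAt (by simp))
        ((hg.contDiffAt hz).differentiableAt (by simp))
    rw [h1] at hv
    exact hg.inj z hz v (hf.inj _ (hg.ne hz) _ hv)

lemma hloc_id : HLoc (id : (Fin (n + 1) → ℂ) → (Fin (n + 1) → ℂ)) where
  smooth := contDiffOn_id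
  hom := fun _ _ => rfl
  inj := by
    intro z _ v hv
    simpa using hv

lemma hloc_comp (l : List ((Fin (n + 1) → ℂ) → (Fin (n + 1) → ℂ))) (hl : ∀ Θ ∈ l, PosLift Θ) :
    HLoc (comp l) := by
  induction l with
  | nil => exact hloc_id
  | cons Θ l ih =>
    exact (hl Θ (by simp)).hloc.comp (ih fun Θ' h => hl Θ' (by simp [h]))

lemma chain_comp (l : List ((Fin (n + 1) → ℂ) → (Fin (n + 1) → ℂ)))
    (hl : ∀ Θ ∈ l, PosLift Θ) :
    Relation.ReflTransGen Step (id : (Fin (n + 1) → ℂ) → (Fin (n + 1) → ℂ)) (comp l) := by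
  induction l with
  | nil => exact Relation.ReflTransGen.refl
  | cons Θ l ih =>
    have hl' : ∀ Θ' ∈ l, PosLift Θ' := fun Θ' h => hl Θ' (by simp [h])
    refine (ih hl').tail ?_
    have hg := hloc_comp l hl'
    have hΘ := hl Θ (by simp)
    have hf := hΘ.hloc
    have hfg := hf.comp hg
    refine ⟨⟨hg.smooth, hg.hom⟩, ⟨hfg.smooth, hfg.hom⟩, ?_⟩
    intro z hz t ht0 ht1 v hv
    have h1 : fderiv ℝ (comp (Θ :: l)) z = (fderiv ℝ Θ (comp l z)).comp (fderiv ℝ (comp l) z) :=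
      fderiv_comp z ((hf.contDiffAt (hg.ne hz)).differentiableAt (by simp))
        ((hg.contDiffAt hz).differentiableAt (by simp))
    rw [h1, ContinuousLinearMap.comp_apply] at hv
    by_contra hv0
    set x := fderiv ℝ (comp l) z v with hx
    have hx0 : x ≠ 0 := fun h0 => hv0 (hg.inj z hz v h0)
    have h2 := hΘ.2 (comp l z) (hg.ne hz) x hx0
    have h3 : (hip x ((1 - t) • x + t • fderiv ℝ Θ (comp l z) x)).re
        = (1 - t) * (hip x x).re
          + t * (∑ k, star (x k) * fderiv ℝ Θ (comp l z) x k).re := by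
      have h4 : hip x ((1 - t) • x + t • fderiv ℝ Θ (comp l z) x)
          = ((1 - t : ℝ) : ℂ) * hip x x
            + ((t : ℝ) : ℂ) * ∑ k, star (x k) * fderiv ℝ Θ (comp l z) x k := by
        simp only [hip, Finset.mul_sum, ← Finset.sum_add_distrib]
        refine Finset.sum_congr rfl fun k _ => ?_
        simp
        ring
      rw [h4, Complex.add_re, Complex.re_ofReal_mul, Complex.re_ofReal_mul]
    rw [hv] at h3
    have h5 : (hip x 0).re = 0 := by simp [hip]
    rw [h5] at h3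
    have h6 := hip_re_pos hx0
    have h7 : 0 ≤ (1 - t) * (hip x x).re := mul_nonneg (by linarith) h6.le
    have h8 : 0 ≤ t * (∑ k, star (x k) * fderiv ℝ Θ (comp l z) x k).re :=
      mul_nonneg ht0 h2.le
    rcases eq_or_lt_of_le ht0 with h9 | h9
    · rw [← h9] at h3
      simp at h3
      linarith
    · have := mul_pos h9 h2
      linarith

theorem Iso.exists_list (h : Iso K) : ∃ l : List ((Fin (n + 1) → ℂ) → (Fin (n + 1) → ℂ)),
    (∀ Θ ∈ l, PosLift Θ) ∧ ∀ z : Fin (n + 1) → ℂ, z ≠ 0 → K (1, pt z) = pt (comp l z) := by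
  obtain ⟨δ, hδ, hq⟩ := h.exists_delta
  obtain ⟨N, hN⟩ := exists_nat_gt (1 / δ)
  have hN0 : 0 < (N : ℝ) := lt_trans (by positivity) hN
  have key : ∀ i : ℕ, i ≤ N → ∃ l : List ((Fin (n + 1) → ℂ) → (Fin (n + 1) → ℂ)),
      (∀ Θ ∈ l, PosLift Θ) ∧
        ∀ z : Fin (n + 1) → ℂ, z ≠ 0 → K ((i : ℝ) / N, pt z) = pt (comp l z) := by
    intro i
    induction i with
    | zero =>
      intro _
      refine ⟨[], by simp, fun z hz => ?_⟩
      rw [Nat.cast_zero, zero_div, h.zero _ (pt_mem hz)]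
      rfl
    | succ i ih =>
      intro hi
      obtain ⟨l, hl, hl2⟩ := ih (by omega)
      have hi' : ((i : ℝ) + 1) ≤ N := by exact_mod_cast hi
      obtain ⟨Θ, hΘ, hΘ2⟩ := h.exists_step (t := (i : ℝ) / N) (t' := ((i + 1 : ℕ) : ℝ) / N) (by
        apply hq
        · positivity
        · rw [div_le_one hN0]; linarith
        · positivity
        · rw [div_le_one hN0]; push_cast; linarith
        · push_cast
          rw [← sub_div, show (i : ℝ) - (i + 1) = -1 by ring, abs_div, abs_neg, abs_one,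
            abs_of_pos hN0]
          rw [div_lt_iff₀ hδ] at hN
          rw [div_lt_iff₀ hN0]
          linarith)
      refine ⟨Θ :: l, ?_, ?_⟩
      · intro Θ' h'
        rcases List.mem_cons.1 h' with rfl | h''
        · exact hΘ
        · exact hl _ h''
      · intro z hz
        exact hΘ2 z (comp l z) hz ((hloc_comp l hl).ne hz) (hl2 z hz)
  obtain ⟨l, hl, hl2⟩ := key N le_rfl
  refine ⟨l, hl, fun z hz => ?_⟩
  rw [← hl2 z hz, div_self hN0.ne']

theorem main (n : ℕ)
    (F : (Fin (n + 1) → Fin (n + 1) → ℂ) → (Fin (n + 1) → Fin (n + 1) → ℂ)) :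
    List.TFAE [
      IsotopicToId n F,
      ∃ (A : (Fin (n + 1) → ℂ) ≃ₗ[ℂ] (Fin (n + 1) → ℂ)) (Φ : (Fin (n + 1) → ℂ) → (Fin (n + 1) → ℂ)),
        Relation.ReflTransGen Step A Φ ∧ ∀ z : Fin (n + 1) → ℂ, z ≠ 0 → F (pt z) = pt (Φ z),
      ∃ l : List ((Fin (n + 1) → ℂ) → (Fin (n + 1) → ℂ)), (∀ Θ ∈ l, PosLift Θ) ∧
        ∀ z : Fin (n + 1) → ℂ, z ≠ 0 → F (pt z) = pt (l.foldr (fun f g => f ∘ g) id z)] := by
  tfae_have 1 → 3 := by
    rintro ⟨K, h1, h2, h3, h4, h5⟩
    have hI : Iso K := ⟨h1, h2, h3, h5⟩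
    obtain ⟨l, hl, hl2⟩ := hI.exists_list
    exact ⟨l, hl, fun z hz => by rw [← h4 _ (pt_mem hz), hl2 z hz]; rfl⟩
  tfae_have 3 → 2 := by
    rintro ⟨l, hl, hl2⟩
    exact ⟨LinearEquiv.refl ℂ _, comp l, chain_comp l hl, hl2⟩
  tfae_have 2 → 1 := by
    rintro ⟨A, Φ, h1, h2⟩
    exact isotopic_of_chain A h1 h2
  tfae_finish

end Pool.Agent.P28b04d
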