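import Pool.Agent.Lib.P28b04d.Ball

/-!
# A global inverse function theorem

A smooth map of `ℝ⁴` which is the identity near infinity and satisfies a uniform local lower
Lipschitz bound is a diffeomorphism.
-/

open Metric Filter Topology

namespace Pool.Agent.Lib.P28b04d

lemma fderiv_lower {φ : E4 → E4} (hφ : ContDiff ℝ (⊤ : ℕ∞) φ) {c r : ℝ} (hr : 0 < r)
    (hloc : ∀ x y, dist x y ≤ r → c * ‖x - y‖ ≤ ‖φ x - φ y‖) (x v : E4) :
    c * ‖v‖ ≤ ‖fderiv ℝ φ x v‖ := by
  have hd : HasFDerivAt φ (fderiv ℝ φ x) x :=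
    (hφ.differentiable (by simp)).differentiableAt.hasFDerivAt
  have ht : Tendsto (fun n : ℕ => ‖(n : ℝ)‖) atTop atTop := by
    simpa using tendsto_natCast_atTop_atTop (R := ℝ)
  have hlim := (hd.lim v ht).norm
  refine ge_of_tendsto hlim ?_
  have hsmall : ∀ᶠ n : ℕ in atTop, ‖v‖ / r ≤ n :=
    (tendsto_natCast_atTop_atTop (R := ℝ)).eventually_ge_atTop _
  filter_upwards [hsmall, eventually_gt_atTop 0] with n hn hn0
  have hn0' : (0:ℝ) < n := by exact_mod_cast hn0
  have hdist : dist (x + (n:ℝ)⁻¹ • v) x ≤ r := by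
    rw [dist_eq_norm, add_sub_cancel_left, norm_smul, norm_inv, Real.norm_of_nonneg hn0'.le,
      inv_mul_le_iff₀ hn0']
    rwa [div_le_iff₀ hr] at hn
  have h := hloc _ _ hdist
  rw [add_sub_cancel_left, norm_smul, norm_inv, Real.norm_of_nonneg hn0'.le] at h
  rw [norm_smul, Real.norm_of_nonneg hn0'.le]
  calc c * ‖v‖ = n * (c * ((n:ℝ)⁻¹ * ‖v‖)) := by field_simp
    _ ≤ _ := mul_le_mul_of_nonneg_left h hn0'.le

theorem global_inverse {φ : E4 → E4} (hφ : ContDiff ℝ (⊤ : ℕ∞) φ) {R c r : ℝ}
    (hR : ∀ x, R ≤ ‖x‖ → φ x = x) (hc : 0 < c) (hr : 0 < r)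
    (hloc : ∀ x y, dist x y ≤ r → c * ‖x - y‖ ≤ ‖φ x - φ y‖) :
    ∃ ψ : E4 → E4, ContDiff ℝ (⊤ : ℕ∞) ψ ∧ (∀ x, ψ (φ x) = x) ∧ ∀ y, φ (ψ y) = y := by
  have hcont : Continuous φ := hφ.continuous
  -- the derivatives are isomorphisms
  have hinj : ∀ x, Function.Injective (fderiv ℝ φ x : E4 →ₗ[ℝ] E4) := by
    intro x
    rw [← LinearMap.ker_eq_bot, LinearMap.ker_eq_bot']
    intro v hv
    have h := fderiv_lower hφ hr hloc x v
    have hv' : fderiv ℝ φ x v = 0 := hv
    rw [hv', norm_zero] at h
    have h2 : ‖v‖ ≤ 0 := by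
      by_contra hcon
      push Not at hcon
      have := mul_pos hc hcon
      linarith
    exact norm_le_zero_iff.1 h2
  let e : E4 → (E4 ≃L[ℝ] E4) := fun x =>
    (LinearEquiv.ofInjectiveEndo (fderiv ℝ φ x : E4 →ₗ[ℝ] E4) (hinj x)).toContinuousLinearEquiv
  have he : ∀ x, ((e x : E4 ≃L[ℝ] E4) : E4 →L[ℝ] E4) = fderiv ℝ φ x := by
    intro x
    ext v
    rfl
  have hstrict : ∀ x, HasStrictFDerivAt φ ((e x : E4 ≃L[ℝ] E4) : E4 →L[ℝ] E4) x := by
    intro x
    rw [he]
    exact hφ.contDiffAt.hasStrictFDerivAt (by simp)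
  have hopen : IsOpenMap φ := isOpenMap_of_hasStrictFDerivAt_equiv hstrict
  -- surjectivity
  have hsurj : Function.Surjective φ := by
    rw [← Set.range_eq_univ]
    apply IsClopen.eq_univ _ (Set.range_nonempty φ)
    refine ⟨?_, hopen.isOpen_range⟩
    have hrange : Set.range φ = φ '' closedBall 0 R ∪ {x | R ≤ ‖x‖} := by
      ext y
      constructor
      · rintro ⟨x, rfl⟩
        rcases le_total ‖x‖ R with h | h
        · left
          exact ⟨x, by simpa using h, rfl⟩
        · right
          rw [Set.mem_ofPred_eq, hR x h]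
          exact h
      · rintro (⟨x, _, rfl⟩ | h)
        · exact ⟨x, rfl⟩
        · exact ⟨y, hR y h⟩
    rw [hrange]
    exact ((isCompact_closedBall 0 R).image hcont).isClosed.union
      (isClosed_le continuous_const continuous_norm)
  -- injectivity
  have hinj' : Function.Injective φ := by
    set N : Set E4 := {x | ∃ y, y ≠ x ∧ φ y = φ x} with hN
    have hNopen : IsOpen N := by
      rw [isOpen_iff_mem_nhds]
      rintro x ⟨y, hyx, hy⟩
      obtain ⟨U, W, hU, hW, hxU, hyW, hdisj⟩ := t2_separation hyx.symm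
      have h1 : φ '' W ∈ 𝓝 (φ x) := by
        rw [← hy]
        exact hopen.image_mem_nhds (hW.mem_nhds hyW)
      filter_upwards [hcont.continuousAt h1, hU.mem_nhds hxU] with x' hx' hx'U
      obtain ⟨y', hy'W, hy'⟩ := hx'
      refine ⟨y', ?_, hy'⟩
      rintro rfl
      exact Set.disjoint_left.1 hdisj hx'U hy'W
    have hNclosed : IsClosed N := by
      apply IsSeqClosed.isClosed
      intro x a hx hxa
      choose y hyx hy using hx
      have hφa : Tendsto (fun n => ‖φ (x n)‖) atTop (𝓝 ‖φ a‖) :=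
        ((hcont.tendsto a).comp hxa).norm
      obtain ⟨K, hK⟩ := hφa.bddAbove_range
      have hyb : ∀ n, y n ∈ closedBall (0 : E4) (max R K) := by
        intro n
        rw [mem_closedBall, dist_zero_right]
        rcases le_total ‖y n‖ R with h | h
        · exact h.trans (le_max_left _ _)
        · have h2 := hR _ h
          rw [hy n] at h2
          rw [← h2]
          exact (hK ⟨n, rfl⟩).trans (le_max_right _ _)
      obtain ⟨b, _, k, hk, hkb⟩ := (isCompact_closedBall (0 : E4) (max R K)).tendsto_subseq hyb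
      have hxa' : Tendsto (x ∘ k) atTop (𝓝 a) := hxa.comp hk.tendsto_atTop
      have hdist : ∀ n, r ≤ dist (x n) (y n) := by
        intro n
        by_contra hcon
        push Not at hcon
        have h := hloc _ _ hcon.le
        rw [hy n, sub_self, norm_zero] at h
        have h2 : ‖x n - y n‖ ≤ 0 := by
          by_contra hcon2
          push Not at hcon2
          have := mul_pos hc hcon2
          linarith
        exact hyx n (sub_eq_zero.1 (norm_le_zero_iff.1 h2)).symm
      have hab : r ≤ dist a b :=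
        ge_of_tendsto' (hxa'.dist hkb) (fun n => hdist (k n))
      refine ⟨b, ?_, ?_⟩
      · rintro rfl
        rw [dist_self] at hab
        linarith
      · have h1 : Tendsto (fun n => φ (y (k n))) atTop (𝓝 (φ b)) := (hcont.tendsto b).comp hkb
        have h2 : Tendsto (fun n => φ (x (k n))) atTop (𝓝 (φ a)) := (hcont.tendsto a).comp hxa'
        have h3 : (fun n => φ (y (k n))) = fun n => φ (x (k n)) := by
          funext n
          exact hy _
        rw [h3] at h1
        exact tendsto_nhds_unique h1 h2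
    have hNne : N ≠ Set.univ := by
      intro huniv
      obtain ⟨K, hK⟩ := ((isCompact_closedBall (0 : E4) R).image hcont).isBounded.exists_norm_le
      set x : E4 := EuclideanSpace.single 0 (|R| + |K| + 1) with hx
      have hxn : ‖x‖ = |R| + |K| + 1 := by
        rw [hx, PiLp.norm_single, Real.norm_of_nonneg (by positivity)]
      have hxN : x ∈ N := by rw [huniv]; trivial
      obtain ⟨y, hyx, hy⟩ := hxN
      have hφx : φ x = x := hR x (by rw [hxn]; linarith [le_abs_self R, abs_nonneg K])
      rw [hφx] at hy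
      rcases le_total ‖y‖ R with h | h
      · have := hK (φ y) ⟨y, by simpa using h, rfl⟩
        rw [hy, hxn] at this
        linarith [le_abs_self K, abs_nonneg R]
      · rw [hR y h] at hy
        exact hyx hy
    have hNempty : N = ∅ := by
      rcases isClopen_iff.1 ⟨hNclosed, hNopen⟩ with h | h
      · exact h
      · exact absurd h hNne
    intro x y hxy
    by_contra hne
    have : y ∈ N := ⟨x, hne, hxy⟩
    rw [hNempty] at this
    exact this
  -- conclusion
  let H : E4 ≃ₜ E4 := (Equiv.ofBijective φ ⟨hinj', hsurj⟩).toHomeomorphOfContinuousOpen hcont hopen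
  have hH : ∀ x, H x = φ x := fun x => rfl
  refine ⟨H.symm, ?_, fun x => ?_, fun y => ?_⟩
  · refine H.contDiff_symm (f₀' := e) (fun a => ?_) ?_
    · exact (hstrict a).hasFDerivAt
    · exact hφ
  · rw [← hH, H.symm_apply_apply]
  · rw [← hH, H.apply_symm_apply]

end Pool.Agent.Lib.P28b04d
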