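import Pool.Agent.Lib.P28b04d.Fam

set_option autoImplicit false

namespace Pool.Agent.P28b04d

open scoped ContDiff
open Set Filter Topology

variable {n : ℕ} {Λ : ℝ × (Fin (n + 1) → ℂ) → (Fin (n + 1) → ℂ)}

/-- the track of the family -/
def track (Λ : ℝ × (Fin (n + 1) → ℂ) → (Fin (n + 1) → ℂ))
    (q : ℝ × (Fin (n + 1) → ℂ)) : ℝ × (Fin (n + 1) → ℂ) := (q.1, Λ q)

lemma Fam.hasStrict_track (h : Fam Λ) (t : ℝ) {z : Fin (n + 1) → ℂ} (hz : z ≠ 0) :
    ∃ D : (ℝ × (Fin (n + 1) → ℂ)) ≃L[ℝ] (ℝ × (Fin (n + 1) → ℂ)),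
      HasStrictFDerivAt (track Λ)
        (D : (ℝ × (Fin (n + 1) → ℂ)) →L[ℝ] (ℝ × (Fin (n + 1) → ℂ))) (t, z) := by
  have hΛ := h.contDiffAt t hz
  have hΛs : HasStrictFDerivAt Λ (fderiv ℝ Λ (t, z)) (t, z) := hΛ.hasStrictFDerivAt (by simp)
  have hsm : HasStrictFDerivAt (track Λ)
      ((ContinuousLinearMap.fst ℝ ℝ (Fin (n + 1) → ℂ)).prod (fderiv ℝ Λ (t, z))) (t, z) :=
    HasStrictFDerivAt.prodMk hasStrictFDerivAt_fst hΛs
  obtain ⟨D, hD⟩ := exists_equiv
    ((ContinuousLinearMap.fst ℝ ℝ (Fin (n + 1) → ℂ)).prod (fderiv ℝ Λ (t, z))) (by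
      rintro ⟨τ, v⟩ h0
      rw [ContinuousLinearMap.prod_apply, Prod.mk_eq_zero] at h0
      obtain ⟨h1, h2⟩ := h0
      simp only [ContinuousLinearMap.coe_fst'] at h1
      subst h1
      have h3 : HasFDerivAt (fun w : Fin (n + 1) → ℂ => (t, w))
          (ContinuousLinearMap.inr ℝ ℝ (Fin (n + 1) → ℂ)) z := hasFDerivAt_prodMk_right t z
      have h4 : HasFDerivAt (fun w => Λ (t, w))
          ((fderiv ℝ Λ (t, z)).comp (ContinuousLinearMap.inr ℝ ℝ (Fin (n + 1) → ℂ))) z :=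
        hΛs.hasFDerivAt.comp z h3
      have h5 : v = 0 := by
        apply h.inj t z hz v
        rw [h4.fderiv]
        simpa using h2
      rw [h5]
      rfl)
  refine ⟨D, ?_⟩
  rw [hD]
  exact hsm

/-- points of non-injectivity form an open set of parameters -/
lemma Fam.isOpen_not_inj (h : Fam Λ) :
    IsOpen {t : ℝ | ¬ Function.Injective (fun z => Λ (t, z))} := by
  rw [isOpen_iff_mem_nhds]
  intro t ht
  simp only [Set.mem_ofPred_eq, Function.Injective, not_forall] at ht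
  obtain ⟨z, w, hzw, hne⟩ := ht
  have hz : z ≠ 0 := by
    rintro rfl
    apply hne
    rw [h.zero] at hzw
    exact (((h.hloc t).ne_iff w).1 hzw.symm).symm
  have hw : w ≠ 0 := by
    rintro rfl
    apply hne
    rw [h.zero] at hzw
    exact ((h.hloc t).ne_iff z).1 hzw
  obtain ⟨U, V, hU, hV, hzU, hwV, hUV⟩ := t2_separation hne
  obtain ⟨D1, hD1⟩ := h.hasStrict_track t hz
  obtain ⟨D2, hD2⟩ := h.hasStrict_track t hw
  have h1 : track Λ '' (univ ×ˢ U) ∈ 𝓝 (track Λ (t, z)) := by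
    rw [← hD1.map_nhds_eq_of_equiv]
    exact image_mem_map ((isOpen_univ.prod hU).mem_nhds ⟨mem_univ _, hzU⟩)
  have h2 : track Λ '' (univ ×ˢ V) ∈ 𝓝 (track Λ (t, w)) := by
    rw [← hD2.map_nhds_eq_of_equiv]
    exact image_mem_map ((isOpen_univ.prod hV).mem_nhds ⟨mem_univ _, hwV⟩)
  have heq : track Λ (t, w) = track Λ (t, z) := by
    simp only [track, hzw]
  rw [heq] at h2
  have h3 := inter_mem h1 h2
  have h4 : ContinuousAt (fun s : ℝ => (s, Λ (t, z))) t := by fun_prop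
  have h5 := h4 h3
  filter_upwards [h5] with s hs
  obtain ⟨⟨⟨s1, z'⟩, ⟨-, hz'⟩, e1⟩, ⟨⟨s2, w'⟩, ⟨-, hw'⟩, e2⟩⟩ := hs
  simp only [track, Prod.mk.injEq] at e1 e2
  obtain ⟨rfl, e1⟩ := e1
  obtain ⟨rfl, e2⟩ := e2
  intro hinj
  have : z' = w' := hinj (e1.trans e2.symm)
  subst this
  exact Set.disjoint_left.1 hUV hz' hw'

/-- points of non-injectivity form a closed set of parameters -/
lemma Fam.isClosed_not_inj (h : Fam Λ) :
    IsClosed {t : ℝ | ¬ Function.Injective (fun z => Λ (t, z))} := by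
  let S : Set ((Fin (n + 1) → ℂ) × (Fin (n + 1) → ℂ)) := Metric.sphere 0 1
  have : CompactSpace S := isCompact_iff_compactSpace.1 (isCompact_sphere _ _)
  let B : Set (ℝ × S) := {q | Λ (q.1, q.2.1.1) = Λ (q.1, q.2.1.2) ∧ q.2.1.1 ≠ q.2.1.2}
  have hB : IsClosed B := by
    rw [← isOpen_compl_iff, isOpen_iff_mem_nhds]
    rintro ⟨t, ⟨⟨z, w⟩, hzw⟩⟩ hq
    by_cases he : Λ (t, z) = Λ (t, w)
    · have hzw' : z = w := by
        by_contra hne
        exact hq ⟨he, hne⟩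
      subst hzw'
      have hz : z ≠ 0 := by
        rintro rfl
        simp [S, Prod.norm_def] at hzw
      obtain ⟨D, hD⟩ := h.hasStrict_track t hz
      let φ := hD.toOpenPartialHomeomorph
      have hφ : ∀ q, φ q = track Λ q := fun _ => rfl
      have hsrc : φ.source ∈ 𝓝 (t, z) :=
        φ.open_source.mem_nhds hD.mem_toOpenPartialHomeomorph_source
      have c1 : ContinuousAt (fun q : ℝ × S => (q.1, q.2.1.1)) (t, ⟨(z, z), hzw⟩) := by fun_prop
      have c2 : ContinuousAt (fun q : ℝ × S => (q.1, q.2.1.2)) (t, ⟨(z, z), hzw⟩) := by fun_prop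
      filter_upwards [c1 hsrc, c2 hsrc] with q h1 h2
      rintro ⟨h3, h4⟩
      apply h4
      have h5 : φ (q.1, q.2.1.1) = φ (q.1, q.2.1.2) := by
        simp only [hφ, track, h3]
      have := φ.injOn h1 h2 h5
      exact (Prod.mk.inj this).2
    · have c1 : Continuous (fun q : ℝ × S => Λ (q.1, q.2.1.1)) :=
        h.continuous.comp (by fun_prop)
      have c2 : Continuous (fun q : ℝ × S => Λ (q.1, q.2.1.2)) :=
        h.continuous.comp (by fun_prop)
      have ho : IsOpen {q : ℝ × S | Λ (q.1, q.2.1.1) ≠ Λ (q.1, q.2.1.2)} :=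
        isOpen_ne_fun c1 c2
      filter_upwards [ho.mem_nhds (show (t, (⟨(z, w), hzw⟩ : S)) ∈
        {q : ℝ × S | Λ (q.1, q.2.1.1) ≠ Λ (q.1, q.2.1.2)} from he)] with q h1
      rintro ⟨h3, -⟩
      exact h1 h3
  have hproj : IsClosed (Prod.fst '' B) := isClosedMap_fst_of_compactSpace _ hB
  convert hproj using 1
  ext t
  constructor
  · intro ht
    simp only [Set.mem_ofPred_eq, Function.Injective, not_forall] at ht
    obtain ⟨z, w, hzw, hne⟩ := ht
    have hne0 : (z, w) ≠ 0 := by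
      intro h0
      rw [Prod.mk_eq_zero] at h0
      exact hne (h0.1.trans h0.2.symm)
    have hN : ‖(z, w)‖ ≠ 0 := norm_ne_zero_iff.2 hne0
    have hN' : (‖(z, w)‖ : ℂ) ≠ 0 := by exact_mod_cast hN
    refine ⟨(t, ⟨((‖(z, w)‖ : ℂ)⁻¹ • z, (‖(z, w)‖ : ℂ)⁻¹ • w), ?_⟩), ⟨?_, ?_⟩, rfl⟩
    · simp only [S, mem_sphere_iff_norm, sub_zero]
      rw [← Prod.smul_mk, norm_smul, norm_inv, Complex.norm_real, norm_norm, inv_mul_cancel₀ hN]
    · simp only
      rw [h.hom, h.hom]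
      exact congrArg _ hzw
    · simp only
      intro h0
      exact hne (smul_right_injective _ (inv_ne_zero hN') h0)
  · rintro ⟨⟨s, ⟨⟨z, w⟩, hzw⟩⟩, ⟨h1, h2⟩, rfl⟩
    simp only at h1 h2
    intro hinj
    exact h2 (hinj h1)

/-- injectivity propagates along the family -/
lemma Fam.injective (h : Fam Λ) {t0 : ℝ} (h0 : Function.Injective (fun z => Λ (t0, z)))
    (t : ℝ) : Function.Injective (fun z => Λ (t, z)) := by
  have hcl : IsClopen {t : ℝ | ¬ Function.Injective (fun z => Λ (t, z))} :=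
    ⟨h.isClosed_not_inj, h.isOpen_not_inj⟩
  rcases isClopen_iff.1 hcl with h1 | h1
  · by_contra ht
    have : t ∈ {t : ℝ | ¬ Function.Injective (fun z => Λ (t, z))} := ht
    rw [h1] at this
    exact this
  · have : t0 ∈ {t : ℝ | ¬ Function.Injective (fun z => Λ (t, z))} := by
      rw [h1]; exact mem_univ _
    exact absurd h0 this

theorem Fam.isotopic (h : Fam Λ) (h0 : ∀ z, Λ (0, z) = z)
    {F : (Fin (n + 1) → Fin (n + 1) → ℂ) → (Fin (n + 1) → Fin (n + 1) → ℂ)}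
    (h1 : ∀ z, z ≠ 0 → F (pt z) = pt (Λ (1, z))) : IsotopicToId n F := by
  have hne : ∀ (t : ℝ) (z : Fin (n + 1) → ℂ), z ≠ 0 → Λ (t, z) ≠ 0 :=
    fun t z hz => (h.hloc t).ne hz
  have hinj : ∀ t, Function.Injective (fun z => Λ (t, z)) := by
    apply h.injective (t0 := 0)
    intro z w hzw
    simpa [h0] using hzw
  refine ⟨ext Λ, contDiff_ext h.smooth hne, ?_, ?_, ?_, ?_⟩
  · intro t P hP
    obtain ⟨z, hz, rfl⟩ := exists_pt hP
    rw [ext_pt h.hom t hz]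
    exact pt_mem (hne t z hz)
  · intro P hP
    obtain ⟨z, hz, rfl⟩ := exists_pt hP
    rw [ext_pt h.hom 0 hz, h0]
  · intro P hP
    obtain ⟨z, hz, rfl⟩ := exists_pt hP
    rw [ext_pt h.hom 1 hz, h1 z hz]
  · intro t
    obtain ⟨g, hg1, hg2, hg3, hg4, hg5⟩ := (h.hloc t).exists_inverse (hinj t)
    have hsm : ContDiffOn ℝ ∞ (fun q : ℝ × (Fin (n + 1) → ℂ) => g q.2) (univ ×ˢ {0}ᶜ) := by
      rintro ⟨s, z⟩ ⟨-, hz⟩
      have : ContDiffAt ℝ ∞ g z := hg1.contDiffAt (isOpen_compl_singleton.mem_nhds hz)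
      exact (this.comp (s, z) contDiffAt_snd).contDiffWithinAt
    have hL : ContDiff ℝ ∞ (ext (fun q : ℝ × (Fin (n + 1) → ℂ) => g q.2)) :=
      contDiff_ext hsm fun _ z hz => hg3 z hz
    have hLpt : ∀ z : Fin (n + 1) → ℂ, z ≠ 0 →
        ext (fun q : ℝ × (Fin (n + 1) → ℂ) => g q.2) (0, pt z) = pt (g z) := fun z hz =>
      ext_pt (Λ := fun q : ℝ × (Fin (n + 1) → ℂ) => g q.2) (fun _ => hg2) 0 hz
    refine ⟨fun P => ext (fun q : ℝ × (Fin (n + 1) → ℂ) => g q.2) (0, P),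
      hL.comp (contDiff_prodMk_right 0), ?_⟩
    intro P hP
    obtain ⟨z, hz, rfl⟩ := exists_pt hP
    simp only
    refine ⟨?_, ?_, ?_⟩
    · rw [hLpt z hz]
      exact pt_mem (hg3 z hz)
    · rw [ext_pt h.hom t hz, hLpt _ (hne t z hz)]
      have := hg4 z
      rw [this]
    · rw [hLpt z hz, ext_pt h.hom t (hg3 z hz)]
      have := hg5 z
      rw [this]

end Pool.Agent.P28b04d
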