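import Pool.Agent.Lib.P28b04d.Avg
import Pool.Agent.Lib.P28b04d.Global

/-!
# The isotopy in `ℝ⁴`
-/

open MeasureTheory Metric Real

namespace Pool.Agent.Lib.P28b04d

lemma exists_displacement_bound {f : E4 → E4} (hf : Continuous f) {R : ℝ}
    (hR : ∀ x, R ≤ ‖x‖ → f x = x) : ∃ W : ℝ, 0 ≤ W ∧ ∀ x, ‖f x - x‖ ≤ W := by
  obtain ⟨K, hK⟩ := ((isCompact_closedBall (0 : E4) R).image
    (hf.sub continuous_id)).isBounded.exists_norm_le
  refine ⟨|K|, abs_nonneg K, fun x => ?_⟩
  rcases le_total ‖x‖ R with h | h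
  · exact (hK _ ⟨x, by simpa using h, rfl⟩).trans (le_abs_self K)
  · rw [hR x h, sub_self, norm_zero]
    exact abs_nonneg K

/-- **Isotopy.** -/
theorem isotopy_E4 {f : E4 → E4} (hf : ContDiff ℝ (⊤ : ℕ∞) f) {R : ℝ}
    (hR : ∀ x, R ≤ ‖x‖ → f x = x) {a b : ℝ} (ha : 0 < a) (hab : b ^ 2 ≤ 2 * a ^ 2)
    (h1 : ∀ u v, a * ‖u - v‖ ≤ ‖f u - f v‖) (h2 : ∀ u v, ‖f u - f v‖ ≤ b * ‖u - v‖) :
    ∃ (K : ℝ × E4 → E4) (R' : ℝ), 0 < R' ∧ ContDiff ℝ (⊤ : ℕ∞) K ∧
      (∀ t x, R' ≤ ‖x‖ → K (t, x) = x) ∧ (∀ x, K (0, x) = x) ∧ (∀ x, K (1, x) = f x) ∧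
      ∀ t, ∃ ψ : E4 → E4, ContDiff ℝ (⊤ : ℕ∞) ψ ∧ (∀ x, ψ (K (t, x)) = x) ∧
        ∀ y, K (t, ψ y) = y := by
  have hfc : Continuous f := hf.continuous
  obtain ⟨W, hW0, hW⟩ := exists_displacement_bound hfc hR
  set s1 : ℝ := 4 * W + 1 with hs1
  have hs1pos : 0 < s1 := by positivity
  let τ : ℝ → ℝ := fun t => Real.smoothTransition (2 * t)
  let σ : ℝ → ℝ := fun t => s1 * (1 - Real.smoothTransition (2 * t - 1))
  have hτ : ContDiff ℝ (⊤ : ℕ∞) τ :=
    Real.smoothTransition.contDiff.comp (contDiff_const.mul contDiff_id)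
  have hσ : ContDiff ℝ (⊤ : ℕ∞) σ :=
    contDiff_const.mul (contDiff_const.sub
      (Real.smoothTransition.contDiff.comp ((contDiff_const.mul contDiff_id).sub contDiff_const)))
  have hσ0 : ∀ t, 0 ≤ σ t := by
    intro t
    have := Real.smoothTransition.le_one (2 * t - 1)
    exact mul_nonneg hs1pos.le (by linarith)
  have hσ1 : ∀ t, σ t ≤ s1 := by
    intro t
    have := Real.smoothTransition.nonneg (2 * t - 1)
    calc σ t = s1 * (1 - Real.smoothTransition (2 * t - 1)) := rfl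
      _ ≤ s1 * 1 := mul_le_mul_of_nonneg_left (by linarith) hs1pos.le
      _ = s1 := mul_one _
  let K : ℝ × E4 → E4 := fun p => p.2 + τ p.1 • (MM f (σ p.1) p.2 - p.2)
  have hKsmooth : ContDiff ℝ (⊤ : ℕ∞) K := by
    have hM : ContDiff ℝ (⊤ : ℕ∞) (fun p : ℝ × E4 => MM f (σ p.1) p.2) :=
      (MM_contDiff hf).comp ((hσ.comp contDiff_fst).prodMk contDiff_snd)
    exact contDiff_snd.add ((hτ.comp contDiff_fst).smul (hM.sub contDiff_snd))
  have hfar : ∀ t x, |R| + s1 + 1 ≤ ‖x‖ → K (t, x) = x := by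
    intro t x hx
    have : MM f (σ t) x = x := by
      apply MM_far hR
      rw [abs_of_nonneg (hσ0 t)]
      linarith [hσ1 t, le_abs_self R]
    show x + τ t • (MM f (σ t) x - x) = x
    rw [this, sub_self, smul_zero, add_zero]
  have hK_le : ∀ t, t ≤ 1 / 2 → ∀ x, K (t, x) = x + τ t • (MM f s1 x - x) := by
    intro t ht x
    have : σ t = s1 := by
      show s1 * (1 - Real.smoothTransition (2 * t - 1)) = s1
      rw [Real.smoothTransition.zero_of_nonpos (by linarith)]
      ring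
    show x + τ t • (MM f (σ t) x - x) = _
    rw [this]
  have hK_ge : ∀ t, 1 / 2 ≤ t → ∀ x, K (t, x) = MM f (σ t) x := by
    intro t ht x
    have : τ t = 1 := Real.smoothTransition.one_of_one_le (by linarith)
    show x + τ t • (MM f (σ t) x - x) = _
    rw [this, one_smul]
    abel
  refine ⟨K, |R| + s1 + 1, by positivity, hKsmooth, hfar, ?_, ?_, ?_⟩
  · intro x
    rw [hK_le 0 (by norm_num)]
    have : τ 0 = 0 := Real.smoothTransition.zero_of_nonpos (by norm_num)
    rw [this, zero_smul, add_zero]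
  · intro x
    rw [hK_ge 1 (by norm_num)]
    have : σ 1 = 0 := by
      show s1 * (1 - Real.smoothTransition (2 * 1 - 1)) = 0
      rw [Real.smoothTransition.one_of_one_le (by norm_num)]
      ring
    rw [this, MM_zero]
  · intro t
    have hsm : ContDiff ℝ (⊤ : ℕ∞) (fun x => K (t, x)) :=
      hKsmooth.comp (contDiff_const.prodMk contDiff_id)
    rcases le_total t (1/2) with ht | ht
    · refine global_inverse (φ := fun x => K (t, x)) hsm (c := 1/2) (r := 1) (hfar t)
        (by norm_num) one_pos (fun x y _ => ?_)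
      simp only [hK_le t ht]
      have hlarge := MM_large hfc hW0 hW hs1pos x y
      have hpi : 3 < π := Real.pi_gt_three
      have hcoef : (16 / 3) * W / (π * s1) ≤ 1 / 2 := by
        rw [div_le_iff₀ (by positivity)]
        have : 3 * s1 ≤ π * s1 := mul_le_mul_of_nonneg_right hpi.le hs1pos.le
        rw [hs1] at this ⊢
        linarith
      have hh : ‖(MM f s1 x - x) - (MM f s1 y - y)‖ ≤ 1 / 2 * ‖x - y‖ :=
        hlarge.trans (mul_le_mul_of_nonneg_right hcoef (norm_nonneg _))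
      have hτ0 : 0 ≤ τ t := Real.smoothTransition.nonneg _
      have hτ1 : τ t ≤ 1 := Real.smoothTransition.le_one _
      have e : (x + τ t • (MM f s1 x - x)) - (y + τ t • (MM f s1 y - y)) =
          (x - y) + τ t • ((MM f s1 x - x) - (MM f s1 y - y)) := by
        rw [smul_sub (τ t) (MM f s1 x - x)]
        abel
      rw [e]
      have h3 : ‖τ t • ((MM f s1 x - x) - (MM f s1 y - y))‖ ≤ 1 / 2 * ‖x - y‖ := by
        rw [norm_smul, Real.norm_of_nonneg hτ0]
        calc τ t * ‖(MM f s1 x - x) - (MM f s1 y - y)‖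
            ≤ 1 * (1 / 2 * ‖x - y‖) := mul_le_mul hτ1 hh (norm_nonneg _) zero_le_one
          _ = _ := one_mul _
      have h4 : ‖x - y‖ ≤ ‖(x - y) + τ t • ((MM f s1 x - x) - (MM f s1 y - y))‖ +
          ‖τ t • ((MM f s1 x - x) - (MM f s1 y - y))‖ := by
        calc ‖x - y‖ = ‖((x - y) + τ t • ((MM f s1 x - x) - (MM f s1 y - y))) -
              τ t • ((MM f s1 x - x) - (MM f s1 y - y))‖ := by congr 1; abel
          _ ≤ _ := norm_sub_le _ _
      linarith
    · rcases eq_or_lt_of_le (hσ0 t) with h0 | h0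
      · refine global_inverse (φ := fun x => K (t, x)) hsm (c := a) (r := 1) (hfar t) ha one_pos
          (fun x y _ => ?_)
        simp only [hK_ge t ht]
        rw [← h0, MM_zero, MM_zero]
        exact h1 x y
      · refine global_inverse (φ := fun x => K (t, x)) hsm (c := a / π ^ 2) (r := σ t / 50)
          (hfar t) (by positivity) (by positivity) (fun x y hxy => ?_)
        simp only [hK_ge t ht]
        exact MM_lower hfc ha hab h0 hxy fun u v _ _ => ⟨h1 u v, h2 u v⟩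

end Pool.Agent.Lib.P28b04d
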