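import Pool.Agent.Lib.P28b04d.Ball

/-!
# The key estimate

If `φ : ℝ⁴ → ℝ⁴` satisfies `α |u - v| ≤ |φ u - φ v| ≤ β |u - v|` with `β² ≤ 2 α²` then the integrals
of `φ` over two unit balls with centres at distance `δ ≤ 1/50` differ by at least `α δ / 2`.
-/

open MeasureTheory Metric Real
open scoped ENNReal RealInnerProductSpace

namespace Pool.Agent.Lib.P28b04d

variable {A B : Set E4} {φ ψ : E4 → E4}

/-- the double integral of `|φ u - φ v|²` over `A × B`, expanded -/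
noncomputable def JJ (φ : E4 → E4) (A B : Set E4) : ℝ :=
  volume.real B * (∫ u in A, ‖φ u‖ ^ 2) + volume.real A * (∫ u in B, ‖φ u‖ ^ 2)
    - 2 * ⟪∫ u in A, φ u, ∫ u in B, φ u⟫

/-- integrability package -/
structure Nice (φ : E4 → E4) (A : Set E4) : Prop where
  fin : volume A ≠ ∞
  int1 : IntegrableOn φ A
  int2 : IntegrableOn (fun u => ‖φ u‖ ^ 2) A

lemma Nice.inner_int (h : Nice φ B) (w : E4) :
    IntegrableOn (fun v => ‖w - φ v‖ ^ 2) B ∧
      ∫ v in B, ‖w - φ v‖ ^ 2 =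
        volume.real B * ‖w‖ ^ 2 - 2 * ⟪w, ∫ v in B, φ v⟫ + ∫ v in B, ‖φ v‖ ^ 2 := by
  have e : (fun v => ‖w - φ v‖ ^ 2) = fun v => ‖w‖ ^ 2 - 2 * ⟪w, φ v⟫ + ‖φ v‖ ^ 2 := by
    funext v
    rw [@norm_sub_sq ℝ]
    simp
  have i1 : IntegrableOn (fun _ : E4 => ‖w‖ ^ 2) B := integrableOn_const (by exact h.fin)
  have i2 : IntegrableOn (fun v => ⟪w, φ v⟫) B := h.int1.const_inner w
  have i3 : IntegrableOn (fun v => 2 * ⟪w, φ v⟫) B := i2.const_mul 2
  have i4 : IntegrableOn (fun v => ‖w‖ ^ 2 - 2 * ⟪w, φ v⟫) B := i1.sub i3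
  rw [e]
  refine ⟨i4.add h.int2, ?_⟩
  rw [integral_add i4 h.int2, integral_sub i1 i3, integral_const_mul,
    integral_inner h.int1 w, setIntegral_const]
  rw [smul_eq_mul]

lemma JJ_eq (hA : Nice φ A) (hB : Nice φ B) :
    IntegrableOn (fun u => ∫ v in B, ‖φ u - φ v‖ ^ 2) A ∧
      ∫ u in A, ∫ v in B, ‖φ u - φ v‖ ^ 2 = JJ φ A B := by
  have e : (fun u => ∫ v in B, ‖φ u - φ v‖ ^ 2) = fun u =>
      volume.real B * ‖φ u‖ ^ 2 - 2 * ⟪φ u, ∫ v in B, φ v⟫ + ∫ v in B, ‖φ v‖ ^ 2 := by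
    funext u
    exact (hB.inner_int (φ u)).2
  have i1 : IntegrableOn (fun u => volume.real B * ‖φ u‖ ^ 2) A := hA.int2.const_mul _
  have i2 : IntegrableOn (fun u => ⟪φ u, ∫ v in B, φ v⟫) A := hA.int1.inner_const _
  have i3 : IntegrableOn (fun u => 2 * ⟪φ u, ∫ v in B, φ v⟫) A := i2.const_mul 2
  have i4 : IntegrableOn (fun _ : E4 => ∫ v in B, ‖φ v‖ ^ 2) A := integrableOn_const (by exact hA.fin)
  have i5 : IntegrableOn (fun u => volume.real B * ‖φ u‖ ^ 2 - 2 * ⟪φ u, ∫ v in B, φ v⟫) A :=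
    i1.sub i3
  rw [e]
  refine ⟨i5.add i4, ?_⟩
  rw [integral_add i5 i4, integral_sub i1 i3, integral_const_mul, integral_const_mul,
    setIntegral_const, smul_eq_mul, JJ]
  have : ∫ u in A, ⟪φ u, ∫ v in B, φ v⟫ = ⟪∫ u in A, φ u, ∫ v in B, φ v⟫ := by
    have h := integral_inner (𝕜 := ℝ) hA.int1 (∫ v in B, φ v)
    rw [real_inner_comm, ← h]
    congr 1
    funext u
    rw [real_inner_comm]
  rw [this]
  ring

lemma JJ_mono (mA : MeasurableSet A) (mB : MeasurableSet B) (hA : Nice φ A) (hB : Nice φ B)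
    (hA' : Nice ψ A) (hB' : Nice ψ B) {κ : ℝ}
    (h : ∀ u ∈ A, ∀ v ∈ B, ‖φ u - φ v‖ ^ 2 ≤ κ * ‖ψ u - ψ v‖ ^ 2) :
    JJ φ A B ≤ κ * JJ ψ A B := by
  obtain ⟨i1, e1⟩ := JJ_eq hA hB
  obtain ⟨i2, e2⟩ := JJ_eq hA' hB'
  rw [← e1, ← e2, ← integral_const_mul]
  apply setIntegral_mono_on i1 (i2.const_mul κ) mA
  intro u hu
  show ∫ v in B, ‖φ u - φ v‖ ^ 2 ≤ κ * ∫ v in B, ‖ψ u - ψ v‖ ^ 2
  rw [← integral_const_mul]
  apply setIntegral_mono_on (hB.inner_int (φ u)).1 ((hB'.inner_int (ψ u)).1.const_mul κ) mB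
  intro v hv
  exact h u hu v hv

lemma nice_of_continuous (hφ : Continuous φ) {R : ℝ}
    (hA : A ⊆ closedBall 0 R) : Nice φ A where
  fin := (lt_of_le_of_lt (measure_mono hA) measure_closedBall_lt_top).ne
  int1 := (hφ.continuousOn.integrableOn_compact (isCompact_closedBall 0 R)).mono_set hA
  int2 := ((hφ.norm.pow 2).continuousOn.integrableOn_compact (isCompact_closedBall 0 R)).mono_set hA

/-- the abstract estimate -/
theorem abstract_estimate (mA : MeasurableSet A) (mB : MeasurableSet B) (hA : Nice φ A)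
    (hB : Nice φ B) (hA' : Nice ψ A) (hB' : Nice ψ B) (hvol : volume.real A = volume.real B)
    {α β r : ℝ} (hαβ : β ^ 2 ≤ 2 * α ^ 2)
    (h1 : ∀ u ∈ A, ∀ v ∈ B, α ^ 2 * ‖ψ u - ψ v‖ ^ 2 ≤ ‖φ u - φ v‖ ^ 2)
    (h2 : ∀ u ∈ A, ∀ v ∈ A, ‖φ u - φ v‖ ^ 2 ≤ β ^ 2 * ‖ψ u - ψ v‖ ^ 2)
    (h3 : ∀ u ∈ B, ∀ v ∈ B, ‖φ u - φ v‖ ^ 2 ≤ β ^ 2 * ‖ψ u - ψ v‖ ^ 2)
    (hrA : ∀ u ∈ A, ‖ψ u‖ ^ 2 ≤ r) (hrB : ∀ u ∈ B, ‖ψ u‖ ^ 2 ≤ r) :
    α ^ 2 * ((3/2) * ‖(∫ u in A, ψ u) - ∫ u in B, ψ u‖ ^ 2 - 2 * (volume.real A) ^ 2 * r) ≤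
      ‖(∫ u in A, φ u) - ∫ u in B, φ u‖ ^ 2 := by
  set μ := volume.real A with hμ
  have hμ0 : 0 ≤ μ := measureReal_nonneg
  have k1 : α ^ 2 * JJ ψ A B ≤ JJ φ A B := by
    by_cases hα : α ^ 2 = 0
    · rw [hα, zero_mul, ← (JJ_eq hA hB).2]
      exact integral_nonneg fun u => integral_nonneg fun v => by positivity
    · have hα' : 0 < α ^ 2 := lt_of_le_of_ne (sq_nonneg α) (Ne.symm hα)
      have := JJ_mono (κ := (α ^ 2)⁻¹) mA mB hA' hB' hA hB (fun u hu v hv => by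
        have := h1 u hu v hv
        rw [inv_mul_eq_div, le_div_iff₀ hα']
        linarith)
      rw [inv_mul_eq_div, le_div_iff₀ hα'] at this
      linarith
  have hJAA : 0 ≤ JJ ψ A A := by
    rw [← (JJ_eq hA' hA').2]
    exact integral_nonneg fun u => integral_nonneg fun v => by positivity
  have hJBB : 0 ≤ JJ ψ B B := by
    rw [← (JJ_eq hB' hB').2]
    exact integral_nonneg fun u => integral_nonneg fun v => by positivity
  have k2 : JJ φ A A ≤ 2 * α ^ 2 * JJ ψ A A :=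
    (JJ_mono mA mA hA hA hA' hA' h2).trans
      (mul_le_mul_of_nonneg_right hαβ hJAA)
  have k3 : JJ φ B B ≤ 2 * α ^ 2 * JJ ψ B B :=
    (JJ_mono mB mB hB hB hB' hB' h3).trans
      (mul_le_mul_of_nonneg_right hαβ hJBB)
  -- bound of the second moments
  have sA : ∫ u in A, ‖ψ u‖ ^ 2 ≤ r * μ := by
    calc ∫ u in A, ‖ψ u‖ ^ 2 ≤ ∫ u in A, r :=
          setIntegral_mono_on hA'.int2 (integrableOn_const (by exact hA.fin)) mA hrA
      _ = r * μ := by rw [setIntegral_const, smul_eq_mul, mul_comm]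
  have sB : ∫ u in B, ‖ψ u‖ ^ 2 ≤ r * μ := by
    calc ∫ u in B, ‖ψ u‖ ^ 2 ≤ ∫ u in B, r :=
          setIntegral_mono_on hB'.int2 (integrableOn_const (by exact hB.fin)) mB hrB
      _ = r * μ := by rw [setIntegral_const, smul_eq_mul, mul_comm, ← hvol]
  unfold JJ at k1 k2 k3
  rw [← hvol] at k1 k3
  simp only [← hμ] at k1 k2 k3
  set SφA := ∫ u in A, ‖φ u‖ ^ 2
  set SφB := ∫ u in B, ‖φ u‖ ^ 2
  set SA := ∫ u in A, ‖ψ u‖ ^ 2
  set SB := ∫ u in B, ‖ψ u‖ ^ 2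
  set p := ∫ u in A, φ u
  set m := ∫ u in B, φ u
  set P := ∫ u in A, ψ u
  set Q := ∫ u in B, ψ u
  have e1 : ‖p - m‖ ^ 2 = ‖p‖ ^ 2 - 2 * ⟪p, m⟫ + ‖m‖ ^ 2 := by
    rw [@norm_sub_sq ℝ]; simp
  have e2 : ‖P - Q‖ ^ 2 = ‖P‖ ^ 2 - 2 * ⟪P, Q⟫ + ‖Q‖ ^ 2 := by
    rw [@norm_sub_sq ℝ]; simp
  have e3 : ‖P + Q‖ ^ 2 = ‖P‖ ^ 2 + 2 * ⟪P, Q⟫ + ‖Q‖ ^ 2 := by
    rw [@norm_add_sq ℝ]; simp
  rw [real_inner_self_eq_norm_sq, real_inner_self_eq_norm_sq] at k2 k3
  have hPQ : 0 ≤ ‖P + Q‖ ^ 2 := sq_nonneg _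
  have hα0 : 0 ≤ α ^ 2 := sq_nonneg α
  have t1 : 0 ≤ α ^ 2 * ‖P + Q‖ ^ 2 := mul_nonneg hα0 hPQ
  have t2 : α ^ 2 * (μ * SA) ≤ α ^ 2 * (μ * (r * μ)) :=
    mul_le_mul_of_nonneg_left (mul_le_mul_of_nonneg_left sA hμ0) hα0
  have t3 : α ^ 2 * (μ * SB) ≤ α ^ 2 * (μ * (r * μ)) :=
    mul_le_mul_of_nonneg_left (mul_le_mul_of_nonneg_left sB hμ0) hα0
  rw [e3] at t1
  rw [e1, e2]
  nlinarith [k1, k2, k3, t1, t2, t3]

/-- the integral of the identity (minus a constant) over a ball -/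
lemma integral_ball_id (x c : E4) (r : ℝ) :
    ∫ u in ball x r, (u - c) = volume.real (ball (0 : E4) r) • (x - c) := by
  have hodd : ∫ u in ball (0 : E4) r, u = 0 := by
    have h := (Measure.measurePreserving_neg (volume : Measure E4)).setIntegral_preimage_emb
      (MeasurableEquiv.neg E4).measurableEmbedding (fun u : E4 => u) (ball 0 r)
    have hpre : (Neg.neg ⁻¹' ball (0 : E4) r) = ball (0 : E4) r := by
      ext u; simp
    rw [hpre, integral_neg] at h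
    have h2 : (2:ℝ) • (∫ u in ball (0 : E4) r, u) = 0 := by
      rw [two_smul]
      nth_rewrite 1 [← h]
      exact neg_add_cancel _
    exact (smul_eq_zero.1 h2).resolve_left (by norm_num)
  have h1 : ∫ u in ball x r, (u - c) = ∫ u in ball (0 : E4) r, ((u + x) - c) := by
    have h := (measurePreserving_add_right (volume : Measure E4) x).setIntegral_preimage_emb
      (MeasurableEquiv.addRight x).measurableEmbedding (fun u : E4 => u - c) (ball x r)
    have hpre : ((fun u => u + x) ⁻¹' ball x r) = ball (0 : E4) r := by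
      ext u; simp [dist_eq_norm]
    rw [hpre] at h
    exact h.symm
  have i1 : IntegrableOn (fun u : E4 => u) (ball (0 : E4) r) :=
    (continuous_id.continuousOn.integrableOn_compact (isCompact_closedBall (0 : E4) r)).mono_set
      ball_subset_closedBall
  have i2 : IntegrableOn (fun _ : E4 => x - c) (ball (0 : E4) r) :=
    integrableOn_const (by exact measure_ball_lt_top.ne)
  have e : (fun u : E4 => (u + x) - c) = fun u => u + (x - c) := by
    funext u; abel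
  rw [h1, e, integral_add i1 i2, hodd, zero_add, setIntegral_const]

lemma real_vol_ball1 (x : E4) : volume.real (ball x 1) = π ^ 2 / 2 := by
  rw [Measure.real, vol_ball4]
  simp [ENNReal.toReal_ofReal, show (0:ℝ) ≤ π ^ 2 / 2 by positivity]

lemma real_vol_diff1 (x y : E4) : volume.real (ball x 1 \ ball y 1) ≤ dist x y * (π * 4 / 3) := by
  have h := vol_diff (s := 1) zero_le_one x y
  rw [ENNReal.ofReal_one, one_pow, one_mul, ← ENNReal.ofReal_mul dist_nonneg] at h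
  rw [Measure.real]
  exact ENNReal.toReal_le_of_le_ofReal (by positivity) h

/-- integrals over two balls and over the two parts of their symmetric difference -/
lemma integral_ball_sub {φ : E4 → E4} (hφ : Continuous φ) (x y : E4) :
    (∫ u in ball x 1, φ u) - ∫ u in ball y 1, φ u =
      (∫ u in ball x 1 \ ball y 1, φ u) - ∫ u in ball y 1 \ ball x 1, φ u := by
  have hi : ∀ z : E4, IntegrableOn φ (ball z 1) := fun z =>
    (hφ.continuousOn.integrableOn_compact (isCompact_closedBall z 1)).mono_set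
      ball_subset_closedBall
  have h1 : ∀ z w : E4, ∫ u in ball z 1, φ u =
      (∫ u in ball z 1 \ ball w 1, φ u) + ∫ u in ball z 1 ∩ ball w 1, φ u := by
    intro z w
    rw [add_comm]
    exact (integral_inter_add_sdiff measurableSet_ball (hi z)).symm
  rw [h1 x y, h1 y x, Set.inter_comm (ball y 1)]
  abel

/-- **Key estimate.** -/
theorem ball_estimate {φ : E4 → E4} (hφ : Continuous φ) {α β : ℝ} (hα : 0 < α)
    (hαβ : β ^ 2 ≤ 2 * α ^ 2) {x y : E4} (hxy : dist x y ≤ 1 / 50)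
    (h : ∀ u v, u ∈ (ball x 1 \ ball y 1) ∪ (ball y 1 \ ball x 1) →
      v ∈ (ball x 1 \ ball y 1) ∪ (ball y 1 \ ball x 1) →
      α * ‖u - v‖ ≤ ‖φ u - φ v‖ ∧ ‖φ u - φ v‖ ≤ β * ‖u - v‖) :
    α / 2 * ‖x - y‖ ≤ ‖(∫ u in ball x 1, φ u) - ∫ u in ball y 1, φ u‖ := by
  rcases eq_or_ne x y with rfl | hne
  · simp
  set δ := dist x y with hδ
  have hδ0 : 0 ≤ δ := dist_nonneg
  have hδn : ‖x - y‖ = δ := (dist_eq_norm x y).symm
  set c : E4 := (1/2 : ℝ) • (x + y) with hc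
  set A := ball x 1 \ ball y 1 with hA
  set B := ball y 1 \ ball x 1 with hB
  have mA : MeasurableSet A := measurableSet_ball.diff measurableSet_ball
  have mB : MeasurableSet B := measurableSet_ball.diff measurableSet_ball
  have hxc : ‖x - c‖ = δ / 2 := by
    have : x - c = (1/2 : ℝ) • (x - y) := by
      rw [hc, smul_add, smul_sub]
      have : x = (1/2 : ℝ) • x + (1/2 : ℝ) • x := by rw [← add_smul]; norm_num
      nth_rw 1 [this]
      abel
    rw [this, norm_smul, hδn]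
    norm_num
    ring
  have hyc : ‖y - c‖ = δ / 2 := by
    have : y - c = (1/2 : ℝ) • (y - x) := by
      rw [hc, smul_add, smul_sub]
      have : y = (1/2 : ℝ) • y + (1/2 : ℝ) • y := by rw [← add_smul]; norm_num
      nth_rw 1 [this]
      abel
    rw [this, norm_smul, norm_sub_rev, hδn]
    norm_num
    ring
  have hbd : ∀ z : E4, ‖z - c‖ = δ / 2 → ∀ u ∈ ball z 1, ‖u - c‖ ^ 2 ≤ (1 + δ / 2) ^ 2 := by
    intro z hz u hu
    rw [mem_ball, dist_eq_norm] at hu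
    have : ‖u - c‖ ≤ 1 + δ / 2 := by
      calc ‖u - c‖ = ‖(u - z) + (z - c)‖ := by congr 1; abel
        _ ≤ ‖u - z‖ + ‖z - c‖ := norm_add_le _ _
        _ ≤ 1 + δ / 2 := by rw [hz]; linarith
    exact pow_le_pow_left₀ (norm_nonneg _) this 2
  have hsub : ∀ z w : E4, ball z 1 \ ball w 1 ⊆ closedBall 0 (‖z‖ + 1) := by
    intro z w u hu
    have := hu.1
    rw [mem_ball, dist_eq_norm] at this
    rw [mem_closedBall, dist_zero_right]
    calc ‖u‖ = ‖(u - z) + z‖ := by congr 1; abel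
      _ ≤ ‖u - z‖ + ‖z‖ := norm_add_le _ _
      _ ≤ _ := by linarith
  have hψ : Continuous (fun u : E4 => u - c) := continuous_id.sub continuous_const
  have hvol : volume.real A = volume.real B := by
    have e1 := measureReal_inter_add_sdiff (μ := (volume : Measure E4)) (s := ball x 1)
      (t := ball y 1) measurableSet_ball (measure_ball_lt_top.ne)
    have e2 := measureReal_inter_add_sdiff (μ := (volume : Measure E4)) (s := ball y 1)
      (t := ball x 1) measurableSet_ball (measure_ball_lt_top.ne)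
    rw [real_vol_ball1] at e1 e2
    rw [Set.inter_comm] at e2
    linarith
  have hmain := abstract_estimate (φ := φ) (ψ := fun u => u - c) mA mB
    (nice_of_continuous hφ (hsub x y)) (nice_of_continuous hφ (hsub y x))
    (nice_of_continuous hψ (hsub x y)) (nice_of_continuous hψ (hsub y x)) hvol hαβ
    (fun u hu v hv => by
      have e : (u - c) - (v - c) = u - v := by abel
      rw [e, ← mul_pow]
      exact pow_le_pow_left₀ (by positivity) (h u v (Or.inl hu) (Or.inr hv)).1 2)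
    (fun u hu v hv => by
      have e : (u - c) - (v - c) = u - v := by abel
      rw [e, ← mul_pow]
      exact pow_le_pow_left₀ (norm_nonneg _) (h u v (Or.inl hu) (Or.inl hv)).2 2)
    (fun u hu v hv => by
      have e : (u - c) - (v - c) = u - v := by abel
      rw [e, ← mul_pow]
      exact pow_le_pow_left₀ (norm_nonneg _) (h u v (Or.inr hu) (Or.inr hv)).2 2)
    (fun u hu => hbd x hxc u hu.1) (fun u hu => hbd y hyc u hu.1)
  rw [← integral_ball_sub hψ, integral_ball_id, integral_ball_id, ← integral_ball_sub hφ,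
    real_vol_ball1, ← smul_sub] at hmain
  have e3 : x - c - (y - c) = x - y := by abel
  rw [e3, norm_smul, hδn, Real.norm_of_nonneg (by positivity)] at hmain
  have hμ := real_vol_diff1 x y
  rw [← hA] at hμ
  have hμ0 : 0 ≤ volume.real A := measureReal_nonneg
  set μ := volume.real A
  have hμ2 : μ ^ 2 ≤ (δ * (π * 4 / 3)) ^ 2 := pow_le_pow_left₀ hμ0 hμ 2
  have hpi1 : 3.1415 < π := Real.pi_gt_d4
  have hpi2 : 9.869 < π ^ 2 := by nlinarith
  have hπ0 : 0 < π ^ 2 := by positivity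
  have hr : (1 + δ / 2) ^ 2 ≤ 1.0201 := by nlinarith
  have hr0 : 0 ≤ (1 + δ / 2) ^ 2 := sq_nonneg _
  have k1 : 2 * μ ^ 2 * (1 + δ / 2) ^ 2 ≤ 2 * (δ * (π * 4 / 3)) ^ 2 * 1.0201 := by
    apply mul_le_mul _ hr hr0 (by positivity)
    linarith
  have k2 : (1/4) * δ ^ 2 ≤ 3 / 2 * (π ^ 2 / 2 * δ) ^ 2 - 2 * (δ * (π * 4 / 3)) ^ 2 * 1.0201 := by
    have e : 3 / 2 * (π ^ 2 / 2 * δ) ^ 2 - 2 * (δ * (π * 4 / 3)) ^ 2 * 1.0201 =
        δ ^ 2 * (π ^ 2 * (3 / 8 * π ^ 2 - 32 / 9 * 1.0201)) := by ring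
    rw [e]
    have h3 : 0.07 ≤ 3 / 8 * π ^ 2 - 32 / 9 * 1.0201 := by nlinarith
    have h4 : (1/4 : ℝ) ≤ π ^ 2 * (3 / 8 * π ^ 2 - 32 / 9 * 1.0201) := by nlinarith
    nlinarith [sq_nonneg δ]
  have k3 : α ^ 2 * ((1/4) * δ ^ 2) ≤
      ‖(∫ u in ball x 1, φ u) - ∫ u in ball y 1, φ u‖ ^ 2 := by
    refine le_trans ?_ hmain
    apply mul_le_mul_of_nonneg_left _ (sq_nonneg α)
    linarith
  rw [hδn]
  apply (sq_le_sq₀ (by positivity) (norm_nonneg _)).1
  calc (α / 2 * δ) ^ 2 = α ^ 2 * ((1/4) * δ ^ 2) := by ring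
    _ ≤ _ := k3

end Pool.Agent.Lib.P28b04d
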