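import Pool.Agent.Lib.P28b04d.Defs

set_option autoImplicit false

namespace Pool.Agent.P28b04d

open scoped ContDiff ComplexOrder

variable {n : ℕ}

lemma nsq_nonneg (z : Fin (n + 1) → ℂ) : 0 ≤ nsq z :=
  Finset.sum_nonneg fun _ _ => Complex.normSq_nonneg _

lemma nsq_pos {z : Fin (n + 1) → ℂ} (hz : z ≠ 0) : 0 < nsq z := by
  obtain ⟨i, hi⟩ := Function.ne_iff.1 hz
  exact Finset.sum_pos' (fun _ _ => Complex.normSq_nonneg _)
    ⟨i, Finset.mem_univ _, Complex.normSq_pos.2 hi⟩

lemma nsq_ne {z : Fin (n + 1) → ℂ} (hz : z ≠ 0) : (nsq z : ℂ) ≠ 0 := by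
  exact_mod_cast (nsq_pos hz).ne'

lemma nsq_eq (z : Fin (n + 1) → ℂ) : (nsq z : ℂ) = ∑ k, z k * star (z k) := by
  simp only [nsq, Complex.ofReal_sum]
  refine Finset.sum_congr rfl fun k _ => ?_
  rw [Complex.normSq_eq_conj_mul_self, mul_comm]
  rfl

lemma nsq_eq' (z : Fin (n + 1) → ℂ) : (nsq z : ℂ) = ∑ k, star (z k) * z k := by
  rw [nsq_eq]; exact Finset.sum_congr rfl fun _ _ => mul_comm _ _

lemma pt_mem {z : Fin (n + 1) → ℂ} (hz : z ≠ 0) : pt z ∈ CP n := by
  have h := nsq_ne hz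
  refine ⟨fun i j => ?_, fun i j => ?_, ?_⟩
  · simp only [pt, star_div₀, star_mul', star_star]
    rw [show star (nsq z : ℂ) = (nsq z : ℂ) from Complex.conj_ofReal _]
    ring
  · simp only [pt]
    have : ∀ k, z i * star (z k) / (nsq z : ℂ) * (z k * star (z j) / (nsq z : ℂ))
        = (z i * star (z j) / (nsq z : ℂ) ^ 2) * (star (z k) * z k) := fun k => by ring
    simp only [this, ← Finset.mul_sum]
    rw [← nsq_eq']
    field_simp
  · simp only [pt]
    rw [← Finset.sum_div, ← nsq_eq, div_self h]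

lemma nsq_smul (c : ℂ) (z : Fin (n + 1) → ℂ) : nsq (c • z) = Complex.normSq c * nsq z := by
  simp [nsq, Complex.normSq_mul, Finset.mul_sum]

lemma pt_smul {c : ℂ} (hc : c ≠ 0) (z : Fin (n + 1) → ℂ) : pt (c • z) = pt z := by
  funext i j
  simp only [pt, nsq_smul, Pi.smul_apply, smul_eq_mul, star_mul']
  have h : (Complex.normSq c : ℂ) = c * star c := by
    rw [Complex.normSq_eq_conj_mul_self, mul_comm]; rfl
  have hc' : star c ≠ 0 := by simpa using hc
  push_cast
  rw [h]
  by_cases h0 : (nsq z : ℂ) = 0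
  · simp [h0]
  · field_simp

/-- the `j`-th column of a matrix -/
def col (P : Fin (n + 1) → Fin (n + 1) → ℂ) (j : Fin (n + 1)) : Fin (n + 1) → ℂ :=
  fun i => P i j

lemma col_pt (z : Fin (n + 1) → ℂ) (j : Fin (n + 1)) :
    col (pt z) j = (star (z j) / (nsq z : ℂ)) • z := by
  funext i
  simp only [col, pt, Pi.smul_apply, smul_eq_mul]
  ring

lemma pt_diag (z : Fin (n + 1) → ℂ) (j : Fin (n + 1)) :
    pt z j j = ((Complex.normSq (z j) / nsq z : ℝ) : ℂ) := by
  simp only [pt]
  push_cast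
  rw [Complex.normSq_eq_conj_mul_self, mul_comm]; rfl

lemma sum_diag_pt {z : Fin (n + 1) → ℂ} (hz : z ≠ 0) :
    ∑ j, (pt z j j).re = 1 := by
  simp only [pt_diag, Complex.ofReal_re]
  rw [← Finset.sum_div]
  exact div_self (nsq_pos hz).ne'

/-- every element of `CP n` is the projection onto a nonzero column -/
lemma eq_pt {P : Fin (n + 1) → Fin (n + 1) → ℂ} (hP : P ∈ CP n) {j : Fin (n + 1)}
    (hj : P j j ≠ 0) : P = pt (col P j) := by
  obtain ⟨h1, h2, h3⟩ := hP
  have hN : (nsq (col P j) : ℂ) = P j j := by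
    rw [nsq_eq', ← h2 j j]
    refine Finset.sum_congr rfl fun k _ => ?_
    simp only [col]
    rw [← h1 k j]
  -- the difference matrix
  let Q : Matrix (Fin (n + 1)) (Fin (n + 1)) ℂ := fun a b => P a b - pt (col P j) a b
  have hpt : ∀ a b, pt (col P j) a b = P a j * P j b / P j j := by
    intro a b
    simp only [pt, hN]
    simp only [col]
    rw [← h1 b j]
  have hQ : ∀ a b, Q a b = P a b - P a j * P j b / P j j := fun a b => by
    simp only [Q, hpt]
  have htr : Matrix.trace (Q.conjTranspose * Q) = 0 := by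
    have hher : Q.conjTranspose = Q := by
      ext a b
      rw [Matrix.conjTranspose_apply, hQ, hQ]
      simp only [star_sub, star_div₀, star_mul']
      rw [← h1 b a, ← h1 b j, ← h1 j a, ← h1 j j]
      ring
    rw [hher]
    have hQQ : Q * Q = Q := by
      ext a b
      rw [Matrix.mul_apply]
      simp only [hQ]
      have : ∀ k, (P a k - P a j * P j k / P j j) * (P k b - P k j * P j b / P j j)
          = P a k * P k b - (P j b / P j j) * (P a k * P k j)
            - (P a j / P j j) * (P j k * P k b)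
            + (P a j * P j b / P j j ^ 2) * (P j k * P k j) := fun k => by
        field_simp
        ring
      simp only [this, Finset.sum_add_distrib, Finset.sum_sub_distrib, ← Finset.mul_sum, h2]
      field_simp
      ring
    rw [hQQ]
    simp only [Matrix.trace, Matrix.diag, hQ, Finset.sum_sub_distrib, h3]
    have : ∑ k, P k j * P j k / P j j = 1 := by
      rw [← Finset.sum_div]
      have : ∑ k, P k j * P j k = P j j := by
        rw [← h2 j j]; exact Finset.sum_congr rfl fun _ _ => mul_comm _ _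
      rw [this, div_self hj]
    rw [this, sub_self]
  have hQ0 : Q = 0 := Matrix.trace_conjTranspose_mul_self_eq_zero_iff.1 htr
  funext a b
  have := congrFun (congrFun hQ0 a) b
  simpa [Q, sub_eq_zero] using this

lemma exists_pt {P : Fin (n + 1) → Fin (n + 1) → ℂ} (hP : P ∈ CP n) :
    ∃ z : Fin (n + 1) → ℂ, z ≠ 0 ∧ P = pt z := by
  have : ∃ j, P j j ≠ 0 := by
    by_contra h
    push Not at h
    have := hP.2.2
    simp [h] at this
  obtain ⟨j, hj⟩ := this
  refine ⟨col P j, fun h => hj ?_, eq_pt hP hj⟩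
  simpa [col] using congrFun h j

lemma eq_smul_of_pt_eq {z w : Fin (n + 1) → ℂ} (hw : w ≠ 0) (h : pt z = pt w) :
    ∃ c : ℂ, c ≠ 0 ∧ w = c • z := by
  obtain ⟨j, hj⟩ := Function.ne_iff.1 hw
  have h1 := congrArg (fun P => col P j) h
  simp only [col_pt] at h1
  have hwj : star (w j) / (nsq w : ℂ) ≠ 0 := div_ne_zero (by simpa using hj) (nsq_ne hw)
  refine ⟨(star (w j) / (nsq w : ℂ))⁻¹ * (star (z j) / (nsq z : ℂ)), ?_, ?_⟩
  · intro h0
    have : w = 0 := by
      have h2 := congrArg (fun v => (star (w j) / (nsq w : ℂ))⁻¹ • v) h1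
      simp only [smul_smul, h0, zero_smul, inv_mul_cancel₀ hwj, one_smul] at h2
      exact h2.symm
    exact hw this
  · have h2 := congrArg (fun v => (star (w j) / (nsq w : ℂ))⁻¹ • v) h1
    simp only [smul_smul, inv_mul_cancel₀ hwj, one_smul] at h2
    exact h2.symm

/-! ### smoothness of `pt` -/

lemma contDiff_nsq : ContDiff ℝ ∞ (fun z : Fin (n + 1) → ℂ => nsq z) := by
  have : (fun z : Fin (n + 1) → ℂ => nsq z) = fun z => ∑ k, ((z k).re * (z k).re
      + (z k).im * (z k).im) := by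
    funext z; simp [nsq, Complex.normSq_apply]
  rw [this]
  refine ContDiff.sum fun k _ => ?_
  have hk : ContDiff ℝ ∞ (fun z : Fin (n + 1) → ℂ => z k) := contDiff_apply ℝ ℂ k
  have hre : ContDiff ℝ ∞ (fun z : Fin (n + 1) → ℂ => (z k).re) :=
    Complex.reCLM.contDiff.comp hk
  have him : ContDiff ℝ ∞ (fun z : Fin (n + 1) → ℂ => (z k).im) :=
    Complex.imCLM.contDiff.comp hk
  exact (hre.mul hre).add (him.mul him)

lemma contDiffAt_pt {z : Fin (n + 1) → ℂ} (hz : z ≠ 0) : ContDiffAt ℝ ∞ pt z := by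
  rw [contDiffAt_pi]
  intro i
  rw [contDiffAt_pi]
  intro j
  have hk : ∀ k, ContDiff ℝ ∞ (fun z : Fin (n + 1) → ℂ => z k) := fun k => contDiff_apply ℝ ℂ k
  have hs : ContDiff ℝ ∞ (fun z : Fin (n + 1) → ℂ => star (z j)) :=
    (Complex.conjCLE : ℂ →L[ℝ] ℂ).contDiff.comp (hk j)
  have hN : ContDiff ℝ ∞ (fun z : Fin (n + 1) → ℂ => (nsq z : ℂ)) :=
    Complex.ofRealCLM.contDiff.comp contDiff_nsq
  exact (((hk i).mul hs).contDiffAt).mul (hN.contDiffAt.inv (nsq_ne hz))

end Pool.Agent.P28b04d
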